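import Pool.Agent.Lib.MP_688fd0_co.Cyc

/-!
From Hamiltonian cycles in Cayley graphs to listing sequences.
-/

namespace Pool.Agent.Lib.MP_688fd0_co

variable {G : Type*} [Group G]

/-- The (right) Cayley graph of `G` with respect to `A`, loops removed. -/
def cay (A : Set G) : SimpleGraph G := SimpleGraph.fromRel (fun x y => x⁻¹ * y ∈ A)

theorem cay_adj {A : Set G} (hA : ∀ x ∈ A, x⁻¹ ∈ A) {x y : G} :
    (cay A).Adj x y ↔ x ≠ y ∧ x⁻¹ * y ∈ A := by
  rw [cay, SimpleGraph.fromRel_adj]
  constructor
  · rintro ⟨h1, h2 | h2⟩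
    · exact ⟨h1, h2⟩
    · refine ⟨h1, ?_⟩
      have := hA _ h2
      simpa using this
  · rintro ⟨h1, h2⟩
    exact ⟨h1, Or.inl h2⟩

theorem cay_adj_mul {A : Set G} {x s : G} (hs : s ∈ A) (h1 : s ≠ 1) : (cay A).Adj x (x * s) := by
  rw [cay, SimpleGraph.fromRel_adj]
  refine ⟨?_, Or.inl (by simpa using hs)⟩
  intro h
  apply h1
  have : x * 1 = x * s := by simpa using h
  exact (mul_left_cancel this).symm

/-- Successive differences. -/
def diffs : G → List G → List G
  | _, [] => []
  | c, x :: t => (c⁻¹ * x) :: diffs x t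

theorem diffs_length (c : G) (l : List G) : (diffs c l).length = l.length := by
  induction l generalizing c with
  | nil => rfl
  | cons x t ih => simp [diffs, ih]

theorem diffs_take_prod (c : G) (l : List G) (k : ℕ) (hk : k < l.length) :
    ((diffs c l).take (k + 1)).prod = c⁻¹ * l[k] := by
  induction l generalizing c k with
  | nil => simp at hk
  | cons x t ih =>
    cases k with
    | zero => simp [diffs]
    | succ k =>
      simp only [List.length_cons, Nat.add_lt_add_iff_right] at hk
      simp only [diffs, List.take_succ_cons, List.prod_cons, List.getElem_cons_succ]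
      rw [ih x k hk]
      group

theorem diffs_mem {A : Set G} (hA : ∀ x ∈ A, x⁻¹ ∈ A) (c : G) (l : List G)
    (h : pe (c :: l) ⊆ (cay A).edgeSet) : ∀ x ∈ diffs c l, x ∈ A := by
  induction l generalizing c with
  | nil => simp [diffs]
  | cons y t ih =>
    intro x hx
    simp only [diffs, List.mem_cons] at hx
    rw [pe_cons_cons, Set.insert_subset_iff] at h
    rcases hx with rfl | hx
    · have := h.1
      rw [SimpleGraph.mem_edgeSet, cay_adj hA] at this
      exact this.2
    · exact ih y h.2 x hx

theorem listing_of_isHC [Finite G] {A : Set G} (hA : ∀ x ∈ A, x⁻¹ ∈ A) {E : Set (Sym2 G)}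
    (h : IsHC (cay A) Set.univ E) :
    ∃ a : Fin (Nat.card G) → G, (∀ i, a i ∈ A) ∧
      Function.Injective (fun k : Fin (Nat.card G) => ((List.ofFn a).take (k + 1)).prod) ∧
      (List.ofFn a).prod = 1 := by
  classical
  obtain ⟨l, hn, hv, hc, -⟩ := h
  have h1 : (1 : G) ∈ l := (hv 1).2 (Set.mem_univ _)
  obtain ⟨xs, ys, rfl⟩ := List.append_of_mem h1
  set L : List G := ys ++ xs ++ [1] with hL
  have hperm : L.Perm (xs ++ 1 :: ys) := by
    have e : xs ++ 1 :: ys = (xs ++ [1]) ++ ys := by simp
    rw [e, hL, List.append_assoc]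
    exact List.perm_append_comm
  have hLn : L.Nodup := hperm.nodup_iff.2 hn
  have hLv : ∀ v, v ∈ L := fun v => hperm.mem_iff.2 ((hv v).2 (Set.mem_univ _))
  have hlen : L.length = Nat.card G := by
    haveI := Fintype.ofFinite G
    rw [Nat.card_eq_fintype_card, ← List.toFinset_card_of_nodup hLn]
    have : L.toFinset = Finset.univ := by
      ext v; simp [hLv v]
    rw [this]; rfl
  have hpe : pe (1 :: L) ⊆ (cay A).edgeSet := by
    have e1 : pe (1 :: L) = ce (1 :: (ys ++ xs)) := by
      rw [ce_cons]; simp [hL]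
    have e2 : ce (xs ++ 1 :: ys) = ce (1 :: (ys ++ xs)) := by
      rw [ce_rotate]; simp
    rw [e1, ← e2]; exact hc
  have hdl : (diffs 1 L).length = Nat.card G := by rw [diffs_length, hlen]
  have hof : List.ofFn (fun i : Fin (Nat.card G) => (diffs 1 L).get (i.cast hdl.symm)) = diffs 1 L := by
    apply List.ext_get
    · simp [hdl]
    · intro n h1 h2
      simp
  refine ⟨fun i => (diffs 1 L).get (i.cast hdl.symm), ?_, ?_, ?_⟩
  · intro i
    exact diffs_mem hA 1 L hpe _ (List.get_mem _ _)
  · intro i j hij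
    simp only at hij
    rw [hof] at hij
    have hi : (i : ℕ) < L.length := by rw [hlen]; exact i.2
    have hj : (j : ℕ) < L.length := by rw [hlen]; exact j.2
    rw [diffs_take_prod 1 L i hi, diffs_take_prod 1 L j hj] at hij
    have h3 : L[(i : ℕ)] = L[(j : ℕ)] := mul_left_cancel hij
    exact Fin.ext ((hLn.getElem_inj_iff).1 h3)
  · rw [hof]
    have hpos : 0 < L.length := by simp [hL]
    have hk : L.length - 1 < L.length := by omega
    have h4 := diffs_take_prod 1 L (L.length - 1) hk
    have h5 : L.length - 1 + 1 = (diffs 1 L).length := by rw [diffs_length]; omega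
    rw [h5, List.take_length] at h4
    rw [h4]
    simp [hL]

end Pool.Agent.Lib.MP_688fd0_co
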