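import Pool.Agent.Lib.MP_688fd0_co.EvenExt
import Pool.Agent.Lib.MP_688fd0_co.Listing

/-!
Hamiltonian cycles from a local linking property of a subgroup.
-/

namespace Pool.Agent.Lib.MP_688fd0_co

set_option linter.unusedSectionVars false
set_option linter.style.haveILetI false

open Classical

section graph

variable {V : Type*} [Fintype V]

/-- Degree. -/
noncomputable def dg (Γ : SimpleGraph V) (x : V) : ℕ :=
  (Finset.univ.filter (fun y => Γ.Adj x y)).card

theorem dg_zero {Γ : SimpleGraph V} {x : V} (h : ∀ y, ¬ Γ.Adj x y) : dg Γ x = 0 := by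
  unfold dg
  rw [Finset.card_eq_zero, Finset.filter_eq_empty_iff]
  intro y _; exact h y

theorem dg_one {Γ : SimpleGraph V} {x : V} (z : V) (h : ∀ y, Γ.Adj x y ↔ y = z) : dg Γ x = 1 := by
  unfold dg
  rw [Finset.card_eq_one]
  refine ⟨z, ?_⟩
  ext y
  rw [Finset.mem_filter, Finset.mem_singleton, h]
  simp

theorem dg_congr {Γ Γ' : SimpleGraph V} {x : V} (h : ∀ y, Γ.Adj x y ↔ Γ'.Adj x y) :
    dg Γ x = dg Γ' x := by
  unfold dg
  congr 1
  ext y
  rw [Finset.mem_filter, Finset.mem_filter, h]

theorem dg_add {Ω Γ Γ' : SimpleGraph V} {x : V} (h : ∀ y, Ω.Adj x y ↔ (Γ.Adj x y ∨ Γ'.Adj x y))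
    (hd : ∀ y, Γ.Adj x y → ¬ Γ'.Adj x y) : dg Ω x = dg Γ x + dg Γ' x := by
  unfold dg
  rw [← Finset.card_union_of_disjoint]
  · congr 1
    ext y
    rw [Finset.mem_union, Finset.mem_filter, Finset.mem_filter, Finset.mem_filter, h]
    simp
  · rw [Finset.disjoint_left]
    intro y hy hy'
    exact hd y (Finset.mem_filter.1 hy).2 (Finset.mem_filter.1 hy').2

theorem dg_eq_ncard (Γ : SimpleGraph V) (x : V) : (Γ.neighborSet x).ncard = dg Γ x := by
  unfold dg
  rw [← Set.ncard_coe_finset]
  congr 1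
  ext y
  simp

/-- Handshake in a closed vertex set. -/
theorem even_sum_dg (Γ : SimpleGraph V) (C : Finset V)
    (hC : ∀ x ∈ C, ∀ y, Γ.Adj x y → y ∈ C) : Even (∑ x ∈ C, dg Γ x) := by
  set Γ' : SimpleGraph V :=
    { Adj := fun x y => Γ.Adj x y ∧ x ∈ C
      symm := ⟨fun x y h => ⟨h.1.symm, hC x h.2 y h.1⟩⟩
      loopless := ⟨fun x h => Γ.irrefl h.1⟩ } with hΓ'
  have h1 := Γ'.sum_degrees_eq_twice_card_edges
  have h2 : ∀ x, Γ'.degree x = if x ∈ C then dg Γ x else 0 := by
    intro x
    rw [← SimpleGraph.card_neighborFinset_eq_degree, SimpleGraph.neighborFinset_eq_filter]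
    split_ifs with hx
    · unfold dg
      congr 1
      ext y
      simp [hΓ', hx]
    · rw [Finset.card_eq_zero, Finset.filter_eq_empty_iff]
      intro y _ h
      exact hx h.2
  simp only [h2] at h1
  rw [Finset.sum_ite_mem, Finset.univ_inter] at h1
  rw [h1]
  exact even_two_mul _

/-- Pairings respecting an equivalence relation all of whose classes are even. -/
theorem exists_pairing (r : V → V → Prop) (hr : Equivalence r) (n : ℕ) :
    ∀ R : Finset V, R.card = n → (∀ u ∈ R, Even (R.filter (fun x => r u x)).card) →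
    ∃ ν : V → V, (∀ x, ν (ν x) = x) ∧ (∀ x, ν x ≠ x ↔ x ∈ R) ∧ ∀ x, r x (ν x) := by
  induction n using Nat.strong_induction_on with
  | _ n ih =>
    intro R hRn hR
    rcases R.eq_empty_or_nonempty with rfl | ⟨u, hu⟩
    · exact ⟨id, fun _ => rfl, fun x => by simp, fun x => hr.refl x⟩
    · have h1 := hR u hu
      have hu' : u ∈ R.filter (fun x => r u x) := Finset.mem_filter.2 ⟨hu, hr.refl u⟩
      have h2 : 1 < (R.filter (fun x => r u x)).card := by
        have h3 : 0 < (R.filter (fun x => r u x)).card := Finset.card_pos.2 ⟨u, hu'⟩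
        rcases h1 with ⟨k, hk⟩
        omega
      obtain ⟨v, hv, hvu⟩ := Finset.exists_mem_ne h2 u
      rw [Finset.mem_filter] at hv
      have hvE : v ∈ R.erase u := Finset.mem_erase.2 ⟨hvu, hv.1⟩
      have hcard : ((R.erase u).erase v).card + 2 = R.card := by
        have a1 := Finset.card_erase_add_one hu
        have a2 := Finset.card_erase_add_one hvE
        omega
      obtain ⟨ν, hν1, hν2, hν3⟩ := ih ((R.erase u).erase v).card (by omega) ((R.erase u).erase v) rfl (by
        intro w hw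
        rw [Finset.mem_erase, Finset.mem_erase] at hw
        have h3 := hR w hw.2.2
        by_cases hwu : r w u
        · have hwv : r w v := hr.trans hwu hv.2
          have e1 : ((R.erase u).erase v).filter (fun x => r w x) =
              ((R.filter (fun x => r w x)).erase u).erase v := by
            ext x
            simp only [Finset.mem_filter, Finset.mem_erase]
            tauto
          have b1 : u ∈ R.filter (fun x => r w x) := Finset.mem_filter.2 ⟨hu, hwu⟩
          have b2 : v ∈ (R.filter (fun x => r w x)).erase u :=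
            Finset.mem_erase.2 ⟨hvu, Finset.mem_filter.2 ⟨hv.1, hwv⟩⟩
          have a1 := Finset.card_erase_add_one b1
          have a2 := Finset.card_erase_add_one b2
          rw [e1]
          rcases h3 with ⟨k, hk⟩
          exact ⟨k - 1, by omega⟩
        · have hwv : ¬ r w v := fun h => hwu (hr.trans h (hr.symm hv.2))
          have e1 : ((R.erase u).erase v).filter (fun x => r w x) = R.filter (fun x => r w x) := by
            ext x
            simp only [Finset.mem_filter, Finset.mem_erase]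
            constructor
            · rintro ⟨⟨-, -, h⟩, h'⟩; exact ⟨h, h'⟩
            · rintro ⟨h, h'⟩
              refine ⟨⟨?_, ?_, h⟩, h'⟩
              · rintro rfl; exact hwv h'
              · rintro rfl; exact hwu h'
          rw [e1]; exact h3)
      have hνu : ν u = u := by
        by_contra h
        have := (hν2 u).1 h
        simp at this
      have hνv : ν v = v := by
        by_contra h
        have := (hν2 v).1 h
        simp at this
      have hne : ∀ x, x ≠ u → x ≠ v → ν x ≠ u ∧ ν x ≠ v := by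
        intro x hxu hxv
        constructor
        · intro h
          apply hxu
          rw [← hν1 x, h, hνu]
        · intro h
          apply hxv
          rw [← hν1 x, h, hνv]
      refine ⟨fun x => if x = u then v else if x = v then u else ν x, ?_, ?_, ?_⟩
      · intro x
        by_cases hxu : x = u
        · subst hxu; simp [hvu]
        · by_cases hxv : x = v
          · subst hxv; simp [hxu]
          · obtain ⟨h3, h4⟩ := hne x hxu hxv
            simp [hxu, hxv, h3, h4, hν1]
      · intro x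
        by_cases hxu : x = u
        · subst hxu; simp [hvu, hu]
        · by_cases hxv : x = v
          · subst hxv
            simp [hxu, hv.1, Ne.symm hxu]
          · simp only [hxu, hxv, if_false]
            rw [hν2]
            simp [hxu, hxv]
      · intro x
        by_cases hxu : x = u
        · subst hxu; simp [hv.2]
        · by_cases hxv : x = v
          · subst hxv; simp [hxu, hr.symm hv.2]
          · simp only [hxu, hxv, if_false]
            exact hν3 x

end graph

variable {G : Type*} [Group G] [Fintype G]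

/-- The linking property of a subgroup. -/
def LocalP (A : Set G) (H : Subgroup G) (N : G → G → Prop) : Prop :=
  ∀ μ : G → G, (∀ x, μ (μ x) = x) → (∀ x, μ x ≠ x → x ∈ H) →
    (∀ x y, μ x ≠ x → μ y ≠ y → N x y → x = y) →
    ∃ Φ : SimpleGraph G, (∀ x y, Φ.Adj x y → x ∈ H ∧ y ∈ H ∧ x⁻¹ * y ∈ A) ∧
      (∀ x ∈ H, dg Φ x = if μ x = x then 2 else 1) ∧
      ∀ x ∈ H, ∀ y ∈ H, Relation.EqvGen (fun a b => Φ.Adj a b ∨ μ a = b) x y

/-- Admissible internal graphs on a coset. -/
structure OK (A : Set G) (H : Subgroup G) (Γ : SimpleGraph G) (q : G ⧸ H) (Φ : SimpleGraph G) :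
    Prop where
  mem : ∀ x y, Φ.Adj x y → (x : G ⧸ H) = q ∧ (y : G ⧸ H) = q ∧ x⁻¹ * y ∈ A
  deg : ∀ x : G, (x : G ⧸ H) = q → dg Φ x = if (∃ z, Γ.Adj x z) then 1 else 2

/-- The conflict relation transported to all cosets. -/
def nearG (H : Subgroup G) (N : G → G → Prop) (x y : G) : Prop :=
  (x : G ⧸ H) = (y : G ⧸ H) ∧ N ((x : G ⧸ H).out⁻¹ * x) ((y : G ⧸ H).out⁻¹ * y)

theorem LocalP.coset {A : Set G} {H : Subgroup G} {N : G → G → Prop} (hP : LocalP A H N)
    {Γ : SimpleGraph G} (hΓ : Ext A H (nearG H N) Γ) (q : G ⧸ H) (ν : G → G)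
    (h1 : ∀ x, ν (ν x) = x) (h2 : ∀ x, ν x ≠ x ↔ ((x : G ⧸ H) = q ∧ ∃ z, Γ.Adj x z)) :
    ∃ Φ : SimpleGraph G, OK A H Γ q Φ ∧ ∀ x y : G, (x : G ⧸ H) = q → (y : G ⧸ H) = q →
      Relation.EqvGen (fun a b => Φ.Adj a b ∨ ν a = b) x y := by
  set g : G := q.out with hg
  have hgq : (g : G ⧸ H) = q := by rw [hg]; exact QuotientGroup.out_eq' q
  have hmem : ∀ x : G, (x : G ⧸ H) = q ↔ g⁻¹ * x ∈ H := by
    intro x
    rw [← hgq, eq_comm, QuotientGroup.eq]
  obtain ⟨Φ, hΦ1, hΦ2, hΦ3⟩ := hP (fun x => g⁻¹ * ν (g * x))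
    (by intro x; simp [h1])
    (by
      intro x hx
      have h3 : ν (g * x) ≠ g * x := by
        intro h; apply hx; simp [h]
      have := ((h2 _).1 h3).1
      rw [hmem] at this
      simpa using this)
    (by
      intro x y hx hy hxy
      have h3 : ν (g * x) ≠ g * x := by
        intro h; apply hx; simp [h]
      have h4 : ν (g * y) ≠ g * y := by
        intro h; apply hy; simp [h]
      obtain ⟨h5, h6⟩ := (h2 _).1 h3
      obtain ⟨h7, h8⟩ := (h2 _).1 h4
      have h9 := hΓ.near_inj (g * x) (g * y) h6 h8 (by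
        refine ⟨h5.trans h7.symm, ?_⟩
        rw [h5, h7, ← hg]
        simpa using hxy)
      exact mul_left_cancel h9)
  set Φ' : SimpleGraph G :=
    { Adj := fun x y => Φ.Adj (g⁻¹ * x) (g⁻¹ * y)
      symm := ⟨fun x y h => h.symm⟩
      loopless := ⟨fun x h => Φ.irrefl h⟩ } with hΦ'
  have hadj : ∀ x y, Φ'.Adj x y ↔ Φ.Adj (g⁻¹ * x) (g⁻¹ * y) := fun x y => Iff.rfl
  have hdg : ∀ x, dg Φ' x = dg Φ (g⁻¹ * x) := by
    intro x
    unfold dg
    apply Finset.card_bij (fun y _ => g⁻¹ * y)
    · intro y hy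
      rw [Finset.mem_filter] at hy ⊢
      exact ⟨Finset.mem_univ _, (hadj _ _).1 hy.2⟩
    · intro a _ b _ hab; exact mul_left_cancel hab
    · intro b hb
      rw [Finset.mem_filter] at hb
      refine ⟨g * b, Finset.mem_filter.2 ⟨Finset.mem_univ _, ?_⟩, by simp⟩
      rw [hadj]
      simpa using hb.2
  refine ⟨Φ', ⟨?_, ?_⟩, ?_⟩
  · intro x y hxy
    obtain ⟨h3, h4, h5⟩ := hΦ1 _ _ ((hadj _ _).1 hxy)
    refine ⟨(hmem x).2 h3, (hmem y).2 h4, ?_⟩
    have : (g⁻¹ * x)⁻¹ * (g⁻¹ * y) = x⁻¹ * y := by group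
    rwa [this] at h5
  · intro x hx
    rw [hdg, hΦ2 _ ((hmem x).1 hx)]
    have h3 : (g⁻¹ * ν (g * (g⁻¹ * x)) = g⁻¹ * x) ↔ ¬ ∃ z, Γ.Adj x z := by
      rw [mul_inv_cancel_left]
      constructor
      · intro h hz
        exact (h2 x).2 ⟨hx, hz⟩ (mul_left_cancel h)
      · intro h
        by_contra hcon
        exact h ((h2 x).1 (fun h' => hcon (by rw [h']))).2
    by_cases hz : ∃ z, Γ.Adj x z
    · rw [if_pos hz, if_neg (fun h => h3.1 h hz)]
    · rw [if_neg hz, if_pos (h3.2 hz)]
  · intro x y hx hy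
    have h3 := hΦ3 _ ((hmem x).1 hx) _ ((hmem y).1 hy)
    have key : ∀ u v, Relation.EqvGen (fun a b => Φ.Adj a b ∨ g⁻¹ * ν (g * a) = b) u v →
        Relation.EqvGen (fun a b => Φ'.Adj a b ∨ ν a = b) (g * u) (g * v) := by
      intro u v huv
      induction huv with
      | rel a b hab =>
        apply Relation.EqvGen.rel
        rcases hab with hab | hab
        · left; rw [hadj]; simpa using hab
        · right; rw [← hab]; simp
      | refl a => exact Relation.EqvGen.refl _
      | symm a b _ ih => exact Relation.EqvGen.symm _ _ ih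
      | trans a b c _ _ ih1 ih2 => exact Relation.EqvGen.trans _ _ _ ih1 ih2
    have := key _ _ h3
    simpa using this

/-- The total graph. -/
def totG (H : Subgroup G) (Γ : SimpleGraph G) (Φ : G ⧸ H → SimpleGraph G)
    (hΦ : ∀ q x y, (Φ q).Adj x y → (x : G ⧸ H) = q ∧ (y : G ⧸ H) = q) : SimpleGraph G where
  Adj := fun x y => (Φ (x : G ⧸ H)).Adj x y ∨ Γ.Adj x y
  symm := ⟨fun x y h => by
    rcases h with h | h
    · left
      have := hΦ _ _ _ h
      rw [this.2]; exact h.symm
    · right; exact h.symm⟩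
  loopless := ⟨fun x h => by
    rcases h with h | h
    · exact (Φ _).irrefl h
    · exact Γ.irrefl h⟩

/-- Merging everything inside one coset. -/
theorem rechoose {A : Set G} {H : Subgroup G} {N : G → G → Prop} (hP : LocalP A H N)
    {Γ : SimpleGraph G} (hΓ : Ext A H (nearG H N) Γ) (Φ : G ⧸ H → SimpleGraph G)
    (hΦ : ∀ q, OK A H Γ q (Φ q)) (q : G ⧸ H) :
    ∃ Φ' : G ⧸ H → SimpleGraph G, (∀ q, OK A H Γ q (Φ' q)) ∧
      (∀ x y : G, Relation.EqvGen (fun a b : G => (Φ (a : G ⧸ H)).Adj a b ∨ Γ.Adj a b) x y →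
        Relation.EqvGen (fun a b : G => (Φ' (a : G ⧸ H)).Adj a b ∨ Γ.Adj a b) x y) ∧
      ∀ x y : G, (x : G ⧸ H) = q → (y : G ⧸ H) = q →
        Relation.EqvGen (fun a b : G => (Φ' (a : G ⧸ H)).Adj a b ∨ Γ.Adj a b) x y := by
  -- the graph outside `q`
  set Ψ : SimpleGraph G :=
    { Adj := fun x y => (Φ (x : G ⧸ H)).Adj x y ∧ (x : G ⧸ H) ≠ q
      symm := ⟨fun x y h => by
        have h1 := (hΦ _).mem _ _ h.1
        refine ⟨?_, ?_⟩
        · rw [h1.2.1]; exact h.1.symm
        · rw [h1.2.1]; exact h.2⟩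
      loopless := ⟨fun x h => (Φ _).irrefl h.1⟩ } with hΨ
  set r : G → G → Prop := Relation.EqvGen (fun a b => Ψ.Adj a b ∨ Γ.Adj a b) with hr
  have hre : Equivalence r := Relation.EqvGen.is_equivalence _
  set R : Finset G := Finset.univ.filter (fun x : G => (x : G ⧸ H) = q ∧ ∃ z, Γ.Adj x z) with hR
  have hΨdg : ∀ x, dg Ψ x = if (x : G ⧸ H) = q then 0 else if (∃ z, Γ.Adj x z) then 1 else 2 := by
    intro x
    by_cases hx : (x : G ⧸ H) = q
    · rw [if_pos hx]
      exact dg_zero (fun y h => h.2 hx)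
    · rw [if_neg hx, ← (hΦ (x : G ⧸ H)).deg x rfl]
      exact dg_congr (fun y => ⟨fun h => h.1, fun h => ⟨h, hx⟩⟩)
  have hΓdg : ∀ x, dg Γ x = if (∃ z, Γ.Adj x z) then 1 else 0 := by
    intro x
    by_cases hx : ∃ z, Γ.Adj x z
    · rw [if_pos hx]
      obtain ⟨z, hz⟩ := hx
      exact dg_one z (fun y => ⟨fun h => hΓ.uniq x y z h hz, fun h => h ▸ hz⟩)
    · rw [if_neg hx]
      exact dg_zero (fun y h => hx ⟨y, h⟩)
  have heven : ∀ u ∈ R, Even (R.filter (fun x => r u x)).card := by
    intro u _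
    set C : Finset G := Finset.univ.filter (fun x => r u x) with hC
    have h1 := even_sum_dg Ψ C (by
      intro x hx y hxy
      rw [hC, Finset.mem_filter] at hx ⊢
      exact ⟨Finset.mem_univ _, hre.trans hx.2 (Relation.EqvGen.rel _ _ (Or.inl hxy))⟩)
    have h2 := even_sum_dg Γ C (by
      intro x hx y hxy
      rw [hC, Finset.mem_filter] at hx ⊢
      exact ⟨Finset.mem_univ _, hre.trans hx.2 (Relation.EqvGen.rel _ _ (Or.inr hxy))⟩)
    have h3 := h1.add h2
    rw [← Finset.sum_add_distrib] at h3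
    have h4 : ∀ x ∈ C, dg Ψ x + dg Γ x = (if x ∈ R then 1 else 0) + 2 * (if (x : G ⧸ H) = q then 0 else 1) := by
      intro x _
      rw [hΨdg, hΓdg]
      have h5 : x ∈ R ↔ ((x : G ⧸ H) = q ∧ ∃ z, Γ.Adj x z) := by
        rw [hR, Finset.mem_filter]; simp
      by_cases hx : (x : G ⧸ H) = q <;> by_cases hz : ∃ z, Γ.Adj x z
      · rw [if_pos hx, if_pos hz, if_pos (h5.2 ⟨hx, hz⟩), if_pos hx]
      · rw [if_pos hx, if_neg hz, if_neg (fun h => hz (h5.1 h).2), if_pos hx]
      · rw [if_neg hx, if_pos hz, if_neg (fun h => hx (h5.1 h).1), if_pos hz, if_neg hx]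
      · rw [if_neg hx, if_neg hz, if_neg (fun h => hx (h5.1 h).1), if_neg hz, if_neg hx]
    rw [Finset.sum_congr rfl h4, Finset.sum_add_distrib, ← Finset.mul_sum,
      Nat.even_add, iff_true_right (even_two_mul _)] at h3
    have h5 : ∑ x ∈ C, (if x ∈ R then 1 else 0) = (R.filter (fun x => r u x)).card := by
      rw [Finset.card_filter, Finset.sum_ite_mem, Finset.sum_const, smul_eq_mul, mul_one,
        ← Finset.card_filter]
      congr 1
      ext x
      simp only [hC, Finset.mem_inter, Finset.mem_filter, Finset.mem_univ, true_and]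
      exact and_comm
    rwa [h5] at h3
  obtain ⟨ν, hν1, hν2, hν3⟩ := exists_pairing r hre R.card R rfl heven
  obtain ⟨Φq, hOK, hconn⟩ := hP.coset hΓ q ν hν1 (by
    intro x
    rw [hν2, hR, Finset.mem_filter]
    simp)
  set Φ' := Function.update Φ q Φq with hΦ'
  have hΦq : Φ' q = Φq := by rw [hΦ', Function.update_self]
  have hΦne : ∀ q', q' ≠ q → Φ' q' = Φ q' := by
    intro q' h
    rw [hΦ', Function.update_of_ne h]
  have hin : ∀ x y, r x y →
      Relation.EqvGen (fun a b : G => (Φ' (a : G ⧸ H)).Adj a b ∨ Γ.Adj a b) x y := by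
    intro x y hxy
    induction hxy with
    | rel a b hab =>
      apply Relation.EqvGen.rel
      rcases hab with hab | hab
      · left; rw [hΦne _ hab.2]; exact hab.1
      · right; exact hab
    | refl a => exact Relation.EqvGen.refl _
    | symm a b _ ih => exact Relation.EqvGen.symm _ _ ih
    | trans a b c _ _ ih1 ih2 => exact Relation.EqvGen.trans _ _ _ ih1 ih2
  have hall : ∀ x y : G, (x : G ⧸ H) = q → (y : G ⧸ H) = q →
        Relation.EqvGen (fun a b : G => (Φ' (a : G ⧸ H)).Adj a b ∨ Γ.Adj a b) x y := by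
    intro x y hx hy
    have h1 := hconn x y hx hy
    clear hx hy
    induction h1 with
    | rel a b hab =>
      rcases hab with hab | hab
      · apply Relation.EqvGen.rel
        left
        rw [(hOK.mem a b hab).1, hΦq]; exact hab
      · rw [← hab]
        exact hin _ _ (hν3 a)
    | refl a => exact Relation.EqvGen.refl _
    | symm a b _ ih => exact Relation.EqvGen.symm _ _ ih
    | trans a b c _ _ ih1 ih2 => exact Relation.EqvGen.trans _ _ _ ih1 ih2
  refine ⟨Φ', ?_, ?_, hall⟩
  · intro q'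
    by_cases h : q' = q
    · subst h; rw [hΦq]; exact hOK
    · rw [hΦne _ h]; exact hΦ q'
  · intro x y hxy
    induction hxy with
    | rel a b hab =>
      rcases hab with hab | hab
      · by_cases h : (a : G ⧸ H) = q
        · have h2 := ((hΦ _).mem a b hab).2.1
          exact hall a b h (h2.trans h)
        · apply Relation.EqvGen.rel
          left; rw [hΦne _ h]; exact hab
      · exact Relation.EqvGen.rel _ _ (Or.inr hab)
    | refl a => exact Relation.EqvGen.refl _
    | symm a b _ ih => exact Relation.EqvGen.symm _ _ ih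
    | trans a b c _ _ ih1 ih2 => exact Relation.EqvGen.trans _ _ _ ih1 ih2

/-- Connected graphs of degree two in a Cayley graph give Hamiltonian cycles. -/
theorem isHC_of_two_regular {V : Type*} [Fintype V] [Nonempty V] {Γ Ω : SimpleGraph V}
    (hle : ∀ x y, Ω.Adj x y → Γ.Adj x y) (hdg : ∀ x, dg Ω x = 2)
    (hconn : ∀ x y, Relation.EqvGen (fun a b => Ω.Adj a b) x y) : IsHC Γ Set.univ ∅ := by
  have hreach : ∀ x y, Ω.Reachable x y := by
    intro x y
    have h := hconn x y
    induction h with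
    | rel a b hab => exact hab.reachable
    | refl a => exact SimpleGraph.Reachable.refl _
    | symm a b _ ih => exact ih.symm
    | trans a b c _ _ ih1 ih2 => exact ih1.trans ih2
  have hcyc : Ω.IsCycles := by
    intro v _
    rw [dg_eq_ncard, hdg]
  obtain ⟨v⟩ := ‹Nonempty V›
  obtain ⟨p, hp, hps⟩ := hcyc.exists_cycle_toSubgraph_verts_eq_connectedComponentSupp
    (c := Ω.connectedComponentMk v) (v := v) (by simp) (by
      have : (Ω.neighborSet v).ncard = 2 := by rw [dg_eq_ncard, hdg]
      exact Set.nonempty_of_ncard_ne_zero (by omega))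
  have hall : ∀ w, w ∈ p.support := by
    intro w
    rw [← SimpleGraph.Walk.mem_verts_toSubgraph, hps, SimpleGraph.ConnectedComponent.mem_supp_iff,
      SimpleGraph.ConnectedComponent.eq]
    exact hreach w v
  -- the list
  have hpe : ∀ {a b : V} (q : Ω.Walk a b), pe q.support ⊆ Ω.edgeSet := by
    intro a b q
    induction q with
    | nil => simp
    | cons h q ih =>
      rw [SimpleGraph.Walk.support_cons]
      cases q with
      | nil =>
        rw [SimpleGraph.Walk.support_nil, pe_cons_cons, pe_single]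
        intro e he
        rw [Set.mem_insert_iff] at he
        rcases he with rfl | he
        · exact h
        · exact absurd he (Set.notMem_empty _)
      | cons h' q' =>
        rw [SimpleGraph.Walk.support_cons] at ih ⊢
        rw [pe_cons_cons]
        intro e he
        rw [Set.mem_insert_iff] at he
        rcases he with rfl | he
        · exact h
        · exact ih he
  have hsup : p.support = v :: p.support.tail := p.cons_tail_support.symm
  have hnil : p ≠ SimpleGraph.Walk.nil := hp.ne_nil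
  set t := p.support.tail with ht
  have htne : t ≠ [] := by
    intro h
    cases p with
    | nil => exact hnil rfl
    | cons h' q =>
      simp at ht
      rw [ht] at h
      exact SimpleGraph.Walk.support_ne_nil _ h
  have hlast : t.getLast htne = v := by
    have h1 : p.support.getLast (SimpleGraph.Walk.support_ne_nil _) = v := SimpleGraph.Walk.getLast_support p
    have h2 : (v :: t).getLast (by simp) = v := by
      have h3 : ∀ (l : List V) (hl : l ≠ []), l = p.support → l.getLast hl = v := by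
        intro l hl hl'
        subst hl'
        exact h1
      exact h3 _ _ hsup.symm
    rwa [List.getLast_cons htne] at h2
  refine ⟨t, hp.support_nodup, ?_, ?_, Set.empty_subset _⟩
  · intro w
    refine ⟨fun _ => Set.mem_univ _, fun _ => ?_⟩
    have h1 := hall w
    rw [hsup, List.mem_cons] at h1
    rcases h1 with rfl | h1
    · rw [← hlast]; exact List.getLast_mem htne
    · exact h1
  · have h1 : t = t.dropLast ++ [v] := by
      rw [← hlast]; exact (List.dropLast_append_getLast htne).symm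
    have h2 : ce t = pe p.support := by
      rw [h1, ce_rotate, List.singleton_append, ce_cons, hsup]
      congr 1
      rw [List.cons_append, ← h1]
    rw [h2]
    intro e he
    have h3 := hpe p he
    induction e using Sym2.ind with
    | _ x y => exact hle _ _ h3

/-- **Assembly.** -/
theorem assembly {A : Set G} (hA : ∀ x ∈ A, x⁻¹ ∈ A) (hgen : Subgroup.closure A = ⊤)
    {H : Subgroup G} {N : G → G → Prop} (hP : LocalP A H N) (hrefl : ∀ x ∈ H, N x x)
    (hsymm : ∀ x y, N x y → N y x) (ν ν' : ℕ)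
    (hν₀ : ∀ x ∈ H, {z : G | z ∈ H ∧ N x z}.ncard ≤ ν)
    (hν₀' : ∀ x ∈ H, ∀ y ∈ H, N x y → {z : G | z ∈ H ∧ N x z ∧ ¬ N y z}.ncard ≤ ν')
    (hH : 4 * (3 * ν + ν') ≤ Nat.card H) : IsHC (cay A) Set.univ ∅ := by
  have hν : ∀ x ∈ H, (Finset.univ.filter (fun z : G => z ∈ H ∧ N x z)).card ≤ ν := by
    intro x hx
    have h1 := hν₀ x hx
    have e : {z : G | z ∈ H ∧ N x z} =
        ((Finset.univ.filter (fun z : G => z ∈ H ∧ N x z) : Finset G) : Set G) := by
      ext z; simp
    rwa [e, Set.ncard_coe_finset] at h1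
  have hν' : ∀ x ∈ H, ∀ y ∈ H, N x y →
      (Finset.univ.filter (fun z : G => z ∈ H ∧ N x z ∧ ¬ N y z)).card ≤ ν' := by
    intro x hx y hy hxy
    have h1 := hν₀' x hx y hy hxy
    have e : {z : G | z ∈ H ∧ N x z ∧ ¬ N y z} =
        ((Finset.univ.filter (fun z : G => z ∈ H ∧ N x z ∧ ¬ N y z) : Finset G) : Set G) := by
      ext z; simp
    rwa [e, Set.ncard_coe_finset] at h1
  have hout : ∀ x : G, (x : G ⧸ H).out⁻¹ * x ∈ H := by
    intro x
    rw [← QuotientGroup.eq, QuotientGroup.out_eq']
  have hn : ∀ x, (Finset.univ.filter (fun z : G => nearG H N x z)).card ≤ ν := by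
    intro x
    refine le_trans ?_ (hν _ (hout x))
    apply Finset.card_le_card_of_injOn (fun z => (x : G ⧸ H).out⁻¹ * z)
    · intro z hz
      rw [Finset.mem_coe, Finset.mem_filter] at hz
      obtain ⟨-, h1, h2⟩ := hz
      rw [← h1] at h2
      rw [Finset.mem_coe, Finset.mem_filter]
      refine ⟨Finset.mem_univ _, ?_, h2⟩
      rw [h1]; exact hout z
    · intro a _ b _ hab; exact mul_left_cancel hab
  have hn' : ∀ x y, nearG H N x y →
      (Finset.univ.filter (fun z : G => nearG H N x z ∧ ¬ nearG H N y z)).card ≤ ν' := by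
    intro x y hxy
    refine le_trans ?_ (hν' _ (hout x) _ (hout y) hxy.2)
    apply Finset.card_le_card_of_injOn (fun z => (x : G ⧸ H).out⁻¹ * z)
    · intro z hz
      rw [Finset.mem_coe, Finset.mem_filter] at hz
      obtain ⟨-, ⟨h1, h2⟩, h3⟩ := hz
      rw [← h1] at h2
      have h4 : ¬ N ((y : G ⧸ H).out⁻¹ * y) ((x : G ⧸ H).out⁻¹ * z) := by
        intro h
        apply h3
        refine ⟨hxy.1.symm.trans h1, ?_⟩
        rw [← h1]; exact h
      rw [Finset.mem_coe, Finset.mem_filter]
      refine ⟨Finset.mem_univ _, ?_, h2, h4⟩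
      rw [h1]; exact hout z
    · intro a _ b _ hab; exact mul_left_cancel hab
  obtain ⟨Γ, hΓ⟩ := exists_ext (H := H) hA hgen (nearG H N) (fun x => ⟨rfl, hrefl _ (hout x)⟩)
    (fun x y h => ⟨h.1.symm, hsymm _ _ h.2⟩) ν ν'
    (fun w => (le_of_eq (congrArg Finset.card (by ext z; simp only [Finset.mem_filter]))).trans (hn w))
    (fun x y h => (le_of_eq (congrArg Finset.card (by ext z; simp only [Finset.mem_filter]))).trans
      (hn' x y h)) hH (fun x y h => h.1)
  -- initial choice
  have hinit : ∃ Φ : G ⧸ H → SimpleGraph G, ∀ q, OK A H Γ q (Φ q) := by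
    have h1 : ∀ q : G ⧸ H, ∃ Φ : SimpleGraph G, OK A H Γ q Φ := by
      intro q
      set R : Finset G := Finset.univ.filter (fun x : G => (x : G ⧸ H) = q ∧ ∃ z, Γ.Adj x z) with hR
      obtain ⟨ν, hν1, hν2, -⟩ := exists_pairing (fun _ _ : G => True)
        ⟨fun _ => trivial, fun _ => trivial, fun _ _ => trivial⟩ R.card R rfl (by
          intro u _
          have h2 : R.filter (fun _ => True) = R := Finset.filter_true_of_mem (fun _ _ => trivial)
          have h3 : Even (R.filter (fun _ => True)).card := by rw [h2]; exact hΓ.even q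
          refine (congrArg Even (congrArg Finset.card ?_)).mp h3
          ext z; simp only [Finset.mem_filter])
      obtain ⟨Φ, hΦ, -⟩ := hP.coset hΓ q ν hν1 (by
        intro x
        rw [hν2, hR, Finset.mem_filter]
        simp)
      exact ⟨Φ, hΦ⟩
    choose Φ hΦ using h1
    exact ⟨Φ, hΦ⟩
  -- minimal number of components
  let cn : (G ⧸ H → SimpleGraph G) → Setoid G := fun Φ =>
    Relation.EqvGen.setoid (fun a b : G => (Φ (a : G ⧸ H)).Adj a b ∨ Γ.Adj a b)
  have hmin : ∃ Φ : G ⧸ H → SimpleGraph G, (∀ q, OK A H Γ q (Φ q)) ∧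
      ∀ Φ' : G ⧸ H → SimpleGraph G, (∀ q, OK A H Γ q (Φ' q)) →
        Nat.card (Quotient (cn Φ)) ≤ Nat.card (Quotient (cn Φ')) := by
    obtain ⟨Φ₀, hΦ₀⟩ := hinit
    have hne : {Φ : G ⧸ H → SimpleGraph G | ∀ q, OK A H Γ q (Φ q)}.Nonempty := ⟨Φ₀, hΦ₀⟩
    have hwf : WellFounded (fun Φ Φ' : G ⧸ H → SimpleGraph G =>
        Nat.card (Quotient (cn Φ)) < Nat.card (Quotient (cn Φ'))) :=
      InvImage.wf (fun Φ => Nat.card (Quotient (cn Φ))) wellFounded_lt
    obtain ⟨Φ, hΦ, hΦ'⟩ := hwf.has_min _ hne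
    exact ⟨Φ, hΦ, fun Φ' h => not_lt.1 (hΦ' Φ' h)⟩
  obtain ⟨Φ, hΦ, hΦmin⟩ := hmin
  have hcoset : ∀ x y : G, (x : G ⧸ H) = (y : G ⧸ H) →
      Relation.EqvGen (fun a b : G => (Φ (a : G ⧸ H)).Adj a b ∨ Γ.Adj a b) x y := by
    intro x y hxy
    by_contra hcon
    obtain ⟨Φ', hΦ'1, hΦ'2, hΦ'3⟩ := rechoose hP hΓ Φ hΦ (y : G ⧸ H)
    have h1 := hΦmin Φ' hΦ'1
    haveI : Finite (Quotient (cn Φ)) := Quotient.finite _
    haveI : Finite (Quotient (cn Φ')) := Quotient.finite _
    haveI := Fintype.ofFinite (Quotient (cn Φ))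
    haveI := Fintype.ofFinite (Quotient (cn Φ'))
    rw [Nat.card_eq_fintype_card, Nat.card_eq_fintype_card] at h1
    let f : Quotient (cn Φ) → Quotient (cn Φ') :=
      Quotient.map' id (fun a b hab => hΦ'2 a b hab)
    have hsurj : Function.Surjective f := by
      intro q
      induction q using Quotient.inductionOn with
      | h a => exact ⟨Quotient.mk _ a, rfl⟩
    have hninj : ¬ Function.Injective f := by
      intro hinj
      apply hcon
      have h2 : f (Quotient.mk (cn Φ) x) = f (Quotient.mk (cn Φ) y) :=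
        Quotient.sound (s := cn Φ') (hΦ'3 x y hxy rfl)
      exact Quotient.exact (hinj h2)
    have h3 := Fintype.card_lt_of_surjective_not_injective f hsurj hninj
    omega
  have hall : ∀ x y : G,
      Relation.EqvGen (fun a b : G => (Φ (a : G ⧸ H)).Adj a b ∨ Γ.Adj a b) x y := by
    have key : ∀ q q' : G ⧸ H, Relation.EqvGen
        (fun a b : G ⧸ H => ∃ x y : G, Γ.Adj x y ∧ (x : G ⧸ H) = a ∧ (y : G ⧸ H) = b) q q' →
        ∀ x y : G, (x : G ⧸ H) = q → (y : G ⧸ H) = q' →
        Relation.EqvGen (fun a b : G => (Φ (a : G ⧸ H)).Adj a b ∨ Γ.Adj a b) x y := by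
      intro q q' h
      induction h with
      | rel a b hab =>
        intro x y hx hy
        obtain ⟨x', y', h1, h2, h3⟩ := hab
        refine Relation.EqvGen.trans _ _ _ (hcoset x x' (hx.trans h2.symm)) ?_
        refine Relation.EqvGen.trans _ _ _ (Relation.EqvGen.rel _ _ (Or.inr h1)) ?_
        exact hcoset y' y (h3.trans hy.symm)
      | refl a =>
        intro x y hx hy
        exact hcoset x y (hx.trans hy.symm)
      | symm a b _ ih =>
        intro x y hx hy
        exact Relation.EqvGen.symm _ _ (ih y x hy hx)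
      | trans a b c _ _ ih1 ih2 =>
        intro x y hx hy
        have hb : ((b.out : G) : G ⧸ H) = b := QuotientGroup.out_eq' b
        exact Relation.EqvGen.trans _ _ _ (ih1 x b.out hx hb) (ih2 b.out y hb hy)
    intro x y
    exact key _ _ (hΓ.conn x y) x y rfl rfl
  set Ω := totG H Γ Φ (fun q x y h => ⟨((hΦ q).mem x y h).1, ((hΦ q).mem x y h).2.1⟩) with hΩ
  haveI : Nonempty G := ⟨1⟩
  refine isHC_of_two_regular (Ω := Ω) ?_ ?_ ?_
  · intro x y hxy
    rw [cay_adj hA]
    refine ⟨hxy.ne, ?_⟩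
    rcases hxy with h | h
    · exact ((hΦ _).mem x y h).2.2
    · exact (hΓ.mem x y h).1
  · intro x
    have h3 : dg Γ x = if (∃ z, Γ.Adj x z) then 1 else 0 := by
      by_cases hx : ∃ z, Γ.Adj x z
      · rw [if_pos hx]
        obtain ⟨z, hz⟩ := hx
        exact dg_one z (fun y => ⟨fun h => hΓ.uniq x y z h hz, fun h => h ▸ hz⟩)
      · rw [if_neg hx]
        exact dg_zero (fun y h => hx ⟨y, h⟩)
    have h4 : dg Ω x = dg (Φ (x : G ⧸ H)) x + dg Γ x :=
      dg_add (fun y => Iff.rfl)
        (fun y hy hy' => (hΓ.mem x y hy').2 ((hΦ _).mem x y hy).2.1.symm)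
    rw [h4, h3, (hΦ (x : G ⧸ H)).deg x rfl]
    split_ifs <;> rfl
  · intro x y
    exact hall x y

/-- Assembly with a partition into cells. -/
theorem assembly_cells {A : Set G} (hA : ∀ x ∈ A, x⁻¹ ∈ A) (hgen : Subgroup.closure A = ⊤)
    {H : Subgroup G} {c : G → ℕ} (hP : LocalP A H (fun x y => c x = c y)) (κ : ℕ)
    (hκ : ∀ k, (Finset.univ.filter (fun x : G => x ∈ H ∧ c x = k)).card ≤ κ)
    (hH : 12 * κ ≤ Nat.card H) : IsHC (cay A) Set.univ ∅ := by
  refine assembly hA hgen hP (fun _ _ => rfl) (fun _ _ h => h.symm) κ 0 ?_ ?_ (by omega)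
  · intro x _
    have e : {z : G | z ∈ H ∧ c x = c z} =
        ((Finset.univ.filter (fun z : G => z ∈ H ∧ c z = c x) : Finset G) : Set G) := by
      ext z; simp [eq_comm]
    rw [e, Set.ncard_coe_finset]
    exact hκ (c x)
  · intro x _ y _ hxy
    have e : {z : G | z ∈ H ∧ c x = c z ∧ ¬ c y = c z} = ∅ := by
      ext z
      simp only [Set.mem_setOf_eq, Set.mem_empty_iff_false, iff_false]
      rintro ⟨-, h1, h2⟩
      exact h2 (hxy.symm.trans h1)
    rw [e, Set.ncard_empty]

end Pool.Agent.Lib.MP_688fd0_co
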