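import Mathlib

/-!
Connectivity of blocks through a set of edges whose ends are ports, and component counting.
-/

namespace Pool.Agent.Lib.MP_688fd0_co

set_option linter.unusedSectionVars false
set_option linter.style.haveILetI false

/-- Ported graph data: every edge has two end ports, every port belongs to a block. -/
structure PG (B E P : Type*) where
  /-- block of a port -/
  blk : P → B
  /-- first end port -/
  ps : E → P
  /-- second end port -/
  pt : E → P

namespace PG

variable {B E P : Type*} (D : PG B E P)

/-- First end block. -/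
def src (e : E) : B := D.blk (D.ps e)
/-- Second end block. -/
def tgt (e : E) : B := D.blk (D.pt e)

/-- Two blocks are connected through the edges in `F`. -/
def Conn (F : Set E) : B → B → Prop :=
  Relation.EqvGen (fun b b' => ∃ e ∈ F, D.src e = b ∧ D.tgt e = b')

variable {D} {F F' : Set E} {x y z : B}

theorem Conn.refl (F : Set E) (x : B) : D.Conn F x x := Relation.EqvGen.refl x
theorem Conn.symm (h : D.Conn F x y) : D.Conn F y x := Relation.EqvGen.symm _ _ h
theorem Conn.trans (h : D.Conn F x y) (h' : D.Conn F y z) : D.Conn F x z :=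
  Relation.EqvGen.trans _ _ _ h h'
theorem Conn.of_mem {e : E} (he : e ∈ F) : D.Conn F (D.src e) (D.tgt e) :=
  Relation.EqvGen.rel _ _ ⟨e, he, rfl, rfl⟩

theorem Conn.lift (h : ∀ e ∈ F, D.Conn F' (D.src e) (D.tgt e)) (hxy : D.Conn F x y) :
    D.Conn F' x y := by
  induction hxy with
  | rel a b hab =>
    obtain ⟨e, he, rfl, rfl⟩ := hab
    exact h e he
  | refl a => exact Conn.refl _ _
  | symm a b _ ih => exact ih.symm
  | trans a b c _ _ ih1 ih2 => exact ih1.trans ih2

theorem Conn.mono (h : F ⊆ F') (hxy : D.Conn F x y) : D.Conn F' x y :=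
  Conn.lift (fun _ he => Conn.of_mem (h he)) hxy

theorem Conn.lift_in {b : B} (h : ∀ e ∈ F, D.Conn F b (D.src e) → D.Conn F' (D.src e) (D.tgt e))
    (hxy : D.Conn F x y) (hb : D.Conn F b x) : D.Conn F' x y := by
  induction hxy with
  | rel a b' hab =>
    obtain ⟨e, he, rfl, rfl⟩ := hab
    exact h e he hb
  | refl a => exact Conn.refl _ _
  | symm a b' h' ih =>
    exact (ih (hb.trans (Conn.symm h'))).symm
  | trans a b' c h1 h2 ih1 ih2 => exact (ih1 hb).trans (ih2 (hb.trans h1))

theorem conn_insert {e : E} (h : D.Conn (insert e F) x y) :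
    D.Conn F x y ∨ (D.Conn F x (D.src e) ∧ D.Conn F (D.tgt e) y) ∨
      (D.Conn F x (D.tgt e) ∧ D.Conn F (D.src e) y) := by
  induction h with
  | rel a b hab =>
    obtain ⟨e', he', rfl, rfl⟩ := hab
    rcases he' with rfl | he'
    · exact Or.inr (Or.inl ⟨Conn.refl _ _, Conn.refl _ _⟩)
    · exact Or.inl (Conn.of_mem he')
  | refl a => exact Or.inl (Conn.refl _ _)
  | symm a b _ ih =>
    rcases ih with h | ⟨h1, h2⟩ | ⟨h1, h2⟩
    · exact Or.inl h.symm
    · exact Or.inr (Or.inr ⟨h2.symm, h1.symm⟩)
    · exact Or.inr (Or.inl ⟨h2.symm, h1.symm⟩)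
  | trans a b c _ _ ih1 ih2 =>
    rcases ih1 with h | ⟨h1, h2⟩ | ⟨h1, h2⟩ <;> rcases ih2 with h' | ⟨h1', h2'⟩ | ⟨h1', h2'⟩
    · exact Or.inl (h.trans h')
    · exact Or.inr (Or.inl ⟨h.trans h1', h2'⟩)
    · exact Or.inr (Or.inr ⟨h.trans h1', h2'⟩)
    · exact Or.inr (Or.inl ⟨h1, h2.trans h'⟩)
    · exact Or.inr (Or.inl ⟨h1, h2'⟩)
    · exact Or.inl (h1.trans h2')
    · exact Or.inr (Or.inr ⟨h1, h2.trans h'⟩)
    · exact Or.inl (h1.trans h2')
    · exact Or.inr (Or.inr ⟨h1, h2'⟩)

theorem conn_insert_of_conn {e : E} (he : D.Conn F (D.src e) (D.tgt e))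
    (h : D.Conn (insert e F) x y) : D.Conn F x y := by
  rcases conn_insert h with h | ⟨h1, h2⟩ | ⟨h1, h2⟩
  · exact h
  · exact h1.trans (he.trans h2)
  · exact h1.trans (he.symm.trans h2)

variable (D)

/-- The setoid of connectivity. -/
def setoid (F : Set E) : Setoid B where
  r := D.Conn F
  iseqv := ⟨fun x => Conn.refl F x, fun h => h.symm, fun h h' => h.trans h'⟩

/-- Number of components. -/
noncomputable def ncomp (F : Set E) : ℕ := Nat.card (Quotient (D.setoid F))

variable {D}

section fin
variable [Finite B]

instance (F : Set E) : Finite (Quotient (D.setoid F)) := Quotient.finite _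

theorem eq_of_conn_empty (h : D.Conn ∅ x y) : x = y := by
  induction h with
  | rel a b hab => obtain ⟨e, he, -⟩ := hab; exact absurd he (Set.notMem_empty _)
  | refl a => rfl
  | symm a b _ ih => exact ih.symm
  | trans a b c _ _ ih1 ih2 => exact ih1.trans ih2

theorem ncomp_empty : D.ncomp ∅ = Nat.card B := by
  unfold ncomp
  apply Nat.card_congr
  refine (Equiv.ofBijective (fun b => (Quotient.mk (D.setoid ∅) b)) ⟨?_, ?_⟩).symm
  · intro a b hab
    exact eq_of_conn_empty (Quotient.exact hab)
  · intro q
    induction q using Quotient.inductionOn with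
    | h a => exact ⟨a, rfl⟩

theorem ncomp_pos [Nonempty B] (F : Set E) : 0 < D.ncomp F := by
  unfold ncomp
  haveI : Nonempty (Quotient (D.setoid F)) := ⟨Quotient.mk _ (Classical.arbitrary B)⟩
  exact Nat.card_pos

theorem ncomp_mono (h : F ⊆ F') : D.ncomp F' ≤ D.ncomp F := by
  unfold ncomp
  let f : Quotient (D.setoid F) → Quotient (D.setoid F') :=
    Quotient.map' id (fun a b hab => Conn.mono h hab)
  apply Nat.card_le_card_of_surjective f
  intro q
  induction q using Quotient.inductionOn with
  | h a => exact ⟨Quotient.mk _ a, rfl⟩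

theorem ncomp_insert_of_conn {e : E} (he : D.Conn F (D.src e) (D.tgt e)) :
    D.ncomp (insert e F) = D.ncomp F := by
  apply le_antisymm (ncomp_mono (Set.subset_insert _ _))
  unfold ncomp
  let f : Quotient (D.setoid (insert e F)) → Quotient (D.setoid F) :=
    Quotient.map' id (fun a b hab => conn_insert_of_conn he hab)
  apply Nat.card_le_card_of_surjective f
  intro q
  induction q using Quotient.inductionOn with
  | h a => exact ⟨Quotient.mk _ a, rfl⟩

theorem ncomp_le_insert (e : E) : D.ncomp F ≤ D.ncomp (insert e F) + 1 := by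
  classical
  unfold ncomp
  haveI := Fintype.ofFinite (Quotient (D.setoid F))
  haveI := Fintype.ofFinite (Quotient (D.setoid (insert e F)))
  rw [Nat.card_eq_fintype_card, Nat.card_eq_fintype_card]
  let f : Quotient (D.setoid F) → Quotient (D.setoid (insert e F)) :=
    Quotient.map' id (fun a b hab => Conn.mono (Set.subset_insert _ _) hab)
  let q₀ : Quotient (D.setoid F) := Quotient.mk _ (D.src e)
  have hinj : Set.InjOn f ((Finset.univ.erase q₀ : Finset (Quotient (D.setoid F))) : Set _) := by
    intro a ha b hb hab
    induction a using Quotient.inductionOn with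
    | h a =>
      induction b using Quotient.inductionOn with
      | h b =>
        have h1 : D.Conn (insert e F) a b := Quotient.exact hab
        have ha' : ¬ D.Conn F a (D.src e) := by
          intro h
          simp only [Finset.coe_erase, Finset.coe_univ, Set.mem_sdiff, Set.mem_singleton_iff] at ha
          exact ha.2 (Quotient.sound h)
        have hb' : ¬ D.Conn F b (D.src e) := by
          intro h
          simp only [Finset.coe_erase, Finset.coe_univ, Set.mem_sdiff, Set.mem_singleton_iff] at hb
          exact hb.2 (Quotient.sound h)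
        rcases conn_insert h1 with h | ⟨h1, h2⟩ | ⟨h1, h2⟩
        · exact Quotient.sound h
        · exact absurd h1 ha'
        · exact absurd h2.symm hb'
  have hcard := Finset.card_le_card_of_injOn f (fun a _ => Finset.mem_univ (f a)) hinj
  rw [Finset.card_erase_of_mem (Finset.mem_univ _), Finset.card_univ, Finset.card_univ] at hcard
  omega

theorem ncomp_insert_of_not_conn {e : E} (he : ¬ D.Conn F (D.src e) (D.tgt e)) :
    D.ncomp (insert e F) + 1 ≤ D.ncomp F := by
  classical
  unfold ncomp
  haveI := Fintype.ofFinite (Quotient (D.setoid F))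
  haveI := Fintype.ofFinite (Quotient (D.setoid (insert e F)))
  rw [Nat.card_eq_fintype_card, Nat.card_eq_fintype_card]
  let f : Quotient (D.setoid F) → Quotient (D.setoid (insert e F)) :=
    Quotient.map' id (fun a b hab => Conn.mono (Set.subset_insert _ _) hab)
  have hsurj : Function.Surjective f := by
    intro q
    induction q using Quotient.inductionOn with
    | h a => exact ⟨Quotient.mk _ a, rfl⟩
  have hninj : ¬ Function.Injective f := by
    intro hinj
    apply he
    have : f (Quotient.mk _ (D.src e)) = f (Quotient.mk _ (D.tgt e)) :=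
      Quotient.sound (Conn.of_mem (Set.mem_insert _ _))
    exact Quotient.exact (hinj this)
  have := Fintype.card_lt_of_surjective_not_injective f hsurj hninj
  omega

end fin

section finset
variable [Finite B]
open Classical

theorem ncomp_le_union (F F' : Finset E) : D.ncomp (F : Set E) ≤ D.ncomp ((F ∪ F' : Finset E) : Set E) + F'.card := by
  induction F' using Finset.induction_on with
  | empty => simp
  | insert e F' he ih =>
    rw [Finset.card_insert_of_notMem he]
    have h := ncomp_le_insert (D := D) (F := ((F ∪ F' : Finset E) : Set E)) e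
    have e1 : (insert e ((F ∪ F' : Finset E) : Set E)) = ((F ∪ insert e F' : Finset E) : Set E) := by
      rw [Finset.union_insert, Finset.coe_insert]
    rw [e1] at h
    omega

/-- A spanning tree, as an edge set: connected, with at most `|B| - 1` edges. -/
def IsST (D : PG B E P) (T : Finset E) : Prop :=
  (∀ x y, D.Conn (T : Set E) x y) ∧ T.card + 1 ≤ Nat.card B

theorem IsST.ncomp [Nonempty B] {T : Finset E} (h : IsST D T) : D.ncomp (T : Set E) = 1 := by
  unfold PG.ncomp
  rw [Nat.card_eq_one_iff_unique]
  refine ⟨⟨?_⟩, ⟨Quotient.mk _ (Classical.arbitrary B)⟩⟩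
  intro a b
  induction a using Quotient.inductionOn with
  | h a =>
    induction b using Quotient.inductionOn with
    | h b => exact Quotient.sound (h.1 a b)

theorem IsST.forest [Nonempty B] {T F : Finset E} (h : IsST D T) (hF : F ⊆ T) :
    D.ncomp (F : Set E) + F.card = Nat.card B := by
  have h1 := ncomp_le_union (D := D) F (T \ F)
  rw [Finset.union_sdiff_of_subset hF, h.ncomp, Finset.card_sdiff_of_subset hF] at h1
  have h2 := ncomp_le_union (D := D) (∅ : Finset E) F
  rw [Finset.empty_union, Finset.coe_empty, ncomp_empty] at h2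
  have h3 := h.2
  have h4 := Finset.card_le_card hF
  omega

theorem IsST.not_conn_erase [Nonempty B] {T : Finset E} (h : IsST D T) {e : E} (he : e ∈ T) :
    ¬ D.Conn ((T.erase e : Finset E) : Set E) (D.src e) (D.tgt e) := by
  intro hc
  have h1 := ncomp_insert_of_conn hc
  rw [← Finset.coe_insert, Finset.insert_erase he, h.ncomp] at h1
  have h2 := h.forest (Finset.erase_subset e T)
  have h3 := h.forest (Finset.Subset.refl T)
  rw [Finset.card_erase_of_mem he] at h2
  have h4 : 0 < T.card := Finset.card_pos.2 ⟨e, he⟩
  rw [h.ncomp] at h3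
  omega

theorem exists_forest (F : Finset E) : ∃ T ⊆ F, (∀ x y, D.Conn (F : Set E) x y → D.Conn (T : Set E) x y) ∧
    T.card + D.ncomp (T : Set E) ≤ Nat.card B := by
  induction F using Finset.induction_on with
  | empty => exact ⟨∅, by simp, by simp, by simp [ncomp_empty]⟩
  | insert e F he ih =>
    obtain ⟨T, hT, hc, hcard⟩ := ih
    by_cases hce : D.Conn (T : Set E) (D.src e) (D.tgt e)
    · refine ⟨T, hT.trans (Finset.subset_insert _ _), ?_, hcard⟩
      intro x y hxy
      refine Conn.lift ?_ hxy
      intro e' he'
      rw [Finset.coe_insert, Set.mem_insert_iff] at he'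
      rcases he' with rfl | he'
      · exact hce
      · exact hc _ _ (Conn.of_mem he')
    · have heT : e ∉ T := fun h => he (hT h)
      refine ⟨insert e T, Finset.insert_subset_insert _ hT, ?_, ?_⟩
      · intro x y hxy
        refine Conn.lift ?_ hxy
        intro e' he'
        rw [Finset.coe_insert, Set.mem_insert_iff] at he'
        rw [Finset.coe_insert]
        rcases he' with rfl | he'
        · exact Conn.of_mem (Set.mem_insert _ _)
        · exact Conn.mono (Set.subset_insert _ _) (hc _ _ (Conn.of_mem he'))
      · rw [Finset.card_insert_of_notMem heT, Finset.coe_insert]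
        have := ncomp_insert_of_not_conn hce
        omega

theorem exists_isST [Nonempty B] [Fintype E] (h : ∀ x y, D.Conn (Set.univ : Set E) x y) :
    ∃ T : Finset E, IsST D T := by
  obtain ⟨T, -, hc, hcard⟩ := exists_forest (D := D) (Finset.univ : Finset E)
  refine ⟨T, fun x y => hc x y (by simpa using h x y), ?_⟩
  have := ncomp_pos (D := D) (T : Set E)
  omega

end finset

end PG

end Pool.Agent.Lib.MP_688fd0_co
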