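import Mathlib

/-!
Edge cuts for coset graphs with respect to irredundant generating sets.
-/

namespace Pool.Agent.Lib.MP_688fd0_co

set_option linter.unusedSectionVars false

open Classical

variable {G : Type*} [Group G] [Fintype G]

/-- Number of pairs `(x, s)`, `x ∈ C`, `s ∈ S`, such that `x * s ∉ C`. -/
noncomputable def eout (S C : Finset G) : ℕ := ∑ s ∈ S, (C.filter (fun x => x * s ∉ C)).card

theorem card_filter_mul_mem (C : Finset G) (s : G) :
    (Finset.univ.filter (fun x => x * s ∈ C)).card = C.card := by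
  apply Finset.card_bij (fun x _ => x * s)
  · intro a ha; exact (Finset.mem_filter.1 ha).2
  · intro a _ b _ hab; exact mul_right_cancel hab
  · intro b hb
    refine ⟨b * s⁻¹, Finset.mem_filter.2 ⟨Finset.mem_univ _, ?_⟩, ?_⟩ <;> simp [hb]

theorem eout_compl (S C : Finset G) : eout S Cᶜ = eout S C := by
  unfold eout
  apply Finset.sum_congr rfl
  intro s _
  have h1 := card_filter_mul_mem C s
  have h2 := Finset.card_filter_add_card_filter_not
    (s := Finset.univ.filter (fun x => x * s ∈ C)) (fun x => x ∈ C)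
  have h3 := Finset.card_filter_add_card_filter_not (s := C) (fun x => x * s ∈ C)
  have e1 : (Finset.univ.filter (fun x => x * s ∈ C)).filter (fun x => x ∈ C) =
      C.filter (fun x => x * s ∈ C) := by
    ext x; simp only [Finset.mem_filter, Finset.mem_univ, true_and]; exact and_comm
  have e2 : (Finset.univ.filter (fun x => x * s ∈ C)).filter (fun x => ¬ x ∈ C) =
      Cᶜ.filter (fun x => x * s ∉ Cᶜ) := by
    ext x; simp only [Finset.mem_filter, Finset.mem_univ, true_and, Finset.mem_compl, not_not]
    exact and_comm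
  rw [e1, e2] at h2
  omega

theorem eout_submod (S C D : Finset G) : eout S (C ∩ D) + eout S (C ∪ D) ≤ eout S C + eout S D := by
  unfold eout
  rw [← Finset.sum_add_distrib, ← Finset.sum_add_distrib]
  apply Finset.sum_le_sum
  intro s _
  have key : ∀ X : Finset G, (X.filter (fun x => x * s ∉ X)).card =
      ∑ x : G, if (x ∈ X ∧ x * s ∉ X) then 1 else 0 := by
    intro X
    rw [Finset.card_eq_sum_ones, ← Finset.sum_filter]
    apply Finset.sum_congr _ (fun _ _ => rfl)
    ext x; simp
  rw [key, key, key, key, ← Finset.sum_add_distrib, ← Finset.sum_add_distrib]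
  apply Finset.sum_le_sum
  intro x _
  by_cases h1 : x ∈ C <;> by_cases h2 : x ∈ D <;> by_cases h3 : x * s ∈ C <;>
    by_cases h4 : x * s ∈ D <;> simp [h1, h2, h3, h4]

theorem eout_smul (S C : Finset G) (g : G) :
    eout S (C.image (fun x => g * x)) = eout S C := by
  unfold eout
  apply Finset.sum_congr rfl
  intro s _
  symm
  apply Finset.card_bij (fun x _ => g * x)
  · intro a ha
    rw [Finset.mem_filter] at ha ⊢
    refine ⟨Finset.mem_image_of_mem _ ha.1, ?_⟩
    intro h
    obtain ⟨y, hy, hy'⟩ := Finset.mem_image.1 h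
    apply ha.2
    have : y = a * s := by
      rw [mul_assoc] at hy'
      exact mul_left_cancel hy'
    rwa [← this]
  · intro a _ b _ hab; exact mul_left_cancel hab
  · intro b hb
    rw [Finset.mem_filter] at hb
    obtain ⟨y, hy, rfl⟩ := Finset.mem_image.1 hb.1
    refine ⟨y, Finset.mem_filter.2 ⟨hy, ?_⟩, rfl⟩
    intro h
    apply hb.2
    rw [mul_assoc]
    exact Finset.mem_image_of_mem _ h

/-- `S` is irredundant over `H`. -/
def Irred (H : Subgroup G) (S : Finset G) : Prop :=
  ∀ s ∈ S, s ∉ Subgroup.closure ((H : Set G) ∪ ((S.erase s : Finset G) : Set G))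

theorem two_mul_card_le {K K' : Subgroup G} (h : K < K') :
    2 * Nat.card K ≤ Nat.card K' := by
  have h1 := Subgroup.card_dvd_of_le h.le
  obtain ⟨c, hc⟩ := h1
  have hpos : 0 < Nat.card K' := Nat.card_pos
  have hpos' : 0 < Nat.card K := Nat.card_pos
  have hc0 : c ≠ 0 := by rintro rfl; simp at hc
  have hc1 : c ≠ 1 := by
    rintro rfl
    rw [mul_one] at hc
    exact h.ne (Subgroup.eq_of_le_of_card_ge h.le hc.le)
  rw [hc]
  have : 2 ≤ c := by omega
  calc 2 * Nat.card K = Nat.card K * 2 := by ring
    _ ≤ Nat.card K * c := Nat.mul_le_mul_left _ this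

theorem card_closure_ge {H : Subgroup G} {S : Finset G} (hS : Irred H S) (J : Finset G)
    (hJ : J ⊆ S) : Nat.card H * 2 ^ J.card ≤ Nat.card (Subgroup.closure ((H : Set G) ∪ (J : Set G))) := by
  induction J using Finset.induction_on with
  | empty =>
    simp
  | insert s J hs ih =>
    have hJS : J ⊆ S := (Finset.subset_insert _ _).trans hJ
    have hsS : s ∈ S := hJ (Finset.mem_insert_self _ _)
    have ih' := ih hJS
    have hlt : Subgroup.closure ((H : Set G) ∪ (J : Set G)) <
        Subgroup.closure ((H : Set G) ∪ ((insert s J : Finset G) : Set G)) := by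
      rw [lt_iff_le_and_ne]
      constructor
      · apply Subgroup.closure_mono
        apply Set.union_subset_union_right
        rw [Finset.coe_insert]; exact Set.subset_insert _ _
      · intro heq
        apply hS s hsS
        have h1 : s ∈ Subgroup.closure ((H : Set G) ∪ (J : Set G)) := by
          rw [heq]
          apply Subgroup.subset_closure
          right; simp
        refine Subgroup.closure_mono ?_ h1
        apply Set.union_subset_union_right
        intro x hx
        rw [Finset.mem_coe] at hx ⊢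
        exact Finset.mem_erase.2 ⟨by rintro rfl; exact hs hx, hJS hx⟩
    have h2 := two_mul_card_le hlt
    rw [Finset.card_insert_of_notMem hs, pow_succ]
    calc Nat.card H * (2 ^ J.card * 2) = 2 * (Nat.card H * 2 ^ J.card) := by ring
      _ ≤ 2 * _ := Nat.mul_le_mul_left _ ih'
      _ ≤ _ := h2

theorem arith_aux (j d : ℕ) (h : j < d) : d ≤ 2 ^ j * (d - j) := by
  obtain ⟨k, rfl⟩ : ∃ k, d = j + 1 + k := ⟨d - j - 1, by omega⟩
  have h1 : j + 1 + k - j = 1 + k := by omega
  rw [h1]
  have h2 : j + 1 ≤ 2 ^ j := Nat.lt_two_pow_self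
  nlinarith [Nat.zero_le (j * k)]

/-- The cut lemma. -/
theorem cut {H : Subgroup G} {S : Finset G} (hS : Irred H S)
    (hgen : Subgroup.closure ((H : Set G) ∪ (S : Set G)) = ⊤) (C : Finset G) (hne : C.Nonempty)
    (hnu : C ≠ Finset.univ) (hH : ∀ x ∈ C, ∀ h ∈ H, x * h ∈ C) :
    Nat.card H * S.card ≤ eout S C := by
  set good : Finset G → Prop := fun C => C.Nonempty ∧ C ≠ Finset.univ ∧ ∀ x ∈ C, ∀ h ∈ H, x * h ∈ C
    with hgood
  set w : Finset G → ℕ := fun C => eout S C * (Fintype.card G + 1) + C.card with hw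
  obtain ⟨C₀, hC₀, hmin₀⟩ : ∃ C₀, good C₀ ∧ ∀ C', good C' → w C₀ ≤ w C' := by
    obtain ⟨X, hX, hX'⟩ := (Finset.univ.filter good).exists_min_image w
      ⟨C, Finset.mem_filter.2 ⟨Finset.mem_univ _, hne, hnu, hH⟩⟩
    refine ⟨X, (Finset.mem_filter.1 hX).2, fun X' h' => hX' X' ?_⟩
    exact Finset.mem_filter.2 ⟨Finset.mem_univ _, h'⟩
  -- translate so that 1 ∈ C₁
  obtain ⟨x₀, hx₀⟩ := hC₀.1
  have himg : ∀ (g : G) (D : Finset G), good D → good (D.image (fun x => g * x)) := by
    rintro g D ⟨h1, h2, h3⟩
    refine ⟨h1.image _, ?_, ?_⟩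
    · intro h
      apply h2
      rw [Finset.eq_univ_iff_forall]
      intro x
      have : g * x ∈ D.image (fun x => g * x) := by rw [h]; exact Finset.mem_univ _
      obtain ⟨y, hy, hy'⟩ := Finset.mem_image.1 this
      rwa [← mul_left_cancel hy']
    · intro x hx h hh
      obtain ⟨y, hy, rfl⟩ := Finset.mem_image.1 hx
      rw [mul_assoc]
      exact Finset.mem_image_of_mem _ (h3 y hy h hh)
  have hcardimg : ∀ (g : G) (D : Finset G), (D.image (fun x => g * x)).card = D.card := fun g D =>
    Finset.card_image_of_injective _ (mul_right_injective g)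
  set C₁ := C₀.image (fun x => x₀⁻¹ * x) with hC₁
  have hgood₁ : good C₁ := himg _ _ hC₀
  have h1mem : (1 : G) ∈ C₁ := Finset.mem_image.2 ⟨x₀, hx₀, by simp⟩
  have hf₁ : eout S C₁ = eout S C₀ := eout_smul _ _ _
  have hc₁ : C₁.card = C₀.card := hcardimg _ _
  have hmin : ∀ C', good C' → w C₁ ≤ w C' := by
    intro C' hC'
    have : w C₁ = w C₀ := by simp only [hw, hf₁, hc₁]
    rw [this]; exact hmin₀ C' hC'
  have hle : ∀ C' : Finset G, C'.card ≤ Fintype.card G := fun C' => Finset.card_le_univ C'
  have hminf : ∀ C', good C' → eout S C₁ ≤ eout S C' := by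
    intro C' hC'
    have h := hmin C' hC'
    simp only [hw] at h
    by_contra hcon
    push Not at hcon
    have h1 := hle C'
    have h2 : (eout S C' + 1) * (Fintype.card G + 1) ≤ eout S C₁ * (Fintype.card G + 1) :=
      Nat.mul_le_mul_right _ hcon
    have h3 : (eout S C' + 1) * (Fintype.card G + 1) =
      eout S C' * (Fintype.card G + 1) + (Fintype.card G + 1) := by ring
    omega
  have hminc : ∀ C', good C' → eout S C' ≤ eout S C₁ → C₁.card ≤ C'.card := by
    intro C' hC' hle'
    have h := hmin C' hC'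
    simp only [hw] at h
    have heq : eout S C' = eout S C₁ := le_antisymm hle' (hminf C' hC')
    rw [heq] at h
    omega
  -- size at most half
  have hcompl : good C₁ᶜ := by
    obtain ⟨h1, h2, h3⟩ := hgood₁
    refine ⟨?_, ?_, ?_⟩
    · rw [Finset.nonempty_iff_ne_empty]
      intro h
      exact h2 ((Finset.compl_eq_empty_iff C₁).1 h)
    · intro h
      obtain ⟨x, hx⟩ := h1
      rw [Finset.eq_univ_iff_forall] at h
      exact (Finset.mem_compl.1 (h x)) hx
    · intro x hx h hh
      rw [Finset.mem_compl] at hx ⊢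
      intro h'
      apply hx
      have := h3 _ h' h⁻¹ (H.inv_mem hh)
      simpa using this
  have hhalf : 2 * C₁.card ≤ Fintype.card G := by
    have h1 := hminc _ hcompl (by rw [eout_compl])
    rw [Finset.card_compl] at h1
    have := hle C₁
    omega
  have hclosed : ∀ g ∈ C₁, C₁.image (fun x => g * x) = C₁ := by
    intro g hg
    set D := C₁.image (fun x => g * x) with hD
    have hgoodD : good D := himg _ _ hgood₁
    have hDcard : D.card = C₁.card := hcardimg _ _
    have hDf : eout S D = eout S C₁ := eout_smul _ _ _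
    have hgD : g ∈ D := Finset.mem_image.2 ⟨1, h1mem, by simp⟩
    have hint : (C₁ ∩ D).Nonempty := ⟨g, Finset.mem_inter.2 ⟨hg, hgD⟩⟩
    have hcu := Finset.card_union_add_card_inter C₁ D
    have hipos : 0 < (C₁ ∩ D).card := Finset.card_pos.2 hint
    have hunu : C₁ ∪ D ≠ Finset.univ := by
      intro h
      have : (C₁ ∪ D).card = Fintype.card G := by rw [h]; rfl
      omega
    have hinu : C₁ ∩ D ≠ Finset.univ := by
      intro h
      apply hgood₁.2.1
      rw [Finset.eq_univ_iff_forall] at h ⊢
      exact fun x => (Finset.mem_inter.1 (h x)).1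
    have hgi : good (C₁ ∩ D) := ⟨hint, hinu, fun x hx h hh => by
      rw [Finset.mem_inter] at hx ⊢
      exact ⟨hgood₁.2.2 x hx.1 h hh, hgoodD.2.2 x hx.2 h hh⟩⟩
    have hgu : good (C₁ ∪ D) := ⟨hint.mono (Finset.inter_subset_union), hunu, fun x hx h hh => by
      rw [Finset.mem_union] at hx ⊢
      exact hx.imp (fun hx => hgood₁.2.2 x hx h hh) (fun hx => hgoodD.2.2 x hx h hh)⟩
    have hsub := eout_submod S C₁ D
    have h1 := hminf _ hgu
    have h2 := hminc _ hgi (by omega)
    have h3 : C₁ ∩ D = C₁ := Finset.eq_of_subset_of_card_le Finset.inter_subset_left h2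
    have h4 : C₁ ⊆ D := by rw [← h3]; exact Finset.inter_subset_right
    exact (Finset.eq_of_subset_of_card_le h4 hDcard.le).symm
  let L : Subgroup G :=
    { carrier := (C₁ : Set G)
      mul_mem' := by
        intro a b ha hb
        rw [Finset.mem_coe] at ha hb ⊢
        rw [← hclosed a ha]
        exact Finset.mem_image_of_mem _ hb
      one_mem' := Finset.mem_coe.2 h1mem
      inv_mem' := by
        intro a ha
        rw [Finset.mem_coe] at ha
        have : (1 : G) ∈ C₁.image (fun x => a * x) := by rw [hclosed a ha]; exact h1mem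
        obtain ⟨y, hy, hy'⟩ := Finset.mem_image.1 this
        show a⁻¹ ∈ (C₁ : Set G)
        rw [Finset.mem_coe]
        have : y = a⁻¹ := (inv_eq_of_mul_eq_one_right hy').symm
        rwa [← this] }
  have hmemL : ∀ x, x ∈ L ↔ x ∈ C₁ := fun x => Iff.rfl
  have hHL : H ≤ L := by
    intro h hh
    have := hgood₁.2.2 1 h1mem h hh
    rw [one_mul] at this
    exact this
  have hLcard : Nat.card L = C₁.card := by
    have : Nat.card L = Nat.card (C₁ : Set G) := rfl
    rw [this]; simp
  set J := S.filter (fun s => s ∈ L) with hJ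
  have hJcard : J.card < S.card := by
    apply Finset.card_lt_card
    refine Finset.ssubset_iff_subset_ne.2 ⟨Finset.filter_subset _ _, ?_⟩
    intro heq
    apply hgood₁.2.1
    rw [Finset.eq_univ_iff_forall]
    have htop : L = ⊤ := by
      rw [eq_top_iff, ← hgen, Subgroup.closure_le]
      apply Set.union_subset hHL
      intro s hs
      rw [Finset.mem_coe, ← heq] at hs
      exact (Finset.mem_filter.1 hs).2
    intro x
    rw [← hmemL, htop]; exact Subgroup.mem_top x
  have hclL : Subgroup.closure ((H : Set G) ∪ (J : Set G)) ≤ L := by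
    rw [Subgroup.closure_le]
    apply Set.union_subset hHL
    intro s hs
    rw [Finset.mem_coe] at hs
    exact (Finset.mem_filter.1 hs).2
  have hcardL : Nat.card H * 2 ^ J.card ≤ Nat.card L :=
    (card_closure_ge hS J (Finset.filter_subset _ _)).trans (Subgroup.card_le_of_le hclL)
  have hval : eout S C₁ = (S.card - J.card) * C₁.card := by
    unfold eout
    rw [← Finset.sum_filter_add_sum_filter_not S (fun s => s ∈ L)]
    have h1 : ∑ s ∈ S.filter (fun s => s ∈ L), (C₁.filter (fun x => x * s ∉ C₁)).card = 0 := by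
      apply Finset.sum_eq_zero
      intro s hs
      rw [Finset.card_eq_zero, Finset.filter_eq_empty_iff]
      intro x hx
      rw [not_not]
      exact L.mul_mem hx (Finset.mem_filter.1 hs).2
    have h2 : ∑ s ∈ S.filter (fun s => ¬ s ∈ L), (C₁.filter (fun x => x * s ∉ C₁)).card =
        ∑ s ∈ S.filter (fun s => ¬ s ∈ L), C₁.card := by
      apply Finset.sum_congr rfl
      intro s hs
      rw [Finset.filter_true_of_mem]
      intro x hx h
      exact (Finset.mem_filter.1 hs).2 ((L.mul_mem_cancel_left hx).1 h)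
    rw [h1, h2, zero_add, Finset.sum_const, smul_eq_mul]
    have h3 : J.card + (S.filter (fun s => ¬ s ∈ L)).card = S.card :=
      Finset.card_filter_add_card_filter_not (s := S) (fun s => s ∈ L)
    congr 1
    omega
  have hfin : Nat.card H * S.card ≤ eout S C₁ := by
    rw [hval]
    have h1 := arith_aux J.card S.card hJcard
    calc Nat.card H * S.card ≤ Nat.card H * (2 ^ J.card * (S.card - J.card)) :=
          Nat.mul_le_mul_left _ h1
      _ = (S.card - J.card) * (Nat.card H * 2 ^ J.card) := by ring
      _ ≤ (S.card - J.card) * C₁.card := by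
          apply Nat.mul_le_mul_left
          rw [← hLcard]; exact hcardL
  exact hfin.trans (hminf C ⟨hne, hnu, hH⟩)

end Pool.Agent.Lib.MP_688fd0_co
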