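import Mathlib

/-!
Cyclic lists and Hamiltonian cycles carrying a set of prescribed edges.
-/

namespace Pool.Agent.Lib.MP_688fd0_co

variable {V : Type*}

/-- The set of (unordered) edges of a list seen as a path. -/
def pe : List V → Set (Sym2 V)
  | [] => ∅
  | [_] => ∅
  | a :: b :: t => insert s(a, b) (pe (b :: t))

@[simp] theorem pe_nil : pe ([] : List V) = ∅ := rfl
@[simp] theorem pe_single (a : V) : pe [a] = ∅ := rfl
@[simp] theorem pe_cons_cons (a b : V) (t : List V) :
    pe (a :: b :: t) = insert s(a, b) (pe (b :: t)) := rfl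

theorem pe_append (xs : List V) (a : V) (ys : List V) :
    pe (xs ++ a :: ys) = pe (xs ++ [a]) ∪ pe (a :: ys) := by
  induction xs with
  | nil => simp
  | cons x xs ih =>
    cases xs with
    | nil => simp
    | cons y ys' =>
      simp only [List.cons_append, pe_cons_cons] at ih ⊢
      rw [ih, Set.insert_union]

theorem pe_reverse (l : List V) : pe l.reverse = pe l := by
  induction l with
  | nil => simp
  | cons a t ih =>
    cases t with
    | nil => simp
    | cons b t' =>
      have h1 : (a :: b :: t').reverse = t'.reverse ++ b :: [a] := by simp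
      have h2 : (b :: t').reverse = t'.reverse ++ [b] := by simp
      rw [h1, pe_append, ← h2, ih]
      simp only [pe_cons_cons, pe_single]
      rw [Sym2.eq_swap]
      ext e
      simp

/-- Edges of a list seen as a cyclic sequence. -/
def ce : List V → Set (Sym2 V)
  | [] => ∅
  | a :: t => pe (a :: t ++ [a])

@[simp] theorem ce_nil : ce ([] : List V) = ∅ := rfl
theorem ce_cons (a : V) (t : List V) : ce (a :: t) = pe (a :: t ++ [a]) := rfl

theorem ce_rotate (xs ys : List V) : ce (xs ++ ys) = ce (ys ++ xs) := by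
  cases xs with
  | nil => simp
  | cons a xs' =>
    cases ys with
    | nil => simp
    | cons b ys' =>
      rw [List.cons_append, List.cons_append, ce_cons, ce_cons]
      have h1 : a :: (xs' ++ b :: ys') ++ [a] = (a :: xs') ++ b :: (ys' ++ [a]) := by simp
      have h2 : b :: (ys' ++ a :: xs') ++ [b] = (b :: ys') ++ a :: (xs' ++ [b]) := by simp
      rw [h1, h2, pe_append, pe_append (b :: ys')]
      rw [Set.union_comm]
      simp

theorem ce_reverse (l : List V) : ce l.reverse = ce l := by
  cases l with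
  | nil => simp
  | cons a t =>
    have h1 : (a :: t).reverse = t.reverse ++ [a] := by simp
    rw [h1, ce_rotate, List.singleton_append, ce_cons, ce_cons]
    have h2 : a :: t.reverse ++ [a] = (a :: t ++ [a]).reverse := by simp
    rw [h2, pe_reverse]

theorem mem_pe_split {l : List V} {p q : V} (h : s(p, q) ∈ pe l) :
    ∃ xs ys, l = xs ++ p :: q :: ys ∨ l = xs ++ q :: p :: ys := by
  induction l with
  | nil => simp at h
  | cons a t ih =>
    cases t with
    | nil => simp at h
    | cons b t' =>
      rw [pe_cons_cons, Set.mem_insert_iff] at h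
      rcases h with h | h
      · rw [Sym2.eq_iff] at h
        rcases h with ⟨rfl, rfl⟩ | ⟨rfl, rfl⟩
        · exact ⟨[], t', Or.inl rfl⟩
        · exact ⟨[], t', Or.inr rfl⟩
      · obtain ⟨xs, ys, h | h⟩ := ih h
        · exact ⟨a :: xs, ys, Or.inl (by rw [h]; rfl)⟩
        · exact ⟨a :: xs, ys, Or.inr (by rw [h]; rfl)⟩

/-- An edge of a cyclic list can be made the closing edge. -/
theorem exists_open {l : List V} {p q : V} (hpq : p ≠ q) (h : s(p, q) ∈ ce l) :
    ∃ mid : List V, (p :: (mid ++ [q])).Perm l ∧ ce (p :: (mid ++ [q])) = ce l := by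
  cases l with
  | nil => simp at h
  | cons a t =>
    rw [ce_cons] at h
    obtain ⟨xs, ys, h | h⟩ := mem_pe_split h
    · -- a :: t ++ [a] = xs ++ p :: q :: ys
      rcases List.eq_nil_or_concat' ys with rfl | ⟨ys', c, rfl⟩
      · -- then q = a and a :: t = xs ++ [p]
        have h' : (a :: t) ++ [a] = (xs ++ [p]) ++ [q] := by simpa using h
        obtain ⟨h1, h2⟩ := List.append_inj' h' rfl
        simp only [List.cons.injEq, and_true] at h2
        subst h2
        cases xs with
        | nil =>
          simp at h1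
          exact absurd h1.1.symm hpq
        | cons x xs' =>
          simp only [List.cons_append, List.cons.injEq] at h1
          obtain ⟨rfl, rfl⟩ := h1
          refine ⟨xs'.reverse, ?_, ?_⟩
          · have : p :: (xs'.reverse ++ [a]) = (a :: (xs' ++ [p])).reverse := by simp
            rw [this]; exact List.reverse_perm _
          · have : p :: (xs'.reverse ++ [a]) = (a :: (xs' ++ [p])).reverse := by simp
            rw [this, ce_reverse]
      · have h' : (a :: t) ++ [a] = (xs ++ p :: q :: ys') ++ [c] := by simpa using h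
        obtain ⟨h1, h2⟩ := List.append_inj' h' rfl
        rw [h1]
        refine ⟨xs.reverse ++ ys'.reverse, ?_, ?_⟩
        · have e1 : p :: (xs.reverse ++ ys'.reverse ++ [q]) = ((q :: ys') ++ (xs ++ [p])).reverse := by
            simp
          rw [e1]
          refine (List.reverse_perm _).trans ?_
          have e2 : xs ++ p :: q :: ys' = (xs ++ [p]) ++ (q :: ys') := by simp
          rw [e2]
          exact List.perm_append_comm
        · have e1 : p :: (xs.reverse ++ ys'.reverse ++ [q]) = ((q :: ys') ++ (xs ++ [p])).reverse := by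
            simp
          have e2 : xs ++ p :: q :: ys' = (xs ++ [p]) ++ (q :: ys') := by simp
          rw [e1, e2, ce_reverse, ce_rotate]
    · rcases List.eq_nil_or_concat' ys with rfl | ⟨ys', c, rfl⟩
      · have h' : (a :: t) ++ [a] = (xs ++ [q]) ++ [p] := by simpa using h
        obtain ⟨h1, h2⟩ := List.append_inj' h' rfl
        simp only [List.cons.injEq, and_true] at h2
        subst h2
        cases xs with
        | nil =>
          simp at h1
          exact absurd h1.1 hpq
        | cons x xs' =>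
          simp only [List.cons_append, List.cons.injEq] at h1
          obtain ⟨rfl, rfl⟩ := h1
          exact ⟨xs', List.Perm.refl _, rfl⟩
      · have h' : (a :: t) ++ [a] = (xs ++ q :: p :: ys') ++ [c] := by simpa using h
        obtain ⟨h1, h2⟩ := List.append_inj' h' rfl
        rw [h1]
        have e2 : xs ++ q :: p :: ys' = (xs ++ [q]) ++ (p :: ys') := by simp
        refine ⟨ys' ++ xs, ?_, ?_⟩
        · rw [e2]
          have e1 : p :: (ys' ++ xs ++ [q]) = (p :: ys') ++ (xs ++ [q]) := by simp
          rw [e1]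
          exact List.perm_append_comm
        · have e1 : p :: (ys' ++ xs ++ [q]) = (p :: ys') ++ (xs ++ [q]) := by simp
          rw [e1, e2, ce_rotate]

/-- `IsHC Γ S E`: there is a cyclic sequence visiting exactly the vertices of `S`, once each, along
edges of `Γ`, and using all the edges in `E`. -/
def IsHC (Γ : SimpleGraph V) (S : Set V) (E : Set (Sym2 V)) : Prop :=
  ∃ l : List V, l.Nodup ∧ (∀ v, v ∈ l ↔ v ∈ S) ∧ ce l ⊆ Γ.edgeSet ∧ E ⊆ ce l

theorem IsHC.mono {Γ : SimpleGraph V} {S : Set V} {E E' : Set (Sym2 V)} (h : IsHC Γ S E)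
    (hE : E' ⊆ E) : IsHC Γ S E' := by
  obtain ⟨l, h1, h2, h3, h4⟩ := h
  exact ⟨l, h1, h2, h3, hE.trans h4⟩

theorem IsHC.congr_set {Γ : SimpleGraph V} {S S' : Set V} {E : Set (Sym2 V)} (h : IsHC Γ S E)
    (hS : S = S') : IsHC Γ S' E := hS ▸ h

theorem IsHC.merge {Γ : SimpleGraph V} {S₁ S₂ : Set V} {E₁ E₂ : Set (Sym2 V)}
    (h₁ : IsHC Γ S₁ E₁) (h₂ : IsHC Γ S₂ E₂) (hd : Disjoint S₁ S₂) {p q p' q' : V}
    (he₁ : s(p, q) ∈ E₁) (he₂ : s(p', q') ∈ E₂) (hp : Γ.Adj p p') (hq : Γ.Adj q q') :
    IsHC Γ (S₁ ∪ S₂) ((E₁ \ {s(p, q)}) ∪ (E₂ \ {s(p', q')}) ∪ {s(p, p'), s(q, q')}) := by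
  obtain ⟨l₁, hn₁, hv₁, hc₁, hE₁⟩ := h₁
  obtain ⟨l₂, hn₂, hv₂, hc₂, hE₂⟩ := h₂
  have hpq : p ≠ q := by
    have := hc₁ (hE₁ he₁)
    rw [SimpleGraph.mem_edgeSet] at this
    exact this.ne
  have hpq' : p' ≠ q' := by
    have := hc₂ (hE₂ he₂)
    rw [SimpleGraph.mem_edgeSet] at this
    exact this.ne
  obtain ⟨m₁, pm₁, cm₁⟩ := exists_open hpq (hE₁ he₁)
  obtain ⟨m₂, pm₂, cm₂⟩ := exists_open hpq' (hE₂ he₂)
  set L₁ := p :: (m₁ ++ [q]) with hL₁
  set L₂ := p' :: (m₂ ++ [q']) with hL₂
  have hrev : L₂.reverse = q' :: (m₂.reverse ++ [p']) := by simp [hL₂]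
  have hce₁ : ce L₁ = pe L₁ ∪ {s(q, p)} := by
    rw [hL₁, ce_cons]
    have : p :: (m₁ ++ [q]) ++ [p] = (p :: m₁) ++ q :: [p] := by simp
    rw [this, pe_append]
    simp
  have hce₂ : ce L₂ = pe L₂ ∪ {s(q', p')} := by
    rw [hL₂, ce_cons]
    have : p' :: (m₂ ++ [q']) ++ [p'] = (p' :: m₂) ++ q' :: [p'] := by simp
    rw [this, pe_append]
    simp
  have hce : ce (L₁ ++ L₂.reverse) = pe L₁ ∪ {s(q, q')} ∪ pe L₂ ∪ {s(p', p)} := by
    rw [hrev, hL₁, List.cons_append, ce_cons]
    have e1 : p :: (m₁ ++ [q] ++ q' :: (m₂.reverse ++ [p'])) ++ [p] =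
        (p :: m₁) ++ q :: (q' :: (m₂.reverse ++ [p']) ++ [p]) := by simp
    rw [e1, pe_append (p :: m₁) q]
    have e2 : q :: (q' :: (m₂.reverse ++ [p']) ++ [p]) = q :: q' :: (m₂.reverse ++ [p', p]) := by simp
    rw [e2, pe_cons_cons]
    have e3 : q' :: (m₂.reverse ++ [p', p]) = (q' :: m₂.reverse) ++ p' :: [p] := by simp
    rw [e3, pe_append (q' :: m₂.reverse) p']
    have e4 : q' :: m₂.reverse ++ [p'] = L₂.reverse := by simp [hL₂]
    rw [e4, pe_reverse]
    ext e
    simp only [List.cons_append, pe_cons_cons, pe_single, Set.mem_union, Set.mem_insert_iff,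
      Set.mem_singleton_iff, Set.mem_empty_iff_false, or_false]
    tauto
  refine ⟨L₁ ++ L₂.reverse, ?_, ?_, ?_, ?_⟩
  · rw [List.nodup_append']
    refine ⟨pm₁.nodup_iff.mpr hn₁, ?_, ?_⟩
    · rw [List.nodup_reverse]; exact pm₂.nodup_iff.mpr hn₂
    · intro v hv hv'
      rw [List.mem_reverse] at hv'
      have a1 : v ∈ S₁ := (hv₁ v).1 (pm₁.mem_iff.1 hv)
      have a2 : v ∈ S₂ := (hv₂ v).1 (pm₂.mem_iff.1 hv')
      exact Set.disjoint_left.1 hd a1 a2
  · intro v
    rw [List.mem_append, List.mem_reverse, pm₁.mem_iff, pm₂.mem_iff, hv₁, hv₂, Set.mem_union]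
  · rw [hce]
    rw [← cm₁, hce₁] at hc₁
    rw [← cm₂, hce₂] at hc₂
    intro e he
    rcases he with ((he | he) | he) | he
    · exact hc₁ (Or.inl he)
    · rw [Set.mem_singleton_iff] at he
      rw [he, SimpleGraph.mem_edgeSet]; exact hq
    · exact hc₂ (Or.inl he)
    · rw [Set.mem_singleton_iff] at he
      rw [he, SimpleGraph.mem_edgeSet]; exact hp.symm
  · rw [hce]
    rw [← cm₁, hce₁] at hE₁
    rw [← cm₂, hce₂] at hE₂
    intro e he
    rcases he with (⟨he, hne⟩ | ⟨he, hne⟩) | he
    · rcases hE₁ he with h | h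
      · exact Or.inl (Or.inl (Or.inl h))
      · exfalso
        apply hne
        rw [Set.mem_singleton_iff] at h ⊢
        rw [h]; exact Sym2.eq_swap
    · rcases hE₂ he with h | h
      · exact Or.inl (Or.inr h)
      · exfalso
        apply hne
        rw [Set.mem_singleton_iff] at h ⊢
        rw [h]; exact Sym2.eq_swap
    · rcases he with he | he
      · rw [he]; right; exact Sym2.eq_swap
      · rw [Set.mem_singleton_iff] at he
        rw [he]; exact Or.inl (Or.inl (Or.inr rfl))

theorem pe_map {W : Type*} (f : V → W) (l : List V) : pe (l.map f) = Sym2.map f '' pe l := by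
  induction l with
  | nil => simp
  | cons a t ih =>
    cases t with
    | nil => simp
    | cons b t' =>
      simp only [List.map_cons, pe_cons_cons] at ih ⊢
      rw [ih, Set.image_insert_eq]
      simp

theorem ce_map {W : Type*} (f : V → W) (l : List V) : ce (l.map f) = Sym2.map f '' ce l := by
  cases l with
  | nil => simp
  | cons a t =>
    rw [List.map_cons, ce_cons, ce_cons, ← pe_map]
    simp

/-- Transport of a Hamiltonian cycle along an injective graph homomorphism. -/
theorem IsHC.map {W : Type*} {Γ : SimpleGraph V} {Δ : SimpleGraph W} {S : Set V}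
    {E : Set (Sym2 V)} (h : IsHC Γ S E) (f : V → W) (hf : Set.InjOn f S)
    (hadj : ∀ x ∈ S, ∀ y ∈ S, Γ.Adj x y → Δ.Adj (f x) (f y)) :
    IsHC Δ (f '' S) (Sym2.map f '' E) := by
  obtain ⟨l, hn, hv, hc, hE⟩ := h
  refine ⟨l.map f, ?_, ?_, ?_, ?_⟩
  · refine (List.nodup_map_iff_inj_on hn).2 ?_
    intro x hx y hy hxy
    exact hf ((hv x).1 hx) ((hv y).1 hy) hxy
  · intro w
    simp only [List.mem_map, Set.mem_image, hv]
  · rw [ce_map]
    rintro e ⟨e', he', rfl⟩
    induction e' using Sym2.ind with
    | _ x y =>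
      have hxy : Γ.Adj x y := by
        have := hc he'
        rwa [SimpleGraph.mem_edgeSet] at this
      have hmem : ∀ z ∈ s(x, y), z ∈ l := by
        intro z hz
        have key : ∀ (l' : List V) (e : Sym2 V), e ∈ pe l' → ∀ z ∈ e, z ∈ l' := by
          intro l'
          induction l' with
          | nil => intro e he; simp at he
          | cons a t ih =>
            cases t with
            | nil => intro e he; simp at he
            | cons b t' =>
              intro e he z hz
              rw [pe_cons_cons, Set.mem_insert_iff] at he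
              rcases he with rfl | he
              · rw [Sym2.mem_iff] at hz
                rcases hz with rfl | rfl <;> simp
              · exact List.mem_cons_of_mem _ (ih e he z hz)
        cases l with
        | nil => simp at he'
        | cons a t =>
          have := key _ _ he' z hz
          simp only [List.cons_append, List.mem_cons, List.mem_append, List.not_mem_nil,
            or_false] at this ⊢
          tauto
      have hx : x ∈ S := (hv x).1 (hmem x (Sym2.mem_mk_left x y))
      have hy : y ∈ S := (hv y).1 (hmem y (Sym2.mem_mk_right x y))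
      rw [Sym2.map_mk, SimpleGraph.mem_edgeSet]
      exact hadj x hx y hy hxy
  · rw [ce_map]
    exact Set.image_mono hE

end Pool.Agent.Lib.MP_688fd0_co
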