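import Pool.Agent.Lib.MP_688fd0_co.Tree
import Pool.Agent.Lib.MP_688fd0_co.Listing

/-!
Growing a spanning tree edge by edge, and existence of irredundant generating sets.
-/

namespace Pool.Agent.Lib.MP_688fd0_co

set_option linter.unusedSectionVars false

open Classical

namespace PG

variable {B E P : Type*} [Fintype B] [DecidableEq B] [DecidableEq E] {D : PG B E P}

theorem grow {T : Finset E} (hT : ∀ x y, D.Conn (T : Set E) x y) (b₀ : B)
    (M : Finset B → Finset E → Prop) (h0 : M {b₀} ∅)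
    (step : ∀ S U e, M S U → U ⊆ T → (∀ f ∈ U, D.src f ∈ S ∧ D.tgt f ∈ S) → e ∈ T → e ∉ U →
      D.src e ∈ S → D.tgt e ∉ S → M (insert (D.tgt e) S) (insert e U))
    (step' : ∀ S U e, M S U → U ⊆ T → (∀ f ∈ U, D.src f ∈ S ∧ D.tgt f ∈ S) → e ∈ T → e ∉ U →
      D.tgt e ∈ S → D.src e ∉ S → M (insert (D.src e) S) (insert e U)) :
    ∃ U ⊆ T, M Finset.univ U := by
  set good : Finset B → Prop := fun S => b₀ ∈ S ∧ ∃ U ⊆ T, M S U ∧
    (∀ f ∈ U, D.src f ∈ S ∧ D.tgt f ∈ S) with hgood
  obtain ⟨S, hS, hSmax⟩ : ∃ S, good S ∧ ∀ S', good S' → S'.card ≤ S.card := by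
    obtain ⟨X, hX, hX'⟩ := (Finset.univ.filter good).exists_max_image Finset.card
      ⟨{b₀}, Finset.mem_filter.2 ⟨Finset.mem_univ _, Finset.mem_singleton_self _, ∅, by simp, h0,
        by simp⟩⟩
    refine ⟨X, (Finset.mem_filter.1 hX).2, fun X' h' => hX' X' ?_⟩
    exact Finset.mem_filter.2 ⟨Finset.mem_univ _, h'⟩
  obtain ⟨hb₀, U, hUT, hM, hUS⟩ := hS
  by_cases hu : S = Finset.univ
  · rw [hu] at hM; exact ⟨U, hUT, hM⟩
  exfalso
  obtain ⟨b, hb⟩ : ∃ b, b ∉ S := by
    by_contra hcon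
    push Not at hcon
    exact hu (Finset.eq_univ_iff_forall.2 hcon)
  obtain ⟨e, heT, he⟩ : ∃ e ∈ T, ¬ (D.src e ∈ S ↔ D.tgt e ∈ S) := by
    by_contra hcon
    push Not at hcon
    have key : ∀ x y, D.Conn (T : Set E) x y → (x ∈ S ↔ y ∈ S) := by
      intro x y hxy
      induction hxy with
      | rel a b hab =>
        obtain ⟨e, he, rfl, rfl⟩ := hab
        exact hcon e (Finset.mem_coe.1 he)
      | refl a => exact Iff.rfl
      | symm a b _ ih => exact ih.symm
      | trans a b c _ _ ih1 ih2 => exact ih1.trans ih2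
    exact hb ((key b₀ b (hT _ _)).1 hb₀)
  have heU : e ∉ U := by
    intro h
    have := hUS e h
    exact he ⟨fun _ => this.2, fun _ => this.1⟩
  by_cases hs : D.src e ∈ S
  · have ht : D.tgt e ∉ S := fun h => he ⟨fun _ => h, fun _ => hs⟩
    have h1 := step S U e hM hUT hUS heT heU hs ht
    have h2 := hSmax (insert (D.tgt e) S) ⟨Finset.mem_insert_of_mem hb₀, insert e U,
      Finset.insert_subset heT hUT, h1, by
        intro f hf
        rcases Finset.mem_insert.1 hf with rfl | hf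
        · exact ⟨Finset.mem_insert_of_mem hs, Finset.mem_insert_self _ _⟩
        · exact ⟨Finset.mem_insert_of_mem (hUS f hf).1, Finset.mem_insert_of_mem (hUS f hf).2⟩⟩
    rw [Finset.card_insert_of_notMem ht] at h2
    omega
  · have ht : D.tgt e ∈ S := by
      by_contra h
      exact he ⟨fun h' => absurd h' hs, fun h' => absurd h' h⟩
    have h1 := step' S U e hM hUT hUS heT heU ht hs
    have h2 := hSmax (insert (D.src e) S) ⟨Finset.mem_insert_of_mem hb₀, insert e U,
      Finset.insert_subset heT hUT, h1, by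
        intro f hf
        rcases Finset.mem_insert.1 hf with rfl | hf
        · exact ⟨Finset.mem_insert_self _ _, Finset.mem_insert_of_mem ht⟩
        · exact ⟨Finset.mem_insert_of_mem (hUS f hf).1, Finset.mem_insert_of_mem (hUS f hf).2⟩⟩
    rw [Finset.card_insert_of_notMem hs] at h2
    omega

end PG

variable {G : Type*} [Group G] [Fintype G]

theorem exists_irred (H : Subgroup G) (A : Set G)
    (hgen : Subgroup.closure ((H : Set G) ∪ A) = ⊤) :
    ∃ S : Finset G, (S : Set G) ⊆ A ∧ Irred H S ∧ Subgroup.closure ((H : Set G) ∪ (S : Set G)) = ⊤ := by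
  set good : Finset G → Prop := fun S => (S : Set G) ⊆ A ∧
    Subgroup.closure ((H : Set G) ∪ (S : Set G)) = ⊤ with hgood
  obtain ⟨S, hS, hSmin⟩ : ∃ S, good S ∧ ∀ S', good S' → S.card ≤ S'.card := by
    obtain ⟨X, hX, hX'⟩ := (Finset.univ.filter good).exists_min_image Finset.card
      ⟨A.toFinset, Finset.mem_filter.2 ⟨Finset.mem_univ _, by simp, by simpa using hgen⟩⟩
    refine ⟨X, (Finset.mem_filter.1 hX).2, fun X' h' => hX' X' ?_⟩
    exact Finset.mem_filter.2 ⟨Finset.mem_univ _, h'⟩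
  refine ⟨S, hS.1, ?_, hS.2⟩
  intro s hs hcl
  have h1 : good (S.erase s) := by
    refine ⟨(Finset.coe_subset.2 (Finset.erase_subset _ _)).trans hS.1, ?_⟩
    rw [eq_top_iff, ← hS.2, Subgroup.closure_le]
    intro x hx
    rcases hx with hx | hx
    · exact Subgroup.subset_closure (Or.inl hx)
    · by_cases hxs : x = s
      · rw [hxs]; exact hcl
      · exact Subgroup.subset_closure (Or.inr (Finset.mem_coe.2 (Finset.mem_erase.2 ⟨hxs, hx⟩)))
  have h2 := hSmin _ h1
  have h3 := Finset.card_erase_lt_of_mem hs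
  omega

theorem Irred.not_mem {H : Subgroup G} {S : Finset G} (hS : Irred H S) {s : G} (hs : s ∈ S) :
    s ∉ H := fun h => hS s hs (Subgroup.subset_closure (Or.inl h))

end Pool.Agent.Lib.MP_688fd0_co
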