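import Pool.Agent.Lib.MP_688fd0_co.TwoTrees
import Pool.Agent.Lib.MP_688fd0_co.Grow

/-!
Connected even external structures.
-/

namespace Pool.Agent.Lib.MP_688fd0_co

set_option linter.unusedSectionVars false

open Classical

namespace PG

variable {B E P : Type*} (D : PG B E P)

/-- Boundary modulo two. -/
noncomputable def bd (F : Finset E) (b : B) : ZMod 2 :=
  ∑ e ∈ F, ((if D.src e = b then 1 else 0) + (if D.tgt e = b then 1 else 0))

variable {D}

theorem bd_symmDiff (F F' : Finset E) (b : B) : D.bd (symmDiff F F') b = D.bd F b + D.bd F' b := by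
  unfold bd
  set g : E → ZMod 2 := fun e => ((if D.src e = b then 1 else 0) + (if D.tgt e = b then 1 else 0))
  have h1 : ∑ e ∈ symmDiff F F', g e = ∑ e ∈ F \ F', g e + ∑ e ∈ F' \ F, g e := by
    rw [symmDiff_def, Finset.sup_eq_union, Finset.sum_union disjoint_sdiff_sdiff]
  have h2 : ∑ e ∈ F, g e = ∑ e ∈ F \ F', g e + ∑ e ∈ F ∩ F', g e := by
    rw [← Finset.sum_union (Finset.disjoint_sdiff_inter F F'), Finset.sdiff_union_inter]
  have h3 : ∑ e ∈ F', g e = ∑ e ∈ F' \ F, g e + ∑ e ∈ F ∩ F', g e := by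
    rw [Finset.inter_comm, ← Finset.sum_union (Finset.disjoint_sdiff_inter F' F),
      Finset.sdiff_union_inter]
  rw [h1, h2, h3]
  have h4 : ∀ z : ZMod 2, z + z = 0 := by decide
  have h5 := h4 (∑ e ∈ F ∩ F', g e)
  linear_combination -h5

theorem bd_singleton (e : E) (b : B) : D.bd {e} b =
    (if D.src e = b then 1 else 0) + (if D.tgt e = b then 1 else 0) := by
  unfold bd; simp

theorem bd_empty (b : B) : D.bd ∅ b = 0 := by
  unfold bd; simp

theorem exists_path_join {T : Finset E} {x y : B} (h : D.Conn (T : Set E) x y) :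
    ∃ J ⊆ T, ∀ b, D.bd J b = (if x = b then 1 else 0) + (if y = b then 1 else 0) := by
  have h4 : ∀ z : ZMod 2, z + z = 0 := by decide
  induction h with
  | rel a c hab =>
    obtain ⟨e, he, rfl, rfl⟩ := hab
    exact ⟨{e}, Finset.singleton_subset_iff.2 (Finset.mem_coe.1 he), fun b => bd_singleton e b⟩
  | refl a =>
    refine ⟨∅, Finset.empty_subset _, fun b => ?_⟩
    rw [bd_empty, h4]
  | symm a c _ ih =>
    obtain ⟨J, hJ, hb⟩ := ih
    exact ⟨J, hJ, fun b => by rw [hb b, add_comm]⟩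
  | trans a c d _ _ ih1 ih2 =>
    obtain ⟨J, hJ, hb⟩ := ih1
    obtain ⟨J', hJ', hb'⟩ := ih2
    refine ⟨symmDiff J J', ?_, fun b => ?_⟩
    · intro e he
      rw [Finset.mem_symmDiff] at he
      rcases he with he | he
      · exact hJ he.1
      · exact hJ' he.1
    · rw [bd_symmDiff, hb, hb']
      have := h4 (if c = b then 1 else 0)
      linear_combination this

theorem exists_join {T : Finset E} (h : ∀ x y, D.Conn (T : Set E) x y) (F : Finset E) :
    ∃ J ⊆ T, ∀ b, D.bd J b = D.bd F b := by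
  induction F using Finset.induction_on with
  | empty => exact ⟨∅, Finset.empty_subset _, fun b => rfl⟩
  | insert e F he ih =>
    obtain ⟨J, hJ, hb⟩ := ih
    obtain ⟨J', hJ', hb'⟩ := exists_path_join (h (D.src e) (D.tgt e))
    refine ⟨symmDiff J J', ?_, fun b => ?_⟩
    · intro f hf
      rw [Finset.mem_symmDiff] at hf
      rcases hf with hf | hf
      · exact hJ hf.1
      · exact hJ' hf.1
    · rw [bd_symmDiff, hb, hb']
      unfold bd
      rw [Finset.sum_insert he, add_comm]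

theorem exists_even {T T' : Finset E} (hd : Disjoint T T')
    (h' : ∀ x y, D.Conn (T' : Set E) x y) :
    ∃ J ⊆ T', ∀ b, Even (((T ∪ J).filter (fun e => D.src e = b)).card +
      ((T ∪ J).filter (fun e => D.tgt e = b)).card) := by
  obtain ⟨J, hJ, hb⟩ := exists_join h' T
  refine ⟨J, hJ, fun b => ?_⟩
  have h1 : D.bd (T ∪ J) b = 0 := by
    have h2 : D.bd (T ∪ J) b = D.bd T b + D.bd J b := by
      unfold bd
      rw [Finset.sum_union (Finset.disjoint_of_subset_right hJ hd)]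
    have h4 : ∀ z : ZMod 2, z + z = 0 := by decide
    rw [h2, hb, h4]
  unfold bd at h1
  rw [Finset.sum_add_distrib, Finset.sum_boole, Finset.sum_boole] at h1
  rw [← Nat.cast_add, ZMod.natCast_eq_zero_iff] at h1
  exact even_iff_two_dvd.2 h1

end PG

variable {G : Type*} [Group G] [Fintype G] {H : Subgroup G}

/-- Even connected external structures for the cosets of `H`. -/
structure Ext (A : Set G) (H : Subgroup G) (N : G → G → Prop) (Γ : SimpleGraph G) : Prop where
  mem : ∀ x y, Γ.Adj x y → x⁻¹ * y ∈ A ∧ (x : G ⧸ H) ≠ (y : G ⧸ H)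
  uniq : ∀ x y z, Γ.Adj x y → Γ.Adj x z → y = z
  near_inj : ∀ x y, (∃ z, Γ.Adj x z) → (∃ z, Γ.Adj y z) → N x y → x = y
  even : ∀ q : G ⧸ H, Even (Finset.univ.filter (fun x : G => (x : G ⧸ H) = q ∧ ∃ z, Γ.Adj x z)).card
  conn : ∀ q q' : G ⧸ H, Relation.EqvGen
    (fun a b : G ⧸ H => ∃ x y : G, Γ.Adj x y ∧ (x : G ⧸ H) = a ∧ (y : G ⧸ H) = b) q q'

theorem exists_ext {A : Set G} (hA : ∀ x ∈ A, x⁻¹ ∈ A) (hgen : Subgroup.closure A = ⊤)
    (N : G → G → Prop) (hrefl : ∀ x, N x x) (hsymm : ∀ x y, N x y → N y x)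
    (ν ν' : ℕ) (hν : ∀ x, (Finset.univ.filter (fun z => N x z)).card ≤ ν)
    (hν' : ∀ x y, N x y → (Finset.univ.filter (fun z => N x z ∧ ¬ N y z)).card ≤ ν')
    (hH : 4 * (3 * ν + ν') ≤ Nat.card H)
    (hcell : ∀ x y, N x y → (x : G ⧸ H) = (y : G ⧸ H)) :
    ∃ Γ : SimpleGraph G, Ext A H N Γ := by
  obtain ⟨S, hSA, hS, hSgen⟩ := exists_irred H A (by
    rw [eq_top_iff, ← hgen]
    exact Subgroup.closure_mono Set.subset_union_right)
  obtain ⟨M₂, hM₂, hconn⟩ := two_trees N hrefl hsymm ν ν' hν hν' hH hS hSgen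
  set D := pG H S with hD
  have hdisj : Disjoint (PG.slice M₂ false) (PG.slice M₂ true) := by
    rw [Finset.disjoint_left]
    intro e h1 h2
    have h3 := hM₂ _ (PG.mem_slice.1 h1) _ (PG.mem_slice.1 h2)
      ⟨e.1, e.1, Or.inl rfl, Or.inl rfl, hrefl _⟩
    simp at h3
  obtain ⟨J, hJ, hJe⟩ := PG.exists_even (D := D) hdisj (hconn true)
  set M := PG.slice M₂ false ∪ J with hM
  have hMc : ∀ x y, D.Conn (M : Set (G × {s // s ∈ S})) x y := fun x y =>
    (hconn false x y).mono (Finset.coe_subset.2 Finset.subset_union_left)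
  -- lift to the doubled set
  have hlift : ∀ e ∈ M, ∃ b, (e, b) ∈ M₂ := by
    intro e he
    rcases Finset.mem_union.1 he with h | h
    · exact ⟨false, PG.mem_slice.1 h⟩
    · exact ⟨true, PG.mem_slice.1 (hJ h)⟩
  have hcf : ∀ e ∈ M, ∀ f ∈ M, ∀ x y : G, (x = e.1 ∨ x = e.1 * e.2.1) → (y = f.1 ∨ y = f.1 * f.2.1) →
      N x y → e = f := by
    intro e he f hf x y hx hy hxy
    obtain ⟨b, hb⟩ := hlift e he
    obtain ⟨b', hb'⟩ := hlift f hf
    exact congrArg Prod.fst (hM₂ _ hb _ hb' ⟨x, y, hx, hy, hxy⟩)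
  have hcf' : ∀ e ∈ M, ∀ f ∈ M, ∀ x y : G, (x = e.1 ∨ x = e.1 * e.2.1) →
      (y = f.1 ∨ y = f.1 * f.2.1) → x = y → e = f := by
    intro e he f hf x y hx hy hxy
    exact hcf e he f hf x y hx hy (hxy ▸ hrefl x)
  have hends : ∀ e : G × {s // s ∈ S}, ((e.1 : G) : G ⧸ H) ≠ ((e.1 * e.2.1 : G) : G ⧸ H) := by
    intro e h
    rw [QuotientGroup.eq] at h
    simp only [inv_mul_cancel_left] at h
    exact hS.not_mem e.2.2 h
  set Γ : SimpleGraph G := SimpleGraph.fromRel (fun x y => ∃ e ∈ M, e.1 = x ∧ e.1 * e.2.1 = y) with hΓ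
  have hadj : ∀ x y, Γ.Adj x y ↔ ∃ e ∈ M, (x = e.1 ∧ y = e.1 * e.2.1) ∨ (x = e.1 * e.2.1 ∧ y = e.1) := by
    intro x y
    rw [hΓ, SimpleGraph.fromRel_adj]
    constructor
    · rintro ⟨-, ⟨e, he, rfl, rfl⟩ | ⟨e, he, rfl, rfl⟩⟩
      · exact ⟨e, he, Or.inl ⟨rfl, rfl⟩⟩
      · exact ⟨e, he, Or.inr ⟨rfl, rfl⟩⟩
    · rintro ⟨e, he, ⟨rfl, rfl⟩ | ⟨rfl, rfl⟩⟩
      · exact ⟨fun h => hends e (congrArg _ h), Or.inl ⟨e, he, rfl, rfl⟩⟩
      · exact ⟨fun h => hends e (congrArg _ h.symm), Or.inr ⟨e, he, rfl, rfl⟩⟩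
  have hport : ∀ x, (∃ z, Γ.Adj x z) ↔ ∃ e ∈ M, x = e.1 ∨ x = e.1 * e.2.1 := by
    intro x
    constructor
    · rintro ⟨z, hz⟩
      obtain ⟨e, he, h | h⟩ := (hadj x z).1 hz
      · exact ⟨e, he, Or.inl h.1⟩
      · exact ⟨e, he, Or.inr h.1⟩
    · rintro ⟨e, he, rfl | rfl⟩
      · exact ⟨e.1 * e.2.1, (hadj _ _).2 ⟨e, he, Or.inl ⟨rfl, rfl⟩⟩⟩
      · exact ⟨e.1, (hadj _ _).2 ⟨e, he, Or.inr ⟨rfl, rfl⟩⟩⟩
  refine ⟨Γ, ?_, ?_, ?_, ?_, ?_⟩
  · intro x y hxy
    obtain ⟨e, he, ⟨rfl, rfl⟩ | ⟨rfl, rfl⟩⟩ := (hadj x y).1 hxy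
    · refine ⟨?_, hends e⟩
      rw [inv_mul_cancel_left]
      exact hSA e.2.2
    · refine ⟨?_, (hends e).symm⟩
      have : (e.1 * e.2.1)⁻¹ * e.1 = (e.2.1)⁻¹ := by group
      rw [this]
      exact hA _ (hSA e.2.2)
  · intro x y z hxy hxz
    obtain ⟨e, he, h1⟩ := (hadj x y).1 hxy
    obtain ⟨f, hf, h2⟩ := (hadj x z).1 hxz
    have hef : e = f := hcf' e he f hf x x (h1.imp And.left And.left) (h2.imp And.left And.left) rfl
    subst hef
    rcases h1 with ⟨h1, h1'⟩ | ⟨h1, h1'⟩ <;> rcases h2 with ⟨h2, h2'⟩ | ⟨h2, h2'⟩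
    · rw [h1', h2']
    · exact absurd (congrArg (fun g : G => (g : G ⧸ H)) (h1.symm.trans h2)) (hends e)
    · exact absurd (congrArg (fun g : G => (g : G ⧸ H)) (h2.symm.trans h1)) (hends e)
    · rw [h1', h2']
  · intro x y hx hy hxy
    obtain ⟨e, he, h1⟩ := (hport x).1 hx
    obtain ⟨f, hf, h2⟩ := (hport y).1 hy
    have hef : e = f := hcf e he f hf x y h1 h2 hxy
    subst hef
    have hq := hcell x y hxy
    rcases h1 with rfl | rfl <;> rcases h2 with rfl | rfl
    · rfl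
    · exact absurd hq (hends e)
    · exact absurd hq.symm (hends e)
    · rfl
  · intro q
    have h1 : (Finset.univ.filter (fun x : G => (x : G ⧸ H) = q ∧ ∃ z, Γ.Adj x z)).card =
        (M.filter (fun e => D.src e = q)).card + (M.filter (fun e => D.tgt e = q)).card := by
      have e1 : Finset.univ.filter (fun x : G => (x : G ⧸ H) = q ∧ ∃ z, Γ.Adj x z) =
          (M.filter (fun e => D.src e = q)).image (fun e => e.1) ∪
          (M.filter (fun e => D.tgt e = q)).image (fun e => e.1 * e.2.1) := by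
        ext x
        rw [Finset.mem_filter, hport, Finset.mem_union, Finset.mem_image, Finset.mem_image]
        constructor
        · rintro ⟨-, hq, e, he, rfl | rfl⟩
          · exact Or.inl ⟨e, Finset.mem_filter.2 ⟨he, hq⟩, rfl⟩
          · exact Or.inr ⟨e, Finset.mem_filter.2 ⟨he, hq⟩, rfl⟩
        · rintro (⟨e, he, rfl⟩ | ⟨e, he, rfl⟩)
          · rw [Finset.mem_filter] at he
            exact ⟨Finset.mem_univ _, he.2, e, he.1, Or.inl rfl⟩
          · rw [Finset.mem_filter] at he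
            exact ⟨Finset.mem_univ _, he.2, e, he.1, Or.inr rfl⟩
      rw [e1, Finset.card_union_of_disjoint, Finset.card_image_of_injOn, Finset.card_image_of_injOn]
      · intro e he f hf hef
        rw [Finset.mem_coe, Finset.mem_filter] at he hf
        exact hcf' e he.1 f hf.1 _ _ (Or.inr rfl) (Or.inr rfl) hef
      · intro e he f hf hef
        rw [Finset.mem_coe, Finset.mem_filter] at he hf
        exact hcf' e he.1 f hf.1 _ _ (Or.inl rfl) (Or.inl rfl) hef
      · rw [Finset.disjoint_left]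
        intro x hx hx'
        rw [Finset.mem_image] at hx hx'
        obtain ⟨e, he, rfl⟩ := hx
        obtain ⟨f, hf, hfe⟩ := hx'
        rw [Finset.mem_filter] at he hf
        have hef : e = f := hcf' e he.1 f hf.1 _ _ (Or.inl rfl) (Or.inr rfl) hfe.symm
        subst hef
        exact hends e (congrArg (fun g : G => (g : G ⧸ H)) hfe.symm)
    have h3 : Even ((M.filter (fun e => D.src e = q)).card +
        (M.filter (fun e => D.tgt e = q)).card) := by
      have h4 := hJe q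
      refine (congrArg Even ?_).mp h4
      refine congrArg₂ (fun a b : ℕ => a + b) (congrArg Finset.card ?_) (congrArg Finset.card ?_)
      · ext e; simp only [Finset.mem_filter, hM, Finset.mem_union]
      · ext e; simp only [Finset.mem_filter, hM, Finset.mem_union]
    rw [← h1] at h3
    refine (congrArg Even (congrArg Finset.card ?_)).mp h3
    ext e; simp only [Finset.mem_filter]
  · intro q q'
    have h := hMc q q'
    induction h with
    | rel a b hab =>
      obtain ⟨e, he, rfl, rfl⟩ := hab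
      exact Relation.EqvGen.rel _ _ ⟨e.1, e.1 * e.2.1,
        (hadj _ _).2 ⟨e, Finset.mem_coe.1 he, Or.inl ⟨rfl, rfl⟩⟩, rfl, rfl⟩
    | refl a => exact Relation.EqvGen.refl _
    | symm a b _ ih => exact Relation.EqvGen.symm _ _ ih
    | trans a b c _ _ ih1 ih2 => exact Relation.EqvGen.trans _ _ _ ih1 ih2

end Pool.Agent.Lib.MP_688fd0_co
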