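import Pool.Agent.Lib.MP_688fd0_co.Conn

/-!
Local search for spanning trees with bounded loads at the ports (after Furer and Raghavachari).
-/

namespace Pool.Agent.Lib.MP_688fd0_co

set_option linter.unusedSectionVars false

open Classical

namespace PG

variable {B E P : Type*} [Finite B] (D : PG B E P)

/-- Number of edges of `T` (counted with multiplicity of ends) at the port `p`. -/
noncomputable def load (T : Finset E) (p : P) : ℕ :=
  (T.filter (fun e => D.ps e = p)).card + (T.filter (fun e => D.pt e = p)).card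

/-- An edge touches a set of ports. -/
def Touch (X : Finset P) (e : E) : Prop := D.ps e ∈ X ∨ D.pt e ∈ X

/-- The edges of `T` that avoid `X`. -/
noncomputable def av (T : Finset E) (X : Finset P) : Finset E := T.filter (fun e => ¬ D.Touch X e)

/-- Edges avoiding `X` with both ends in the class of `b`. -/
def Ins (T : Finset E) (X : Finset P) (b : B) (e : E) : Prop :=
  ¬ D.Touch X e ∧ D.Conn (D.av T X : Set E) b (D.src e) ∧ D.Conn (D.av T X : Set E) b (D.tgt e)

/-- `T'` is an admissible modification of `T` inside the class of `b`. -/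
def Mod (cap : P → ℕ) (T : Finset E) (X : Finset P) (b : B) (T' : Finset E) : Prop :=
  (∀ e, ¬ D.Ins T X b e → (e ∈ T' ↔ e ∈ T)) ∧
  (∀ b', D.Conn (D.av T X : Set E) b b' →
    D.Conn ((T'.filter (D.Ins T X b) : Finset E) : Set E) b b') ∧
  T'.card ≤ T.card ∧
  ∀ q, D.load T' q ≤ max (D.load T q) (cap q)

variable {D} {cap : P → ℕ} {T T' Tu Tv F : Finset E} {X X' : Finset P} {b : B}

theorem mem_av {e : E} : e ∈ D.av T X ↔ e ∈ T ∧ ¬ D.Touch X e := Finset.mem_filter

theorem Touch.mono {e : E} (h : X' ⊆ X) (he : D.Touch X' e) : D.Touch X e :=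
  he.imp (fun h' => h h') (fun h' => h h')

theorem av_mono (h : X' ⊆ X) : D.av T X ⊆ D.av T X' := by
  intro e he
  rw [mem_av] at he ⊢
  exact ⟨he.1, fun h' => he.2 (h'.mono h)⟩

theorem av_conn_mono (h : X' ⊆ X) {x y : B} (hc : D.Conn (D.av T X : Set E) x y) :
    D.Conn (D.av T X' : Set E) x y := hc.mono (Finset.coe_subset.2 (av_mono h))

theorem Ins.mono {e : E} (h : X' ⊆ X) (he : D.Ins T X b e) : D.Ins T X' b e :=
  ⟨fun h' => he.1 (h'.mono h), av_conn_mono h he.2.1, av_conn_mono h he.2.2⟩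

theorem Ins.change {e : E} {b' : B} (h : D.Conn (D.av T X : Set E) b' b) (he : D.Ins T X b e) :
    D.Ins T X b' e := ⟨he.1, h.trans he.2.1, h.trans he.2.2⟩

theorem ins_of_mem_av {e : E} (he : e ∈ D.av T X) (h : D.Conn (D.av T X : Set E) b (D.src e)) :
    D.Ins T X b e :=
  ⟨(mem_av.1 he).2, h, h.trans (Conn.of_mem (Finset.mem_coe.2 he))⟩

theorem Mod.self (h : ∀ q, D.load T q ≤ max (D.load T q) (cap q)) : D.Mod cap T X b T := by
  refine ⟨fun e _ => Iff.rfl, ?_, le_refl _, h⟩
  intro b' hb'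
  refine Conn.lift_in ?_ hb' (Conn.refl _ _)
  intro e he hbe
  apply Conn.of_mem
  rw [Finset.mem_coe] at he ⊢
  rw [Finset.mem_filter]
  exact ⟨(mem_av.1 he).1, ins_of_mem_av he hbe⟩

theorem Mod.mono (h : X' ⊆ X) (hm : D.Mod cap T X b T') : D.Mod cap T X' b T' := by
  obtain ⟨h1, h2, h3, h4⟩ := hm
  refine ⟨fun e he => h1 e (fun h' => he (h'.mono h)), ?_, h3, h4⟩
  intro b' hb'
  refine Conn.lift_in ?_ hb' (Conn.refl _ _)
  intro e he hbe
  rw [Finset.mem_coe] at he
  by_cases hi : D.Ins T X b e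
  · have e1 := h2 _ hi.2.1
    have e2 := h2 _ hi.2.2
    refine Conn.mono ?_ (e1.symm.trans e2)
    intro f hf
    rw [Finset.mem_coe, Finset.mem_filter] at hf ⊢
    exact ⟨hf.1, hf.2.mono h⟩
  · apply Conn.of_mem
    rw [Finset.mem_coe, Finset.mem_filter]
    exact ⟨(h1 e hi).2 (mem_av.1 he).1, ins_of_mem_av he hbe⟩

theorem Mod.isST (hm : D.Mod cap T X b T') (hT : IsST D T) : IsST D T' := by
  obtain ⟨h1, h2, h3, h4⟩ := hm
  refine ⟨?_, by have := hT.2; omega⟩
  intro x y
  refine Conn.lift ?_ (hT.1 x y)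
  intro e he
  rw [Finset.mem_coe] at he
  by_cases hi : D.Ins T X b e
  · have e1 := h2 _ hi.2.1
    have e2 := h2 _ hi.2.2
    refine Conn.mono ?_ (e1.symm.trans e2)
    intro f hf
    rw [Finset.mem_coe, Finset.mem_filter] at hf
    exact hf.1
  · exact Conn.of_mem ((h1 e hi).2 he)

theorem load_union_le (T T' : Finset E) (q : P) :
    D.load (T ∪ T') q ≤ D.load T q + D.load T' q := by
  unfold load
  rw [Finset.filter_union, Finset.filter_union]
  have h1 := Finset.card_union_le (T.filter (fun e => D.ps e = q)) (T'.filter (fun e => D.ps e = q))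
  have h2 := Finset.card_union_le (T.filter (fun e => D.pt e = q)) (T'.filter (fun e => D.pt e = q))
  omega

theorem load_filter_add (T : Finset E) (p : E → Prop) (q : P) :
    D.load (T.filter p) q + D.load (T.filter (fun e => ¬ p e)) q = D.load T q := by
  unfold load
  have h1 := Finset.card_filter_add_card_filter_not (s := T.filter (fun e => D.ps e = q)) p
  have h2 := Finset.card_filter_add_card_filter_not (s := T.filter (fun e => D.pt e = q)) p
  rw [Finset.filter_comm, Finset.filter_comm (fun e => D.ps e = q) (fun e => ¬ p e)] at h1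
  rw [Finset.filter_comm, Finset.filter_comm (fun e => D.pt e = q) (fun e => ¬ p e)] at h2
  omega

theorem load_mono (h : T ⊆ T') (q : P) : D.load T q ≤ D.load T' q := by
  unfold load
  exact add_le_add (Finset.card_le_card (Finset.filter_subset_filter _ h))
    (Finset.card_le_card (Finset.filter_subset_filter _ h))

theorem load_eq_zero {q : P} (h : ∀ e ∈ T, D.ps e ≠ q ∧ D.pt e ≠ q) : D.load T q = 0 := by
  unfold load
  rw [Finset.filter_false_of_mem (fun e he => (h e he).1),
    Finset.filter_false_of_mem (fun e he => (h e he).2)]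
  rfl

theorem load_erase {e : E} (he : e ∈ T) {q : P} (h : D.ps e = q ∨ D.pt e = q) :
    D.load (T.erase e) q + 1 ≤ D.load T q := by
  unfold load
  rw [Finset.filter_erase, Finset.filter_erase]
  rcases h with h | h
  · have h1 : e ∈ T.filter (fun e => D.ps e = q) := Finset.mem_filter.2 ⟨he, h⟩
    have h2 := Finset.card_erase_add_one h1
    have h3 := Finset.card_le_card (Finset.erase_subset e (T.filter (fun e => D.pt e = q)))
    omega
  · have h1 : e ∈ T.filter (fun e => D.pt e = q) := Finset.mem_filter.2 ⟨he, h⟩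
    have h2 := Finset.card_erase_add_one h1
    have h3 := Finset.card_le_card (Finset.erase_subset e (T.filter (fun e => D.ps e = q)))
    omega

theorem load_singleton_le (g : E) (q : P) (h : D.blk (D.ps g) ≠ D.blk (D.pt g)) :
    D.load {g} q ≤ 1 := by
  unfold load
  by_cases h1 : D.ps g = q
  · have h2 : D.pt g ≠ q := by rintro rfl; exact h (congrArg _ h1)
    rw [Finset.filter_singleton, Finset.filter_singleton, if_pos h1, if_neg h2]
    simp
  · rw [Finset.filter_singleton, Finset.filter_singleton, if_neg h1]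
    split_ifs <;> simp

/-- The exchange step. -/
theorem exchange {g : E} (hg : ¬ D.Touch X g)
    (hgc : ¬ D.Conn (D.av T X : Set E) (D.src g) (D.tgt g))
    (hu : D.Mod cap T X (D.src g) Tu) (hu' : D.load Tu (D.ps g) < cap (D.ps g))
    (hv : D.Mod cap T X (D.tgt g) Tv) (hv' : D.load Tv (D.pt g) < cap (D.pt g))
    (hFT : F ⊆ T) (hFc : D.Conn (F : Set E) (D.src g) (D.tgt g))
    (hmin : ∀ e ∈ F, ¬ D.Conn ((F.erase e : Finset E) : Set E) (D.src g) (D.tgt g))
    {e₀ : E} (he₀ : e₀ ∈ F) {w : P} (hwX : w ∈ X) (hw : D.ps e₀ = w ∨ D.pt e₀ = w)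
    (hX' : X' ⊆ X) (hFX' : ∀ e ∈ F, ¬ D.Touch X' e) :
    ∃ T'', D.Mod cap T X' (D.blk w) T'' ∧ D.load T'' w + 1 ≤ D.load T w := by
  have hu0 := hu
  have hv0 := hv
  obtain ⟨uA, uB, uC, uE⟩ := hu
  obtain ⟨vA, vB, vC, vE⟩ := hv
  have hte₀ : D.Touch X e₀ := by
    rcases hw with h | h
    · left; rw [h]; exact hwX
    · right; rw [h]; exact hwX
  have hdisj : ∀ e, D.Ins T X (D.src g) e → ¬ D.Ins T X (D.tgt g) e := by
    intro e h1 h2
    exact hgc (h1.2.1.trans h2.2.1.symm)
  have hgu : ¬ D.Ins T X (D.src g) g := fun h => hgc h.2.2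
  have hgv : ¬ D.Ins T X (D.tgt g) g := fun h => hgc h.2.1.symm
  have hgT : g ∉ T := by
    intro h
    exact hgc (Conn.of_mem (Finset.mem_coe.2 (mem_av.2 ⟨h, hg⟩)))
  have he₀T : e₀ ∈ T := hFT he₀
  have he₀u : ¬ D.Ins T X (D.src g) e₀ := fun h => h.1 hte₀
  have he₀v : ¬ D.Ins T X (D.tgt g) e₀ := fun h => h.1 hte₀
  set R := T.filter (fun e => ¬ D.Ins T X (D.src g) e ∧ ¬ D.Ins T X (D.tgt g) e) with hR
  set Mu := Tu.filter (D.Ins T X (D.src g)) with hMu
  set Mv := Tv.filter (D.Ins T X (D.tgt g)) with hMv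
  have he₀R : e₀ ∈ R := Finset.mem_filter.2 ⟨he₀T, he₀u, he₀v⟩
  set T'' := Mu ∪ Mv ∪ R.erase e₀ ∪ {g} with hT''
  have hFav : (F : Set E) ⊆ (D.av T X' : Set E) := by
    intro e he
    rw [Finset.mem_coe] at he ⊢
    exact mem_av.2 ⟨hFT he, hFX' e he⟩
  -- splitting of F at e₀
  have hsplit : (D.Conn ((F.erase e₀ : Finset E) : Set E) (D.src g) (D.src e₀) ∧
      D.Conn ((F.erase e₀ : Finset E) : Set E) (D.tgt e₀) (D.tgt g)) ∨
      (D.Conn ((F.erase e₀ : Finset E) : Set E) (D.src g) (D.tgt e₀) ∧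
      D.Conn ((F.erase e₀ : Finset E) : Set E) (D.src e₀) (D.tgt g)) := by
    have h : D.Conn (insert e₀ ((F.erase e₀ : Finset E) : Set E)) (D.src g) (D.tgt g) := by
      rw [← Finset.coe_insert, Finset.insert_erase he₀]; exact hFc
    rcases conn_insert h with h | h | h
    · exact absurd h (hmin e₀ he₀)
    · exact Or.inl h
    · exact Or.inr h
  have hsubF : ((F.erase e₀ : Finset E) : Set E) ⊆ (F : Set E) :=
    Finset.coe_subset.2 (Finset.erase_subset _ _)
  have hFgw : D.Conn (F : Set E) (D.src g) (D.blk w) := by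
    have h1 : D.Conn (F : Set E) (D.src g) (D.src e₀) ∧ D.Conn (F : Set E) (D.src g) (D.tgt e₀) := by
      rcases hsplit with ⟨h1, h2⟩ | ⟨h1, h2⟩
      · have h1' := h1.mono hsubF
        exact ⟨h1', h1'.trans (Conn.of_mem (Finset.mem_coe.2 he₀))⟩
      · have h1' := h1.mono hsubF
        exact ⟨h1'.trans (Conn.of_mem (Finset.mem_coe.2 he₀)).symm, h1'⟩
    rcases hw with rfl | rfl
    · exact h1.1
    · exact h1.2
  have hwg : D.Conn (D.av T X' : Set E) (D.blk w) (D.src g) := (hFgw.mono hFav).symm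
  have hgg : D.Conn (D.av T X' : Set E) (D.src g) (D.tgt g) := hFc.mono hFav
  have hInsu : ∀ e, D.Ins T X (D.src g) e → D.Ins T X' (D.blk w) e := fun e he =>
    (he.mono hX').change hwg
  have hInsv : ∀ e, D.Ins T X (D.tgt g) e → D.Ins T X' (D.blk w) e := fun e he =>
    (he.mono hX').change (hwg.trans hgg)
  have hInsg : D.Ins T X' (D.blk w) g := ⟨fun h => hg (h.mono hX'), hwg, hwg.trans hgg⟩
  have hInse₀ : D.Ins T X' (D.blk w) e₀ := by
    have hm : e₀ ∈ D.av T X' := mem_av.2 ⟨he₀T, hFX' e₀ he₀⟩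
    rcases hw with rfl | rfl
    · exact ins_of_mem_av hm (Conn.refl _ _)
    · exact ins_of_mem_av hm (Conn.of_mem (Finset.mem_coe.2 hm)).symm
  -- membership in T''
  have hmem : ∀ e, e ∈ T'' ↔ (e ∈ Tu ∧ D.Ins T X (D.src g) e) ∨ (e ∈ Tv ∧ D.Ins T X (D.tgt g) e) ∨
      (e ≠ e₀ ∧ e ∈ T ∧ ¬ D.Ins T X (D.src g) e ∧ ¬ D.Ins T X (D.tgt g) e) ∨ e = g := by
    intro e
    simp only [hT'', hMu, hMv, hR, Finset.mem_union, Finset.mem_filter, Finset.mem_erase,
      Finset.mem_singleton, or_assoc]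
  have hA : ∀ e, ¬ D.Ins T X' (D.blk w) e → (e ∈ T'' ↔ e ∈ T) := by
    intro e he
    have h1 : ¬ D.Ins T X (D.src g) e := fun h => he (hInsu e h)
    have h2 : ¬ D.Ins T X (D.tgt g) e := fun h => he (hInsv e h)
    have h3 : e ≠ g := by rintro rfl; exact he hInsg
    have h4 : e ≠ e₀ := by rintro rfl; exact he hInse₀
    rw [hmem]
    constructor
    · rintro (h | h | h | h)
      · exact absurd h.2 h1
      · exact absurd h.2 h2
      · exact h.2.1
      · exact absurd h h3
    · intro h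
      exact Or.inr (Or.inr (Or.inl ⟨h4, h, h1, h2⟩))
  -- connectivity
  have hMuM : (Mu : Set E) ⊆ ((T''.filter (D.Ins T X' (D.blk w)) : Finset E) : Set E) := by
    intro e he
    rw [Finset.mem_coe] at he ⊢
    have he' := Finset.mem_filter.1 he
    exact Finset.mem_filter.2 ⟨(hmem e).2 (Or.inl he'), hInsu e he'.2⟩
  have hMvM : (Mv : Set E) ⊆ ((T''.filter (D.Ins T X' (D.blk w)) : Finset E) : Set E) := by
    intro e he
    rw [Finset.mem_coe] at he ⊢
    have he' := Finset.mem_filter.1 he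
    exact Finset.mem_filter.2 ⟨(hmem e).2 (Or.inr (Or.inl he')), hInsv e he'.2⟩
  have ha : ∀ f ∈ D.av T X', f ≠ e₀ → D.Conn (D.av T X' : Set E) (D.blk w) (D.src f) →
      D.Conn ((T''.filter (D.Ins T X' (D.blk w)) : Finset E) : Set E) (D.src f) (D.tgt f) := by
    intro f hf hfe hfc
    by_cases h1 : D.Ins T X (D.src g) f
    · exact ((uB _ h1.2.1).symm.trans (uB _ h1.2.2)).mono hMuM
    · by_cases h2 : D.Ins T X (D.tgt g) f
      · exact ((vB _ h2.2.1).symm.trans (vB _ h2.2.2)).mono hMvM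
      · apply Conn.of_mem
        rw [Finset.mem_coe]
        refine Finset.mem_filter.2 ⟨?_, ins_of_mem_av hf hfc⟩
        rw [hmem]
        exact Or.inr (Or.inr (Or.inl ⟨hfe, (mem_av.1 hf).1, h1, h2⟩))
  have hgM : g ∈ T''.filter (D.Ins T X' (D.blk w)) :=
    Finset.mem_filter.2 ⟨(hmem g).2 (Or.inr (Or.inr (Or.inr rfl))), hInsg⟩
  have hFe : ∀ {x y : B}, D.Conn ((F.erase e₀ : Finset E) : Set E) x y →
      D.Conn (D.av T X' : Set E) (D.blk w) x →
      D.Conn ((T''.filter (D.Ins T X' (D.blk w)) : Finset E) : Set E) x y := by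
    intro x y hxy hx
    refine Conn.lift_in (b := x) ?_ hxy (Conn.refl _ _)
    intro e he hxe
    rw [Finset.mem_coe, Finset.mem_erase] at he
    refine ha e (Finset.mem_coe.1 (hFav (Finset.mem_coe.2 he.2))) he.1 ?_
    exact hx.trans ((hxe.mono hsubF).mono hFav)
  have hse₀ : D.Conn (D.av T X' : Set E) (D.blk w) (D.src e₀) := hInse₀.2.1
  have hte₀' : D.Conn (D.av T X' : Set E) (D.blk w) (D.tgt e₀) := hInse₀.2.2
  have hc : D.Conn ((T''.filter (D.Ins T X' (D.blk w)) : Finset E) : Set E) (D.src e₀) (D.tgt e₀) := by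
    have hgM' := Conn.of_mem (D := D) (Finset.mem_coe.2 hgM)
    rcases hsplit with ⟨h1, h2⟩ | ⟨h1, h2⟩
    · exact (hFe h1.symm hse₀).trans (hgM'.trans (hFe h2 hte₀').symm)
    · exact ((hFe h1.symm hte₀').trans (hgM'.trans (hFe h2 hse₀).symm)).symm
  have hB : ∀ b', D.Conn (D.av T X' : Set E) (D.blk w) b' →
      D.Conn ((T''.filter (D.Ins T X' (D.blk w)) : Finset E) : Set E) (D.blk w) b' := by
    intro b' hb'
    refine Conn.lift_in ?_ hb' (Conn.refl _ _)
    intro e he hbe
    by_cases hee : e = e₀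
    · rw [hee]; exact hc
    · exact ha e (Finset.mem_coe.1 he) hee hbe
  -- cardinalities
  have hMu_card : Mu.card ≤ (T.filter (D.Ins T X (D.src g))).card := by
    have h1 : Mu.card + (Tu.filter (fun e => ¬ D.Ins T X (D.src g) e)).card = Tu.card :=
      Finset.card_filter_add_card_filter_not (s := Tu) (D.Ins T X (D.src g))
    have h2 := Finset.card_filter_add_card_filter_not (s := T) (D.Ins T X (D.src g))
    have h3 : Tu.filter (fun e => ¬ D.Ins T X (D.src g) e) = T.filter (fun e => ¬ D.Ins T X (D.src g) e) := by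
      ext e
      simp only [Finset.mem_filter]
      constructor
      · rintro ⟨h, h'⟩; exact ⟨(uA e h').1 h, h'⟩
      · rintro ⟨h, h'⟩; exact ⟨(uA e h').2 h, h'⟩
    rw [h3] at h1
    omega
  have hMv_card : Mv.card ≤ (T.filter (D.Ins T X (D.tgt g))).card := by
    have h1 : Mv.card + (Tv.filter (fun e => ¬ D.Ins T X (D.tgt g) e)).card = Tv.card :=
      Finset.card_filter_add_card_filter_not (s := Tv) (D.Ins T X (D.tgt g))
    have h2 := Finset.card_filter_add_card_filter_not (s := T) (D.Ins T X (D.tgt g))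
    have h3 : Tv.filter (fun e => ¬ D.Ins T X (D.tgt g) e) = T.filter (fun e => ¬ D.Ins T X (D.tgt g) e) := by
      ext e
      simp only [Finset.mem_filter]
      constructor
      · rintro ⟨h, h'⟩; exact ⟨(vA e h').1 h, h'⟩
      · rintro ⟨h, h'⟩; exact ⟨(vA e h').2 h, h'⟩
    rw [h3] at h1
    omega
  have hR_eq : R = (T.filter (fun e => ¬ D.Ins T X (D.src g) e)).filter (fun e => ¬ D.Ins T X (D.tgt g) e) := by
    rw [hR, Finset.filter_filter]
  have hV_eq : T.filter (D.Ins T X (D.tgt g)) =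
      (T.filter (fun e => ¬ D.Ins T X (D.src g) e)).filter (D.Ins T X (D.tgt g)) := by
    rw [Finset.filter_filter]
    ext e
    simp only [Finset.mem_filter]
    constructor
    · rintro ⟨h, h'⟩; exact ⟨h, fun h'' => hdisj e h'' h', h'⟩
    · rintro ⟨h, -, h'⟩; exact ⟨h, h'⟩
  have hT_card : T.card = (T.filter (D.Ins T X (D.src g))).card +
      ((T.filter (D.Ins T X (D.tgt g))).card + R.card) := by
    have h1 := Finset.card_filter_add_card_filter_not (s := T) (D.Ins T X (D.src g))
    have h2 := Finset.card_filter_add_card_filter_not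
      (s := T.filter (fun e => ¬ D.Ins T X (D.src g) e)) (D.Ins T X (D.tgt g))
    rw [← hR_eq, ← hV_eq] at h2
    omega
  have hC : T''.card ≤ T.card := by
    have h1 : T''.card ≤ (Mu ∪ Mv ∪ R.erase e₀).card + 1 := by
      rw [hT'']
      refine (Finset.card_union_le _ _).trans ?_
      simp
    have h2 : (Mu ∪ Mv ∪ R.erase e₀).card ≤ Mu.card + Mv.card + (R.erase e₀).card := by
      refine (Finset.card_union_le _ _).trans ?_
      have := Finset.card_union_le Mu Mv
      omega
    have h3 := Finset.card_erase_add_one he₀R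
    omega
  -- loads
  have hpu : ∀ e, D.Ins T X (D.src g) e → ∀ q, (D.ps e = q ∨ D.pt e = q) →
      D.Conn (D.av T X : Set E) (D.src g) (D.blk q) ∧ q ∉ X := by
    intro e he q hq
    rcases hq with rfl | rfl
    · exact ⟨he.2.1, fun h => he.1 (Or.inl h)⟩
    · exact ⟨he.2.2, fun h => he.1 (Or.inr h)⟩
  have hpv : ∀ e, D.Ins T X (D.tgt g) e → ∀ q, (D.ps e = q ∨ D.pt e = q) →
      D.Conn (D.av T X : Set E) (D.tgt g) (D.blk q) ∧ q ∉ X := by
    intro e he q hq
    rcases hq with rfl | rfl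
    · exact ⟨he.2.1, fun h => he.1 (Or.inl h)⟩
    · exact ⟨he.2.2, fun h => he.1 (Or.inr h)⟩
  have hload : ∀ q, D.load T'' q ≤ D.load Mu q + D.load Mv q + D.load (R.erase e₀) q + D.load {g} q := by
    intro q
    have h1 := load_union_le (D := D) (Mu ∪ Mv ∪ R.erase e₀) {g} q
    have h2 := load_union_le (D := D) (Mu ∪ Mv) (R.erase e₀) q
    have h3 := load_union_le (D := D) Mu Mv q
    rw [← hT''] at h1
    omega
  have hRle : ∀ q, D.load (R.erase e₀) q ≤ D.load R q := fun q =>
    load_mono (Finset.erase_subset _ _) q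
  have hMu0 : ∀ q, ¬ (D.Conn (D.av T X : Set E) (D.src g) (D.blk q) ∧ q ∉ X) → D.load Mu q = 0 := by
    intro q hq
    apply load_eq_zero
    intro e he
    have he' := (Finset.mem_filter.1 he).2
    exact ⟨fun h => hq (hpu e he' q (Or.inl h)), fun h => hq (hpu e he' q (Or.inr h))⟩
  have hMv0 : ∀ q, ¬ (D.Conn (D.av T X : Set E) (D.tgt g) (D.blk q) ∧ q ∉ X) → D.load Mv q = 0 := by
    intro q hq
    apply load_eq_zero
    intro e he
    have he' := (Finset.mem_filter.1 he).2
    exact ⟨fun h => hq (hpv e he' q (Or.inl h)), fun h => hq (hpv e he' q (Or.inr h))⟩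
  have hgs : ∀ q, D.load {g} q ≤ 1 := fun q => load_singleton_le g q (by
    intro h
    apply hgc
    have h' : D.src g = D.tgt g := h
    rw [h']; exact Conn.refl _ _)
  have hg0 : ∀ q, q ≠ D.ps g → q ≠ D.pt g → D.load {g} q = 0 := by
    intro q h1 h2
    apply load_eq_zero
    intro e he
    rw [Finset.mem_singleton] at he
    subst he
    exact ⟨fun h => h1 h.symm, fun h => h2 h.symm⟩
  have hE : ∀ q, D.load T'' q ≤ max (D.load T q) (cap q) := by
    intro q
    by_cases hqu : D.Conn (D.av T X : Set E) (D.src g) (D.blk q) ∧ q ∉ X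
    · have hqv : ¬ (D.Conn (D.av T X : Set E) (D.tgt g) (D.blk q) ∧ q ∉ X) := by
        rintro ⟨h, -⟩
        exact hgc (hqu.1.trans h.symm)
      have h0 := hMv0 q hqv
      -- load Tu q = load Mu q + load R q
      have h1 : D.load Mu q + D.load R q ≤ D.load Tu q := by
        rw [← load_filter_add Tu (D.Ins T X (D.src g)) q]
        apply add_le_add_right
        apply load_mono
        intro e he
        have he' := Finset.mem_filter.1 he
        exact Finset.mem_filter.2 ⟨(uA e he'.2.1).2 he'.1, he'.2.1⟩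
      have h2 := hload q
      have h3 := hRle q
      by_cases hqg : q = D.ps g
      · subst hqg
        have h4 := hgs (D.ps g)
        have : D.load T'' (D.ps g) ≤ cap (D.ps g) := by omega
        exact this.trans (le_max_right _ _)
      · have hqg' : q ≠ D.pt g := by
          rintro rfl
          exact hgc hqu.1
        have h4 := hg0 q hqg hqg'
        have h5 := uE q
        exact (by omega : D.load T'' q ≤ D.load Tu q).trans h5
    · by_cases hqv : D.Conn (D.av T X : Set E) (D.tgt g) (D.blk q) ∧ q ∉ X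
      · have h0 := hMu0 q hqu
        have h1 : D.load Mv q + D.load R q ≤ D.load Tv q := by
          rw [← load_filter_add Tv (D.Ins T X (D.tgt g)) q]
          apply add_le_add_right
          apply load_mono
          intro e he
          have he' := Finset.mem_filter.1 he
          exact Finset.mem_filter.2 ⟨(vA e he'.2.2).2 he'.1, he'.2.2⟩
        have h2 := hload q
        have h3 := hRle q
        by_cases hqg : q = D.pt g
        · subst hqg
          have h4 := hgs (D.pt g)
          have : D.load T'' (D.pt g) ≤ cap (D.pt g) := by omega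
          exact this.trans (le_max_right _ _)
        · have hqg' : q ≠ D.ps g := by
            rintro rfl
            exact hgc hqv.1.symm
          have h4 := hg0 q hqg' hqg
          have h5 := vE q
          exact (by omega : D.load T'' q ≤ D.load Tv q).trans h5
      · have h0 := hMu0 q hqu
        have h0' := hMv0 q hqv
        have h2 := hload q
        have h3 := hRle q
        have hqg : q ≠ D.ps g := by
          rintro rfl
          exact hqu ⟨Conn.refl _ _, fun h => hg (Or.inl h)⟩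
        have hqg' : q ≠ D.pt g := by
          rintro rfl
          exact hqv ⟨Conn.refl _ _, fun h => hg (Or.inr h)⟩
        have h4 := hg0 q hqg hqg'
        have h5 : D.load R q ≤ D.load T q := load_mono (Finset.filter_subset _ _) q
        exact (by omega : D.load T'' q ≤ D.load T q).trans (le_max_left _ _)
  refine ⟨T'', ⟨hA, hB, hC, hE⟩, ?_⟩
  have h0 := hMu0 w (fun h => h.2 hwX)
  have h0' := hMv0 w (fun h => h.2 hwX)
  have h2 := hload w
  have hqg : w ≠ D.ps g := by
    rintro rfl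
    exact hg (Or.inl hwX)
  have hqg' : w ≠ D.pt g := by
    rintro rfl
    exact hg (Or.inr hwX)
  have h4 := hg0 w hqg hqg'
  have h5 : D.load R w ≤ D.load T w := load_mono (Finset.filter_subset _ _) w
  have h6 := load_erase (D := D) he₀R hw
  omega

/-- Local optimum of the search: either loads within capacity, or a blocking set of ports. -/
theorem fr [Nonempty B] [Fintype E] [Fintype P] (D : PG B E P) (cap : P → ℕ)
    (h : ∀ x y, D.Conn (Set.univ : Set E) x y) :
    (∃ T : Finset E, IsST D T ∧ ∀ p, D.load T p ≤ cap p) ∨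
    (∃ (T : Finset E) (X : Finset P), IsST D T ∧ (∀ p ∈ X, cap p ≤ D.load T p) ∧
      (∃ p ∈ X, cap p < D.load T p) ∧
      ∀ e, ¬ D.Touch X e → D.Conn (D.av T X : Set E) (D.src e) (D.tgt e)) := by
  set Φ : Finset E → ℕ := fun T => ∑ p, (D.load T p - cap p) with hΦ
  obtain ⟨T, hT, hmin⟩ : ∃ T, IsST D T ∧ ∀ T', IsST D T' → Φ T ≤ Φ T' := by
    obtain ⟨T₀, hT₀⟩ := exists_isST h
    obtain ⟨T, hT, hT'⟩ := (Finset.univ.filter (IsST D)).exists_min_image Φ
      ⟨T₀, Finset.mem_filter.2 ⟨Finset.mem_univ _, hT₀⟩⟩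
    refine ⟨T, (Finset.mem_filter.1 hT).2, fun T' h' => hT' T' ?_⟩
    exact Finset.mem_filter.2 ⟨Finset.mem_univ _, h'⟩
  by_cases hall : ∀ p, D.load T p ≤ cap p
  · exact Or.inl ⟨T, hT, hall⟩
  right
  push Not at hall
  obtain ⟨p₀, hp₀⟩ := hall
  set good : Finset P → Prop := fun X => (∀ p ∈ X, cap p ≤ D.load T p) ∧
    (∀ p, cap p < D.load T p → p ∈ X) ∧
    ∀ p, p ∉ X → ∃ T', D.Mod cap T X (D.blk p) T' ∧ D.load T' p < cap p with hgood
  have hbase : good (Finset.univ.filter (fun p => cap p ≤ D.load T p)) := by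
    refine ⟨fun p hp => (Finset.mem_filter.1 hp).2,
      fun p hp => Finset.mem_filter.2 ⟨Finset.mem_univ _, hp.le⟩, ?_⟩
    intro p hp
    refine ⟨T, Mod.self (fun q => le_max_left _ _), ?_⟩
    by_contra hcon
    exact hp (Finset.mem_filter.2 ⟨Finset.mem_univ _, not_lt.1 hcon⟩)
  obtain ⟨X, hX, hXmin⟩ : ∃ X, good X ∧ ∀ X', good X' → X.card ≤ X'.card := by
    obtain ⟨X, hX, hX'⟩ := (Finset.univ.filter good).exists_min_image Finset.card
      ⟨_, Finset.mem_filter.2 ⟨Finset.mem_univ _, hbase⟩⟩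
    refine ⟨X, (Finset.mem_filter.1 hX).2, fun X' h' => hX' X' ?_⟩
    exact Finset.mem_filter.2 ⟨Finset.mem_univ _, h'⟩
  obtain ⟨hX1, hX2, hX3⟩ := hX
  refine ⟨T, X, hT, hX1, ⟨p₀, hX2 p₀ hp₀, hp₀⟩, ?_⟩
  intro g hg
  by_contra hgc
  -- a minimal connecting subset
  obtain ⟨F, hFT, hFc, hFmin⟩ : ∃ F ⊆ T, D.Conn (F : Set E) (D.src g) (D.tgt g) ∧
      ∀ e ∈ F, ¬ D.Conn ((F.erase e : Finset E) : Set E) (D.src g) (D.tgt g) := by
    obtain ⟨F, hF, hF'⟩ := (T.powerset.filter
      (fun F : Finset E => D.Conn (F : Set E) (D.src g) (D.tgt g))).exists_min_image Finset.card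
      ⟨T, Finset.mem_filter.2 ⟨Finset.mem_powerset.2 (Finset.Subset.refl _), hT.1 _ _⟩⟩
    have hF1 := Finset.mem_powerset.1 (Finset.mem_filter.1 hF).1
    refine ⟨F, hF1, (Finset.mem_filter.1 hF).2, ?_⟩
    intro e he hc
    have h1 := hF' (F.erase e) (Finset.mem_filter.2
      ⟨Finset.mem_powerset.2 ((Finset.erase_subset _ _).trans hF1), hc⟩)
    have h2 := Finset.card_erase_lt_of_mem he
    omega
  obtain ⟨e₁, he₁, hte₁⟩ : ∃ e ∈ F, D.Touch X e := by
    by_contra hcon
    push Not at hcon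
    apply hgc
    refine hFc.mono ?_
    intro e he
    rw [Finset.mem_coe] at he ⊢
    exact mem_av.2 ⟨hFT he, hcon e he⟩
  set X' := X.filter (fun w => ∀ e ∈ F, ¬ (D.ps e = w ∨ D.pt e = w)) with hX'
  have hX'X : X' ⊆ X := Finset.filter_subset _ _
  have hFX' : ∀ e ∈ F, ¬ D.Touch X' e := by
    intro e he ht
    rcases ht with ht | ht
    · exact (Finset.mem_filter.1 ht).2 e he (Or.inl rfl)
    · exact (Finset.mem_filter.1 ht).2 e he (Or.inr rfl)
  obtain ⟨Tu, hTu, hTu'⟩ := hX3 (D.ps g) (fun h => hg (Or.inl h))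
  obtain ⟨Tv, hTv, hTv'⟩ := hX3 (D.pt g) (fun h => hg (Or.inr h))
  have hex : ∀ w ∈ X, ∀ e ∈ F, (D.ps e = w ∨ D.pt e = w) →
      ∃ T'', D.Mod cap T X' (D.blk w) T'' ∧ D.load T'' w + 1 ≤ D.load T w :=
    fun w hw e he hwe => exchange hg hgc hTu hTu' hTv hTv' hFT hFc hFmin he hw hwe hX'X hFX'
  have hnot : ∀ w ∈ X, ∀ e ∈ F, (D.ps e = w ∨ D.pt e = w) → D.load T w ≤ cap w := by
    intro w hw e he hwe
    by_contra hcon
    push Not at hcon
    obtain ⟨T'', hM, hl⟩ := hex w hw e he hwe
    have h1 := hmin T'' (hM.isST hT)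
    have h2 : Φ T'' < Φ T := by
      apply Finset.sum_lt_sum
      · intro q _
        have := hM.2.2.2 q
        rcases le_max_iff.1 this with h | h <;> omega
      · exact ⟨w, Finset.mem_univ _, by omega⟩
    omega
  have hgood' : good X' := by
    refine ⟨fun p hp => hX1 p (hX'X hp), ?_, ?_⟩
    · intro p hp
      refine Finset.mem_filter.2 ⟨hX2 p hp, ?_⟩
      intro e he hpe
      have := hnot p (hX2 p hp) e he hpe
      omega
    · intro p hp
      by_cases hpX : p ∈ X
      · have : ∃ e ∈ F, (D.ps e = p ∨ D.pt e = p) := by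
          by_contra hcon
          push Not at hcon
          apply hp
          refine Finset.mem_filter.2 ⟨hpX, fun e he h => ?_⟩
          have := hcon e he
          tauto
        obtain ⟨e, he, hpe⟩ := this
        obtain ⟨T'', hM, hl⟩ := hex p hpX e he hpe
        have := hnot p hpX e he hpe
        exact ⟨T'', hM, by omega⟩
      · obtain ⟨T', hM, hl⟩ := hX3 p hpX
        exact ⟨T', hM.mono hX'X, hl⟩
  have h1 := hXmin X' hgood'
  have h2 : X' ⊂ X := by
    refine Finset.ssubset_iff_subset_ne.2 ⟨hX'X, ?_⟩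
    intro heq
    apply hFX' e₁ he₁
    rw [heq]; exact hte₁
  have h3 := Finset.card_lt_card h2
  omega

end PG

end Pool.Agent.Lib.MP_688fd0_co
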