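import Pool.Agent.Lib.MP_688fd0_co.Conn

/-!
A Haxell type argument: spanning forests whose edges occupy pairwise disjoint sets of cells.
-/

namespace Pool.Agent.Lib.MP_688fd0_co

set_option linter.unusedSectionVars false

open Classical

namespace PG

variable {B E P C : Type*} [Finite B] {D : PG B E P}

/-- Edge sets without cycles. -/
def Forest (D : PG B E P) (M : Finset E) : Prop :=
  ∀ e ∈ M, ¬ D.Conn ((M.erase e : Finset E) : Set E) (D.src e) (D.tgt e)

theorem Forest.subset {M F : Finset E} (h : D.Forest M) (hF : F ⊆ M) : D.Forest F := by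
  intro e he hc
  exact h e (hF he) (hc.mono (Finset.coe_subset.2 (Finset.erase_subset_erase e hF)))

theorem Forest.insert {M : Finset E} (h : D.Forest M) {e : E}
    (he : ¬ D.Conn (M : Set E) (D.src e) (D.tgt e)) : D.Forest (insert e M) := by
  have heM : e ∉ M := fun h' => he (Conn.of_mem (Finset.mem_coe.2 h'))
  intro f hf hc
  rw [Finset.mem_insert] at hf
  rcases hf with rfl | hf
  · rw [Finset.erase_insert heM] at hc
    exact he hc
  · have hfe : f ≠ e := by rintro rfl; exact heM hf
    have h1 : (Insert.insert e M).erase f = Insert.insert e (M.erase f) :=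
      Finset.erase_insert_of_ne hfe.symm
    rw [h1, Finset.coe_insert] at hc
    have hsub : ((M.erase f : Finset E) : Set E) ⊆ (M : Set E) :=
      Finset.coe_subset.2 (Finset.erase_subset _ _)
    have hfc : D.Conn (M : Set E) (D.src f) (D.tgt f) := Conn.of_mem (Finset.mem_coe.2 hf)
    rcases conn_insert hc with h2 | ⟨h2, h3⟩ | ⟨h2, h3⟩
    · exact h f hf h2
    · exact he (((h2.mono hsub).symm.trans hfc).trans (h3.mono hsub).symm)
    · exact he ((h3.mono hsub).trans (hfc.symm.trans (h2.mono hsub)))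

theorem Forest.empty : D.Forest ∅ := by
  intro e he; exact absurd he (Finset.notMem_empty _)

theorem Forest.card {M : Finset E} (h : D.Forest M) : D.ncomp (M : Set E) + M.card = Nat.card B := by
  induction M using Finset.induction_on with
  | empty => simp [ncomp_empty]
  | insert e M he ih =>
    have h1 := ih (h.subset (Finset.subset_insert _ _))
    have h2 : ¬ D.Conn (M : Set E) (D.src e) (D.tgt e) := by
      have := h e (Finset.mem_insert_self _ _)
      rwa [Finset.erase_insert he] at this
    have h3 := ncomp_insert_of_not_conn h2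
    have h4 := ncomp_le_insert (D := D) (F := (M : Set E)) e
    rw [Finset.card_insert_of_notMem he, Finset.coe_insert]
    omega

theorem exists_min_conn {A : Finset E} {x y : B} (h : D.Conn (A : Set E) x y) :
    ∃ F ⊆ A, D.Conn (F : Set E) x y ∧ ∀ e ∈ F, ¬ D.Conn ((F.erase e : Finset E) : Set E) x y := by
  obtain ⟨F, hF, hF'⟩ := (A.powerset.filter
    (fun F : Finset E => D.Conn (F : Set E) x y)).exists_min_image Finset.card
    ⟨A, Finset.mem_filter.2 ⟨Finset.mem_powerset.2 (Finset.Subset.refl _), h⟩⟩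
  have hF1 := Finset.mem_powerset.1 (Finset.mem_filter.1 hF).1
  refine ⟨F, hF1, (Finset.mem_filter.1 hF).2, ?_⟩
  intro e he hc
  have h1 := hF' (F.erase e) (Finset.mem_filter.2
    ⟨Finset.mem_powerset.2 ((Finset.erase_subset _ _).trans hF1), hc⟩)
  have h2 := Finset.card_erase_lt_of_mem he
  omega

/-- Exchange property of forests. -/
theorem Forest.exchange {M A A' : Finset E} (h : D.Forest M) (hA : A ⊆ M) {x y : B}
    (hc : D.Conn (A : Set E) x y) (hc' : ¬ D.Conn (A' : Set E) x y) :
    ∃ f ∈ A, f ∉ A' ∧ ¬ D.Conn ((M.erase f : Finset E) : Set E) x y := by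
  obtain ⟨F, hFA, hFc, hFmin⟩ := exists_min_conn hc
  have : ¬ F ⊆ A' := fun h' => hc' (hFc.mono (Finset.coe_subset.2 h'))
  obtain ⟨f, hfF, hfA'⟩ := Finset.not_subset.1 this
  refine ⟨f, hFA hfF, hfA', ?_⟩
  intro hcon
  have hsub : ((F.erase f : Finset E) : Set E) ⊆ ((M.erase f : Finset E) : Set E) :=
    Finset.coe_subset.2 (Finset.erase_subset_erase f (hFA.trans hA))
  have hsplit : D.Conn (Insert.insert f ((F.erase f : Finset E) : Set E)) x y := by
    rw [← Finset.coe_insert, Finset.insert_erase hfF]; exact hFc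
  apply h f (hA (hFA hfF))
  rcases conn_insert hsplit with h1 | ⟨h1, h2⟩ | ⟨h1, h2⟩
  · exact absurd h1 (hFmin f hfF)
  · exact (h1.mono hsub).symm.trans (hcon.trans (h2.mono hsub).symm)
  · exact (h2.mono hsub).trans (hcon.symm.trans (h1.mono hsub))

section conflict

variable (R : E → E → Prop)

/-- The edge `e` conflicts with a member of `U`. -/
def Tch (U : Finset E) (e : E) : Prop := ∃ g ∈ U, R e g

/-- Pairwise conflict free sets of edges. -/
def CF (M : Finset E) : Prop := ∀ e ∈ M, ∀ f ∈ M, R e f → e = f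

/-- The growing blocking sets. -/
noncomputable def HW (M : Finset E) (s : ℕ → E) : ℕ → Finset E
  | 0 => ∅
  | i + 1 => insert (s i) (HW M s i ∪ M.filter (fun f => R f (s i)))

/-- Elements of `M` without conflict with `U`. -/
noncomputable def avo (M U : Finset E) : Finset E := M.filter (fun f => ¬ Tch R U f)

/-- Elements of `M` in conflict with `U`. -/
noncomputable def tou (M U : Finset E) : Finset E := M.filter (fun f => Tch R U f)

variable {R}

theorem mem_avo {M U : Finset E} {f : E} :
    f ∈ avo R M U ↔ f ∈ M ∧ ¬ Tch R U f := Finset.mem_filter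

theorem mem_tou {M U : Finset E} {f : E} :
    f ∈ tou R M U ↔ f ∈ M ∧ Tch R U f := Finset.mem_filter

theorem Tch.mono {U U' : Finset E} (h : U ⊆ U') {e : E} (he : Tch R U e) : Tch R U' e := by
  obtain ⟨g, hg, h'⟩ := he
  exact ⟨g, h hg, h'⟩

theorem HW_succ (M : Finset E) (s : ℕ → E) (i : ℕ) : HW R M s (i + 1) =
    insert (s i) (HW R M s i ∪ M.filter (fun f => R f (s i))) := rfl

theorem HW_subset_succ (M : Finset E) (s : ℕ → E) (i : ℕ) : HW R M s i ⊆ HW R M s (i + 1) := by
  rw [HW_succ]
  exact (Finset.subset_union_left).trans (Finset.subset_insert _ _)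

theorem HW_mono (M : Finset E) (s : ℕ → E) {i j : ℕ} (h : i ≤ j) :
    HW R M s i ⊆ HW R M s j := by
  induction h with
  | refl => exact Finset.Subset.refl _
  | step _ ih => exact ih.trans (HW_subset_succ _ _ _)

theorem mem_HW_succ (M : Finset E) (s : ℕ → E) (i : ℕ) : s i ∈ HW R M s (i + 1) := by
  rw [HW_succ]
  exact Finset.mem_insert_self _ _

/-- A member of `M` in conflict with a blocking set belongs to it. -/
theorem CF.mem_HW {M : Finset E} (h : CF R M) (s : ℕ → E) {i : ℕ} {g : E} (hg : g ∈ M)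
    (ht : Tch R (HW R M s i) g) : g ∈ HW R M s i := by
  induction i with
  | zero =>
    obtain ⟨w, hw, -⟩ := ht
    exact absurd hw (Finset.notMem_empty _)
  | succ i ih =>
    obtain ⟨w, hw, hgw⟩ := ht
    rw [HW_succ, Finset.mem_insert, Finset.mem_union] at hw
    rcases hw with rfl | hw | hw
    · rw [HW_succ, Finset.mem_insert, Finset.mem_union]
      exact Or.inr (Or.inr (Finset.mem_filter.2 ⟨hg, hgw⟩))
    · exact HW_subset_succ _ _ _ (ih ⟨w, hw, hgw⟩)
    · have h1 := h g hg w (Finset.mem_filter.1 hw).1 hgw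
      subst h1
      rw [HW_succ, Finset.mem_insert, Finset.mem_union]
      exact Or.inr (Or.inr hw)

/-- Valid states of the search. -/
structure HValid (D : PG B E P) (R : E → E → Prop) (r : ℕ) (M : Finset E) (s : ℕ → E) (k : ℕ) :
    Prop where
  forest : D.Forest M
  cf : CF R M
  card : M.card = r
  avoid : ∀ i < k, ¬ Tch R (HW R M s i) (s i)
  free : ∀ i < k, ¬ D.Conn (avo R M (HW R M s i) : Set E) (D.src (s i)) (D.tgt (s i))

theorem avo_mono {M U U' : Finset E} (h : U ⊆ U') : avo R M U' ⊆ avo R M U := by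
  intro f hf
  rw [mem_avo] at hf ⊢
  exact ⟨hf.1, fun h' => hf.2 (h'.mono h)⟩

theorem avo_zero {M : Finset E} (s : ℕ → E) : avo R M (HW R M s 0) = M := by
  ext f
  rw [mem_avo]
  simp [HW, Tch]

/-- The swap step. -/
theorem HValid.swap {r : ℕ} {M : Finset E} {s : ℕ → E} {k : ℕ} (hrefl : ∀ e, R e e)
    (hsymm : ∀ e f, R e f → R f e)
    (hr : ∀ M' : Finset E, D.Forest M' → CF R M' → M'.card ≤ r)
    (hv : HValid D R r M s k) {e : E} (he : ¬ Tch R (HW R M s k) e)
    (hc : ¬ D.Conn (avo R M (HW R M s k) : Set E) (D.src e) (D.tgt e))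
    (hfree : ∀ f ∈ M, ¬ R f e) :
    ∃ j < k, ∃ M', HValid D R r M' s (j + 1) ∧
      (∀ i < j, (tou R M' (HW R M' s (i + 1))).card = (tou R M (HW R M s (i + 1))).card) ∧
      (tou R M' (HW R M' s (j + 1))).card < (tou R M (HW R M s (j + 1))).card := by
  have heM : e ∉ M := fun h => hfree e h (hrefl e)
  -- `e` is spanned by `M`
  have hspan : D.Conn (M : Set E) (D.src e) (D.tgt e) := by
    by_contra hcon
    have h1 : D.Forest (insert e M) := hv.forest.insert hcon
    have h2 : CF R (insert e M) := by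
      intro f hf g hg hfg
      rw [Finset.mem_insert] at hf hg
      rcases hf with rfl | hf
      · rcases hg with rfl | hg
        · rfl
        · exact absurd (hsymm _ _ hfg) (hfree g hg)
      · rcases hg with rfl | hg
        · exact absurd hfg (hfree f hf)
        · exact hv.cf f hf g hg hfg
    have h3 := hr _ h1 h2
    rw [Finset.card_insert_of_notMem heM, hv.card] at h3
    omega
  -- the critical index
  have hex : ∃ j < k, D.Conn (avo R M (HW R M s j) : Set E) (D.src e) (D.tgt e) ∧
      ¬ D.Conn (avo R M (HW R M s (j + 1)) : Set E) (D.src e) (D.tgt e) := by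
    have h0 : D.Conn (avo R M (HW R M s 0) : Set E) (D.src e) (D.tgt e) := by
      rw [avo_zero]; exact hspan
    clear hv
    induction k with
    | zero => exact absurd h0 hc
    | succ k ih =>
      by_cases hk : D.Conn (avo R M (HW R M s k) : Set E) (D.src e) (D.tgt e)
      · exact ⟨k, Nat.lt_succ_self k, hk, hc⟩
      · obtain ⟨j, hj, h⟩ := ih (fun h => he (h.mono (HW_subset_succ _ _ _))) hk
        exact ⟨j, Nat.lt_succ_of_lt hj, h⟩
  obtain ⟨j, hjk, hj1, hj2⟩ := hex
  obtain ⟨f, hfA, hfA', hfc⟩ := hv.forest.exchange (Finset.filter_subset _ _) hj1 hj2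
  have hfM : f ∈ M := (mem_avo.1 hfA).1
  have hfj : ¬ Tch R (HW R M s j) f := (mem_avo.1 hfA).2
  have hfj1 : Tch R (HW R M s (j + 1)) f := by
    by_contra hcon
    exact hfA' (mem_avo.2 ⟨hfM, hcon⟩)
  set M' := insert e (M.erase f) with hM'
  have heM' : e ∉ M.erase f := fun h => heM (Finset.mem_of_mem_erase h)
  have hforest : D.Forest M' := (hv.forest.subset (Finset.erase_subset _ _)).insert hfc
  have hcf : CF R M' := by
    intro a ha b hb hab
    rw [hM', Finset.mem_insert] at ha hb
    rcases ha with rfl | ha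
    · rcases hb with rfl | hb
      · rfl
      · exact absurd (hsymm _ _ hab) (hfree b (Finset.mem_of_mem_erase hb))
    · rcases hb with rfl | hb
      · exact absurd hab (hfree a (Finset.mem_of_mem_erase ha))
      · exact hv.cf a (Finset.mem_of_mem_erase ha) b (Finset.mem_of_mem_erase hb) hab
  have hcard : M'.card = r := by
    rw [hM', Finset.card_insert_of_notMem heM', Finset.card_erase_add_one hfM, hv.card]
  have heW : ∀ i ≤ k, ¬ Tch R (HW R M s i) e := fun i hi h => he (h.mono (HW_mono _ _ hi))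
  have hfW : ∀ i ≤ j, ¬ Tch R (HW R M s i) f := fun i hi h => hfj (h.mono (HW_mono _ _ hi))
  have hed : ∀ i < k, ¬ R e (s i) := fun i hi h =>
    heW (i + 1) hi ⟨s i, mem_HW_succ _ _ _, h⟩
  have hfd : ∀ i < j, ¬ R f (s i) := fun i hi h =>
    hfW (i + 1) hi ⟨s i, mem_HW_succ _ _ _, h⟩
  have hWeq : ∀ i ≤ j, HW R M' s i = HW R M s i := by
    intro i
    induction i with
    | zero => intro _; rfl
    | succ i ih =>
      intro hi
      rw [HW_succ, HW_succ, ih (by omega)]
      congr 2
      ext g
      rw [Finset.mem_filter, Finset.mem_filter, hM', Finset.mem_insert, Finset.mem_erase]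
      constructor
      · rintro ⟨rfl | ⟨h1, h2⟩, h3⟩
        · exact absurd h3 (hed i (by omega))
        · exact ⟨h2, h3⟩
      · rintro ⟨h2, h3⟩
        refine ⟨Or.inr ⟨?_, h2⟩, h3⟩
        rintro rfl
        exact hfd i (by omega) h3
  have htou : ∀ i ≤ j, tou R M' (HW R M s i) = tou R M (HW R M s i) := by
    intro i hi
    ext g
    rw [mem_tou, mem_tou, hM', Finset.mem_insert, Finset.mem_erase]
    constructor
    · rintro ⟨rfl | ⟨h1, h2⟩, h3⟩
      · exact absurd h3 (heW i (by omega))
      · exact ⟨h2, h3⟩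
    · rintro ⟨h2, h3⟩
      refine ⟨Or.inr ⟨?_, h2⟩, h3⟩
      rintro rfl
      exact hfW i hi h3
  refine ⟨j, hjk, M', ⟨hforest, hcf, hcard, ?_, ?_⟩, ?_, ?_⟩
  · intro i hi
    rw [hWeq i (by omega)]
    exact hv.avoid i (by omega)
  · intro i hi hcon
    rw [hWeq i (by omega)] at hcon
    apply hv.free i (by omega)
    refine Conn.lift ?_ hcon
    intro g hg
    rw [Finset.mem_coe, mem_avo, hM', Finset.mem_insert] at hg
    obtain ⟨rfl | hg1, hg2⟩ := hg
    · exact hj1.mono (Finset.coe_subset.2 (avo_mono (HW_mono _ _ (by omega))))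
    · exact Conn.of_mem (Finset.mem_coe.2 (mem_avo.2 ⟨Finset.mem_of_mem_erase hg1, hg2⟩))
  · intro i hi
    rw [hWeq (i + 1) (by omega), htou (i + 1) (by omega)]
  · have hsub : HW R M' s (j + 1) ⊆ HW R M s (j + 1) := by
      rw [HW_succ, HW_succ, hWeq j le_rfl]
      apply Finset.insert_subset_insert
      apply Finset.union_subset_union (Finset.Subset.refl _)
      intro g hg
      rw [Finset.mem_filter, hM', Finset.mem_insert] at hg
      obtain ⟨rfl | hg1, hg2⟩ := hg
      · exact absurd hg2 (hed j hjk)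
      · exact Finset.mem_filter.2 ⟨Finset.mem_of_mem_erase hg1, hg2⟩
    have h1 : tou R M' (HW R M' s (j + 1)) ⊆ (tou R M (HW R M s (j + 1))).erase f := by
      intro g hg
      rw [mem_tou, hM', Finset.mem_insert, Finset.mem_erase] at hg
      obtain ⟨rfl | ⟨hg1, hg2⟩, hg3⟩ := hg
      · exact absurd (hg3.mono hsub) (heW (j + 1) hjk)
      · exact Finset.mem_erase.2 ⟨hg1, mem_tou.2 ⟨hg2, hg3.mono hsub⟩⟩
    have h2 := Finset.card_le_card h1
    have h3 : f ∈ tou R M (HW R M s (j + 1)) := mem_tou.2 ⟨hfM, hfj1⟩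
    have h4 := Finset.card_erase_lt_of_mem h3
    omega

/-- Growth of the blocking sets. -/
theorem HValid.card_HW {Q : Type*} (pos : E → Finset Q) {t₁ t₂ : ℕ} {r : ℕ} {M : Finset E}
    {s : ℕ → E} {k : ℕ} (hsymm : ∀ e f, R e f → R f e)
    (h1 : ∀ e, (pos e).card ≤ t₁) (h2 : ∀ e f, R f e → (pos f \ pos e).card ≤ t₂)
    (hv : HValid D R r M s k) (hb : ∀ i < k, ∃ f ∈ M, R f (s i)) :
    ((HW R M s k).biUnion pos).card ≤ (t₁ + t₂) * (tou R M (HW R M s k)).card := by
  have key : ∀ i ≤ k, ((HW R M s i).biUnion pos).card ≤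
      (t₁ + t₂) * (tou R M (HW R M s i)).card := by
    intro i
    induction i with
    | zero => intro _; simp [HW]
    | succ i ih =>
      intro hi
      have ih' := ih (by omega)
      set Cf := M.filter (fun f => R f (s i)) with hCf
      have hCpos : 1 ≤ Cf.card := by
        obtain ⟨f, hf, hf'⟩ := hb i hi
        exact Finset.card_pos.2 ⟨f, Finset.mem_filter.2 ⟨hf, hf'⟩⟩
      have hdisj : Disjoint (tou R M (HW R M s i)) Cf := by
        rw [Finset.disjoint_left]
        intro g hg hg'
        rw [mem_tou] at hg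
        have h3 := hv.cf.mem_HW s hg.1 hg.2
        exact hv.avoid i hi ⟨g, h3, hsymm _ _ (Finset.mem_filter.1 hg').2⟩
      have hsub : tou R M (HW R M s i) ∪ Cf ⊆ tou R M (HW R M s (i + 1)) := by
        intro g hg
        rw [Finset.mem_union] at hg
        rcases hg with hg | hg
        · rw [mem_tou] at hg ⊢
          exact ⟨hg.1, hg.2.mono (HW_subset_succ _ _ _)⟩
        · rw [mem_tou]
          exact ⟨(Finset.mem_filter.1 hg).1, s i, mem_HW_succ _ _ _, (Finset.mem_filter.1 hg).2⟩
      have h3 := Finset.card_le_card hsub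
      rw [Finset.card_union_of_disjoint hdisj] at h3
      have h4 : (HW R M s (i + 1)).biUnion pos = (HW R M s i).biUnion pos ∪ pos (s i) ∪
          Cf.biUnion (fun g => pos g \ pos (s i)) := by
        rw [HW_succ]
        ext c
        simp only [Finset.mem_union, Finset.mem_biUnion, Finset.mem_sdiff, hCf,
          Finset.mem_insert]
        constructor
        · rintro ⟨g, rfl | h | hg, hc⟩
          · exact Or.inl (Or.inr hc)
          · exact Or.inl (Or.inl ⟨g, h, hc⟩)
          · by_cases hcs : c ∈ pos (s i)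
            · exact Or.inl (Or.inr hcs)
            · exact Or.inr ⟨g, hg, hc, hcs⟩
        · rintro ((⟨g, h, hc⟩ | h) | ⟨g, hg, hc, -⟩)
          · exact ⟨g, Or.inr (Or.inl h), hc⟩
          · exact ⟨s i, Or.inl rfl, h⟩
          · exact ⟨g, Or.inr (Or.inr hg), hc⟩
      have h5 : (Cf.biUnion (fun g => pos g \ pos (s i))).card ≤ Cf.card * t₂ := by
        refine (Finset.card_biUnion_le).trans ?_
        calc ∑ g ∈ Cf, (pos g \ pos (s i)).card ≤ ∑ _g ∈ Cf, t₂ := by
              apply Finset.sum_le_sum
              intro g hg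
              exact h2 _ _ (Finset.mem_filter.1 hg).2
          _ = Cf.card * t₂ := by rw [Finset.sum_const, smul_eq_mul]
      have h6 : ((HW R M s (i + 1)).biUnion pos).card ≤
          ((HW R M s i).biUnion pos).card + t₁ + Cf.card * t₂ := by
        rw [h4]
        refine (Finset.card_union_le _ _).trans ?_
        have h7 := Finset.card_union_le ((HW R M s i).biUnion pos) (pos (s i))
        have := h1 (s i)
        omega
      have h7 : (t₁ + t₂) * ((tou R M (HW R M s i)).card + Cf.card) ≤
          (t₁ + t₂) * (tou R M (HW R M s (i + 1))).card := Nat.mul_le_mul_left _ h3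
      have h8 : t₁ * 1 ≤ t₁ * Cf.card := Nat.mul_le_mul_left _ hCpos
      have e1 : (t₁ + t₂) * ((tou R M (HW R M s i)).card + Cf.card) =
          (t₁ + t₂) * (tou R M (HW R M s i)).card + t₁ * Cf.card + Cf.card * t₂ := by ring
      omega
  exact key k le_rfl

/-- The Haxell type lemma. -/
theorem haxell [Fintype E] [Nonempty B] (D : PG B E P) (R : E → E → Prop) (hrefl : ∀ e, R e e)
    (hsymm : ∀ e f, R e f → R f e) {Q : Type*} (pos : E → Finset Q) {t₁ t₂ : ℕ}
    (h1 : ∀ e, (pos e).card ≤ t₁) (h2 : ∀ e f, R f e → (pos f \ pos e).card ≤ t₂) :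
    (∃ M : Finset E, D.Forest M ∧ CF R M ∧ ∀ e, D.Conn (M : Set E) (D.src e) (D.tgt e)) ∨
    ∃ (M U : Finset E), D.Forest M ∧ CF R M ∧
      (∃ e, ¬ D.Conn (M : Set E) (D.src e) (D.tgt e)) ∧
      (U.biUnion pos).card ≤ (t₁ + t₂) * (tou R M U).card ∧
      ∀ e, ¬ Tch R U e → D.Conn (avo R M U : Set E) (D.src e) (D.tgt e) := by
  -- a conflict free forest of maximum size
  obtain ⟨M₀, hM₀, hM₀max⟩ := ((Finset.univ : Finset (Finset E)).filter
    (fun M => D.Forest M ∧ CF R M)).exists_max_image Finset.card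
    ⟨∅, Finset.mem_filter.2 ⟨Finset.mem_univ _, Forest.empty, by intro e he; exact absurd he (Finset.notMem_empty _)⟩⟩
  set r := M₀.card with hrdef
  have hM₀' := (Finset.mem_filter.1 hM₀).2
  have hr : ∀ M' : Finset E, D.Forest M' → CF R M' → M'.card ≤ r := fun M' h1 h2 =>
    hM₀max M' (Finset.mem_filter.2 ⟨Finset.mem_univ _, h1, h2⟩)
  by_cases hsp : ∀ e, D.Conn (M₀ : Set E) (D.src e) (D.tgt e)
  · exact Or.inl ⟨M₀, hM₀'.1, hM₀'.2, hsp⟩
  right
  push Not at hsp
  obtain ⟨e₀, he₀⟩ := hsp
  set K := Fintype.card E + 1 with hK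
  -- vectors
  let vec : Finset E × (ℕ → E) × ℕ → (Fin K → ℕ) := fun st i =>
    if (i : ℕ) < st.2.2 then (tou R st.1 (HW R st.1 st.2.1 (i + 1))).card else K
  have hinj : ∀ (M : Finset E) (s : ℕ → E) (k : ℕ), HValid D R r M s k → k < K := by
    intro M s k hv
    have h1 : Set.InjOn s (Set.Iio k) := by
      have aux : ∀ i j, i < j → j < k → s i ≠ s j := by
        intro i j hij hj heq
        apply hv.avoid j hj
        refine ⟨s i, HW_mono _ _ hij (mem_HW_succ _ _ _), ?_⟩
        rw [heq]; exact hrefl _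
      intro i hi j hj hij
      rcases lt_trichotomy i j with h | h | h
      · exact absurd hij (aux i j h hj)
      · exact h
      · exact absurd hij.symm (aux j i h hi)
    have h3 : (Finset.range k).card ≤ (Finset.univ : Finset E).card := by
      apply Finset.card_le_card_of_injOn s (fun i _ => Finset.mem_coe.2 (Finset.mem_univ _))
      intro i hi j hj hij
      exact h1 (by simpa using hi) (by simpa using hj) hij
    rw [Finset.card_range, Finset.card_univ] at h3
    omega
  have hlt : ∀ a b : Fin K → ℕ, (∃ i, (∀ j < i, a j = b j) ∧ a i < b i) →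
      Pi.Lex (· < ·) (· < ·) a b := fun a b h => h
  have hwf : WellFounded (Pi.Lex (ι := Fin K) (β := fun _ => ℕ) (· < ·) (· < ·)) :=
    Pi.Lex.wellFounded (r := (· < ·)) (fun _ => wellFounded_lt)
  set Sset : Set (Fin K → ℕ) := {v | ∃ M s k, HValid D R r M s k ∧ vec (M, s, k) = v} with hS
  have hSne : Sset.Nonempty := by
    refine ⟨vec (M₀, fun _ => e₀, 0), M₀, fun _ => e₀, 0, ⟨hM₀'.1, hM₀'.2, rfl, ?_, ?_⟩, rfl⟩
    · intro i hi; exact absurd hi (Nat.not_lt_zero _)
    · intro i hi; exact absurd hi (Nat.not_lt_zero _)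
  obtain ⟨M, s, k, hv, hvec⟩ := hwf.min_mem Sset hSne
  have hmin : ∀ M' s' k', HValid D R r M' s' k' → ¬ Pi.Lex (· < ·) (· < ·) (vec (M', s', k')) (vec (M, s, k)) := by
    intro M' s' k' hv' hlex
    rw [hvec] at hlex
    exact hwf.not_lt_min Sset ⟨M', s', k', hv', rfl⟩ hlex
  have hkK := hinj M s k hv
  -- no free elements
  have hnofree : ∀ l ≤ k, ∀ e, ¬ Tch R (HW R M s l) e →
      ¬ D.Conn (avo R M (HW R M s l) : Set E) (D.src e) (D.tgt e) →
      ∃ f ∈ M, R f e := by
    intro l hl e he hc
    by_contra hcon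
    push Not at hcon
    have hvl : HValid D R r M s l := ⟨hv.forest, hv.cf, hv.card,
      fun i hi => hv.avoid i (by omega), fun i hi => hv.free i (by omega)⟩
    obtain ⟨j, hj, M', hv', h3, h4⟩ := hvl.swap hrefl hsymm hr he hc hcon
    apply hmin M' s (j + 1) hv'
    apply hlt
    refine ⟨⟨j, by omega⟩, ?_, ?_⟩
    · intro i hi
      have hi' : (i : ℕ) < j := hi
      simp only [vec]
      rw [if_pos (by omega), if_pos (by omega)]
      exact h3 i hi'
    · simp only [vec]
      rw [if_pos (by omega), if_pos (by omega)]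
      exact h4
  refine ⟨M, HW R M s k, hv.forest, hv.cf, ?_, ?_, ?_⟩
  · -- `M` does not span
    by_contra hcon
    push Not at hcon
    have h1 := hv.forest.card
    have h3 := hM₀'.1.card
    rw [hv.card] at h1
    have h4 : D.ncomp (insert e₀ (M₀ : Set E)) + 1 ≤ D.ncomp (M₀ : Set E) :=
      ncomp_insert_of_not_conn he₀
    have h5 : D.ncomp (M : Set E) ≤ D.ncomp (insert e₀ (M₀ : Set E)) := by
      unfold PG.ncomp
      let f : Quotient (D.setoid (insert e₀ (M₀ : Set E))) → Quotient (D.setoid (M : Set E)) :=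
        Quotient.map' id (fun a b hab => Conn.lift (fun e _ => hcon e) hab)
      -- a surjection in the other direction is needed
      have h6 : D.ncomp (M : Set E) ≤ D.ncomp (insert e₀ (M₀ : Set E)) := by
        unfold PG.ncomp
        apply Nat.card_le_card_of_surjective f
        intro q
        induction q using Quotient.inductionOn with
        | h a => exact ⟨Quotient.mk _ a, rfl⟩
      exact h6
    omega
  · apply hv.card_HW pos hsymm h1 h2
    intro i hi
    exact hnofree i (by omega) (s i) (hv.avoid i hi) (hv.free i hi)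
  · intro e he
    by_contra hc
    obtain ⟨f, hf, hfe⟩ := hnofree k le_rfl e he hc
    -- extend
    set s' := Function.update s k e with hs'
    have hWeq : ∀ i ≤ k, HW R M s' i = HW R M s i := by
      intro i
      induction i with
      | zero => intro _; rfl
      | succ i ih =>
        intro hi
        have h3 : s' i = s i := by
          rw [hs', Function.update_of_ne (by omega)]
        rw [HW_succ, HW_succ, ih (by omega), h3]
    have hsi : ∀ i < k, s' i = s i := by
      intro i hi
      rw [hs', Function.update_of_ne (by omega)]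
    have hsk : s' k = e := by rw [hs', Function.update_self]
    have hv' : HValid D R r M s' (k + 1) := by
      refine ⟨hv.forest, hv.cf, hv.card, ?_, ?_⟩
      · intro i hi
        rw [hWeq i (by omega)]
        rcases Nat.lt_succ_iff_lt_or_eq.1 hi with h | h
        · rw [hsi i h]; exact hv.avoid i h
        · subst h; rw [hsk]; exact he
      · intro i hi
        rw [hWeq i (by omega)]
        rcases Nat.lt_succ_iff_lt_or_eq.1 hi with h | h
        · rw [hsi i h]; exact hv.free i h
        · subst h; rw [hsk]; exact hc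
    apply hmin M s' (k + 1) hv'
    apply hlt
    refine ⟨⟨k, hkK⟩, ?_, ?_⟩
    · intro i hi
      have hi' : (i : ℕ) < k := hi
      simp only [vec]
      rw [if_pos (by omega), if_pos (by omega), hWeq _ (by omega)]
    · simp only [vec]
      rw [if_pos (by omega), if_neg (by omega)]
      have h3 := Finset.card_le_univ (tou R M (HW R M s' (k + 1)))
      omega

end conflict

end PG

end Pool.Agent.Lib.MP_688fd0_co
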