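import Pool.Agent.Lib.MP_688fd0_co.Assembly

/-!
Hamiltonian cycles through prescribed matchings in dense graphs, and the local density criterion.
-/

namespace Pool.Agent.Lib.MP_688fd0_co

set_option linter.unusedSectionVars false

open Classical

section lists

variable {V : Type*}

theorem dg_two [Fintype V] {Γ : SimpleGraph V} {x : V} (b c : V) (hbc : b ≠ c)
    (h : ∀ y, Γ.Adj x y ↔ (y = b ∨ y = c)) : dg Γ x = 2 := by
  unfold dg
  have : Finset.univ.filter (fun y => Γ.Adj x y) = {b, c} := by
    ext y
    rw [Finset.mem_filter, h, Finset.mem_insert, Finset.mem_singleton]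
    simp
  rw [this, Finset.card_pair hbc]

theorem mem_of_mem_pe {l : List V} {e : Sym2 V} (he : e ∈ pe l) {z : V} (hz : z ∈ e) : z ∈ l := by
  induction l with
  | nil => simp at he
  | cons a t ih =>
    cases t with
    | nil => simp at he
    | cons b t' =>
      rw [pe_cons_cons, Set.mem_insert_iff] at he
      rcases he with rfl | he
      · rw [Sym2.mem_iff] at hz
        rcases hz with rfl | rfl <;> simp
      · exact List.mem_cons_of_mem _ (ih he)

theorem mem_of_mem_ce {l : List V} {e : Sym2 V} (he : e ∈ ce l) {z : V} (hz : z ∈ e) : z ∈ l := by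
  cases l with
  | nil => simp at he
  | cons a t =>
    rw [ce_cons] at he
    have := mem_of_mem_pe he hz
    simp only [List.cons_append, List.mem_cons, List.mem_append, List.not_mem_nil, or_false] at this ⊢
    rcases this with h | h | h
    · exact Or.inl h
    · exact Or.inr h
    · exact Or.inl h

/-- Neighbours along a cyclic list without repetitions. -/
theorem ce_nbr {x b c : V} {mid : List V} (hn : (x :: b :: (mid ++ [c])).Nodup) (y : V) :
    s(x, y) ∈ ce (x :: b :: (mid ++ [c])) ↔ (y = b ∨ y = c) := by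
  have h1 : ce (x :: b :: (mid ++ [c])) = {s(x, b)} ∪ pe (b :: (mid ++ [c])) ∪ {s(c, x)} := by
    rw [ce_cons]
    have e1 : x :: b :: (mid ++ [c]) ++ [x] = x :: b :: (mid ++ c :: [x]) := by simp
    rw [e1, pe_cons_cons]
    have e2 : b :: (mid ++ c :: [x]) = (b :: mid) ++ c :: [x] := by simp
    rw [e2, pe_append]
    ext e
    simp only [List.cons_append, pe_cons_cons, pe_single, Set.mem_insert_iff, Set.mem_union,
      Set.mem_singleton_iff, Set.mem_empty_iff_false, or_false]
    exact (or_assoc).symm
  have hx : x ∉ b :: (mid ++ [c]) := (List.nodup_cons.1 hn).1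
  rw [h1]
  simp only [Set.mem_union, Set.mem_singleton_iff]
  constructor
  · rintro ((h | h) | h)
    · rw [Sym2.eq_iff] at h
      rcases h with ⟨-, rfl⟩ | ⟨rfl, rfl⟩
      · exact Or.inl rfl
      · exact Or.inl rfl
    · exact absurd (mem_of_mem_pe h (Sym2.mem_mk_left x y)) hx
    · rw [Sym2.eq_iff] at h
      rcases h with ⟨rfl, rfl⟩ | ⟨-, rfl⟩
      · exact Or.inr rfl
      · exact Or.inr rfl
  · rintro (rfl | rfl)
    · exact Or.inl (Or.inl rfl)
    · exact Or.inr Sym2.eq_swap

/-- Rotation to a given head. -/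
theorem exists_head {l : List V} (h3 : 3 ≤ l.length) (hn : l.Nodup) {x : V} (hx : x ∈ l) :
    ∃ b c mid, b ≠ c ∧ (x :: b :: (mid ++ [c])).Nodup ∧ ce l = ce (x :: b :: (mid ++ [c])) ∧
      (x :: b :: (mid ++ [c])).Perm l := by
  obtain ⟨xs, ys, rfl⟩ := List.append_of_mem hx
  have hlen : 2 ≤ (ys ++ xs).length := by
    simp only [List.length_append, List.length_cons] at h3 ⊢
    omega
  have hce : ce (xs ++ x :: ys) = ce (x :: (ys ++ xs)) := by
    rw [ce_rotate]; simp
  have hperm : (x :: (ys ++ xs)).Perm (xs ++ x :: ys) := by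
    have e : x :: (ys ++ xs) = (x :: ys) ++ xs := by simp
    rw [e]; exact List.perm_append_comm
  cases hyx : ys ++ xs with
  | nil => rw [hyx] at hlen; simp at hlen
  | cons b t =>
    rcases List.eq_nil_or_concat' t with rfl | ⟨mid, c, rfl⟩
    · rw [hyx] at hlen; simp at hlen
    · rw [hyx] at hce hperm
      have hn' := hperm.nodup_iff.2 hn
      refine ⟨b, c, mid, ?_, hn', hce, hperm⟩
      rintro rfl
      have := (List.nodup_cons.1 (List.nodup_cons.1 hn').2).1
      simp at this

theorem not_diag_mem_ce {l : List V} (h3 : 3 ≤ l.length) (hn : l.Nodup) (x : V) :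
    s(x, x) ∉ ce l := by
  intro h
  have hx := mem_of_mem_ce h (Sym2.mem_mk_left x x)
  obtain ⟨b, c, mid, hbc, hn', hce, -⟩ := exists_head h3 hn hx
  rw [hce, ce_nbr hn'] at h
  have hx' := (List.nodup_cons.1 hn').1
  rcases h with rfl | rfl <;> simp at hx'

/-- The graph obtained from a cyclic list by deleting the pairs of an involution. -/
theorem graph_of_list [Fintype V] {l : List V} (h3 : 3 ≤ l.length) (hn : l.Nodup) (μ : V → V)
    (hμ : ∀ x, μ (μ x) = x) (hμl : ∀ u, μ u ≠ u → s(u, μ u) ∈ ce l) :
    ∃ Φ : SimpleGraph V, (∀ x y, Φ.Adj x y ↔ (s(x, y) ∈ ce l ∧ μ x ≠ y)) ∧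
      (∀ x ∈ l, dg Φ x = if μ x = x then 2 else 1) ∧
      ∀ x ∈ l, ∀ y ∈ l, Relation.EqvGen (fun a b => Φ.Adj a b ∨ μ a = b) x y := by
  set Φ : SimpleGraph V :=
    { Adj := fun x y => s(x, y) ∈ ce l ∧ μ x ≠ y
      symm := ⟨fun x y h => ⟨by rw [Sym2.eq_swap]; exact h.1, fun h' => h.2 (by rw [← h', hμ])⟩⟩
      loopless := ⟨fun x h => not_diag_mem_ce h3 hn x h.1⟩ } with hΦ
  have hadj : ∀ x y, Φ.Adj x y ↔ (s(x, y) ∈ ce l ∧ μ x ≠ y) := fun x y => Iff.rfl
  refine ⟨Φ, hadj, ?_, ?_⟩
  · intro x hx
    obtain ⟨b, c, mid, hbc, hn', hce, -⟩ := exists_head h3 hn hx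
    have hnb : ∀ y, s(x, y) ∈ ce l ↔ (y = b ∨ y = c) := by
      intro y; rw [hce, ce_nbr hn']
    have hx' := (List.nodup_cons.1 hn').1
    have hxb : x ≠ b := by rintro rfl; simp at hx'
    have hxc : x ≠ c := by rintro rfl; simp at hx'
    by_cases h : μ x = x
    · rw [if_pos h]
      apply dg_two b c hbc
      intro y
      rw [hadj, hnb, h]
      constructor
      · rintro ⟨h1, -⟩; exact h1
      · intro h1
        refine ⟨h1, ?_⟩
        rcases h1 with rfl | rfl
        · exact hxb
        · exact hxc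
    · rw [if_neg h]
      have h1 := (hnb _).1 (hμl x h)
      rcases h1 with h1 | h1
      · apply dg_one c
        intro y
        rw [hadj, hnb, h1]
        constructor
        · rintro ⟨h2 | h2, h4⟩
          · exact absurd h2.symm h4
          · exact h2
        · rintro rfl
          exact ⟨Or.inr rfl, hbc⟩
      · apply dg_one b
        intro y
        rw [hadj, hnb, h1]
        constructor
        · rintro ⟨h2 | h2, h4⟩
          · exact h2
          · exact absurd h2.symm h4
        · rintro rfl
          exact ⟨Or.inl rfl, hbc.symm⟩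
  · have hedge : ∀ a b, s(a, b) ∈ ce l → Relation.EqvGen (fun a b => Φ.Adj a b ∨ μ a = b) a b := by
      intro a b hab
      apply Relation.EqvGen.rel
      by_cases h : μ a = b
      · exact Or.inr h
      · exact Or.inl ⟨hab, h⟩
    have hpath : ∀ t : List V, pe t ⊆ ce l → ∀ a ∈ t, ∀ b ∈ t,
        Relation.EqvGen (fun a b => Φ.Adj a b ∨ μ a = b) a b := by
      intro t
      induction t with
      | nil => intro _ a ha; simp at ha
      | cons c t ih =>
        cases t with
        | nil =>
          intro _ a ha b hb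
          rw [List.mem_singleton] at ha hb
          rw [ha, hb]; exact Relation.EqvGen.refl _
        | cons d t' =>
          intro hsub
          rw [pe_cons_cons, Set.insert_subset_iff] at hsub
          have ih' := ih hsub.2
          have hcd := hedge _ _ hsub.1
          intro a ha b hb
          rw [List.mem_cons] at ha hb
          rcases ha with rfl | ha <;> rcases hb with rfl | hb
          · exact Relation.EqvGen.refl _
          · exact Relation.EqvGen.trans _ _ _ hcd (ih' d (by simp) b hb)
          · exact Relation.EqvGen.trans _ _ _ (ih' a ha d (by simp)) (Relation.EqvGen.symm _ _ hcd)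
          · exact ih' a ha b hb
    intro x hx y hy
    apply hpath l ?_ x hx y hy
    cases l with
    | nil => simp
    | cons a t =>
      rw [ce_cons]
      intro e he
      have : pe (a :: t) ⊆ pe (a :: t ++ [a]) := by
        rcases List.eq_nil_or_concat' t with rfl | ⟨t', c, rfl⟩
        · simp
        · have e1 : a :: (t' ++ [c]) ++ [a] = (a :: t') ++ c :: [a] := by simp
          have e2 : a :: (t' ++ [c]) = (a :: t') ++ [c] := by simp
          rw [e1, pe_append, ← e2]
          exact Set.subset_union_left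
      exact this he

/-- Initial list compatible with an involution. -/
theorem exists_init_list (μ : V → V) (hμ : ∀ x, μ (μ x) = x) (n : ℕ) :
    ∀ X : Finset V, X.card = n → (∀ x ∈ X, μ x ∈ X) →
    ∃ l : List V, l.Nodup ∧ (∀ v, v ∈ l ↔ v ∈ X) ∧ ∀ u ∈ X, μ u ≠ u → s(u, μ u) ∈ pe l := by
  induction n using Nat.strong_induction_on with
  | _ n ih =>
    intro X hX hXμ
    rcases X.eq_empty_or_nonempty with rfl | ⟨u, hu⟩
    · exact ⟨[], List.nodup_nil, by simp, by simp⟩
    by_cases h : μ u = u
    · have h1 := Finset.card_erase_add_one hu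
      obtain ⟨l, hl1, hl2, hl3⟩ := ih (X.erase u).card (by omega) (X.erase u) rfl (by
        intro x hx
        rw [Finset.mem_erase] at hx ⊢
        refine ⟨?_, hXμ x hx.2⟩
        intro h'
        apply hx.1
        rw [← hμ x, h', h])
      refine ⟨u :: l, ?_, ?_, ?_⟩
      · rw [List.nodup_cons]
        refine ⟨?_, hl1⟩
        rw [hl2]; simp
      · intro v
        rw [List.mem_cons, hl2, Finset.mem_erase]
        constructor
        · rintro (rfl | h')
          · exact hu
          · exact h'.2
        · intro h'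
          by_cases hv : v = u
          · exact Or.inl hv
          · exact Or.inr ⟨hv, h'⟩
      · intro w hw hw'
        have hwu : w ≠ u := by rintro rfl; exact hw' h
        have h2 := hl3 w (Finset.mem_erase.2 ⟨hwu, hw⟩) hw'
        cases l with
        | nil => simp at h2
        | cons a t => rw [pe_cons_cons]; exact Or.inr h2
    · have hμu : μ u ∈ X := hXμ u hu
      have hμuE : μ u ∈ X.erase u := Finset.mem_erase.2 ⟨h, hμu⟩
      have h1 := Finset.card_erase_add_one hu
      have h2 := Finset.card_erase_add_one hμuE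
      obtain ⟨l, hl1, hl2, hl3⟩ := ih ((X.erase u).erase (μ u)).card (by omega)
        ((X.erase u).erase (μ u)) rfl (by
          intro x hx
          rw [Finset.mem_erase, Finset.mem_erase] at hx ⊢
          refine ⟨?_, ?_, hXμ x hx.2.2⟩
          · intro h'
            apply hx.2.1
            rw [← hμ x, h', hμ]
          · intro h'
            apply hx.1
            rw [← hμ x, h'])
      refine ⟨u :: μ u :: l, ?_, ?_, ?_⟩
      · rw [List.nodup_cons, List.nodup_cons]
        refine ⟨?_, ?_, hl1⟩
        · rw [List.mem_cons, hl2]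
          simp [Ne.symm h]
        · rw [hl2]; simp
      · intro v
        rw [List.mem_cons, List.mem_cons, hl2, Finset.mem_erase, Finset.mem_erase]
        constructor
        · rintro (rfl | rfl | h')
          · exact hu
          · exact hμu
          · exact h'.2.2
        · intro h'
          by_cases hv : v = u
          · exact Or.inl hv
          · by_cases hv' : v = μ u
            · exact Or.inr (Or.inl hv')
            · exact Or.inr (Or.inr ⟨hv', hv, h'⟩)
      · intro w hw hw'
        rw [pe_cons_cons]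
        by_cases hwu : w = u
        · subst hwu; exact Or.inl rfl
        · by_cases hwμ : w = μ u
          · subst hwμ
            left
            rw [hμ]; exact Sym2.eq_swap
          · right
            have h4 := hl3 w (Finset.mem_erase.2 ⟨hwμ, Finset.mem_erase.2 ⟨hwu, hw⟩⟩) hw'
            cases l with
            | nil => simp at h4
            | cons a t => rw [pe_cons_cons]; exact Or.inr h4

/-- Prescribed matchings in dense graphs. -/
theorem posa (adj : V → V → Prop) (hsymm : ∀ x y, adj x y → adj y x) (μ : V → V)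
    (hμ : ∀ x, μ (μ x) = x) (X : Finset V) (hμX : ∀ x, μ x ≠ x → x ∈ X) (h3 : 3 ≤ X.card) (q : ℕ)
    (hq : (X.filter (fun x => μ x ≠ x)).card ≤ 2 * q + 1)
    (hdeg : ∀ x ∈ X, X.card + q ≤ 2 * (X.filter (fun y => y ≠ x ∧ adj x y)).card) :
    ∃ l : List V, l.Nodup ∧ (∀ v, v ∈ l ↔ v ∈ X) ∧ (∀ u, μ u ≠ u → s(u, μ u) ∈ ce l) ∧
      ∀ x y, s(x, y) ∈ ce l → (adj x y ∨ μ x = y) := by
  set Bad : Set (Sym2 V) := {e | ∃ x y, e = s(x, y) ∧ ¬ adj x y ∧ μ x ≠ y} with hBad
  have hbad : ∀ x y, s(x, y) ∈ Bad ↔ (¬ adj x y ∧ μ x ≠ y) := by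
    intro x y
    constructor
    · rintro ⟨x', y', h1, h2, h4⟩
      rw [Sym2.eq_iff] at h1
      rcases h1 with ⟨rfl, rfl⟩ | ⟨rfl, rfl⟩
      · exact ⟨h2, h4⟩
      · exact ⟨fun h => h2 (hsymm _ _ h), fun h => h4 (by rw [← h, hμ])⟩
    · intro h
      exact ⟨x, y, rfl, h.1, h.2⟩
  have hμX' : ∀ x ∈ X, μ x ∈ X := by
    intro x hx
    by_cases h : μ x = x
    · rw [h]; exact hx
    · apply hμX
      rw [hμ]; exact Ne.symm h
  have hpece : ∀ l : List V, pe l ⊆ ce l := by
    intro l
    cases l with
    | nil => simp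
    | cons a t =>
      rw [ce_cons]
      rcases List.eq_nil_or_concat' t with rfl | ⟨t', c, rfl⟩
      · simp
      · have e1 : a :: (t' ++ [c]) ++ [a] = (a :: t') ++ c :: [a] := by simp
        have e2 : a :: (t' ++ [c]) = (a :: t') ++ [c] := by simp
        rw [e1, pe_append, ← e2]
        exact Set.subset_union_left
  set Good : List V → Prop := fun l => l.Nodup ∧ (∀ v, v ∈ l ↔ v ∈ X) ∧
    (∀ u, μ u ≠ u → s(u, μ u) ∈ ce l) with hGood
  obtain ⟨l₀, hl₀⟩ : ∃ l, Good l := by
    obtain ⟨l, h1, h2, h4⟩ := exists_init_list μ hμ X.card X rfl hμX'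
    exact ⟨l, h1, h2, fun u hu => hpece l (h4 u (hμX u hu) hu)⟩
  have hfin : ∀ l : List V, (Bad ∩ ce l).Finite := by
    intro l
    apply Set.Finite.subset (s := (fun p : V × V => s(p.1, p.2)) '' ({p : V × V | p.1 ∈ l ∧ p.2 ∈ l}))
    · apply Set.Finite.image
      have : {p : V × V | p.1 ∈ l ∧ p.2 ∈ l} = {x | x ∈ l} ×ˢ {x | x ∈ l} := by
        ext p; simp
      rw [this]
      exact (List.finite_toSet l).prod (List.finite_toSet l)
    · rintro e ⟨-, he⟩
      induction e using Sym2.ind with
      | _ x y =>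
        exact ⟨(x, y), ⟨mem_of_mem_ce he (Sym2.mem_mk_left x y), mem_of_mem_ce he (Sym2.mem_mk_right x y)⟩, rfl⟩
  have hwf : WellFounded (fun l l' : List V => (Bad ∩ ce l).ncard < (Bad ∩ ce l').ncard) :=
    InvImage.wf (fun l : List V => (Bad ∩ ce l).ncard) wellFounded_lt
  obtain ⟨l, hl, hlmin⟩ := hwf.has_min {l | Good l} ⟨l₀, hl₀⟩
  obtain ⟨hln, hlX, hlμ⟩ := hl
  refine ⟨l, hln, hlX, hlμ, ?_⟩
  by_contra hcon
  push Not at hcon
  obtain ⟨p, r, hpr, hpr1, hpr2⟩ := hcon
  have hlen : l.length = X.card := by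
    rw [← List.toFinset_card_of_nodup hln]
    congr 1
    ext v; rw [List.mem_toFinset, hlX]
  have hpne : p ≠ r := by
    rintro rfl
    exact not_diag_mem_ce (by omega) hln p hpr
  -- open the cycle at a bad pair; now `p` is the first and `r` the last element
  obtain ⟨mid, hperm, hce⟩ := exists_open hpne hpr
  set L := p :: (mid ++ [r]) with hL
  have hLn : L.Nodup := hperm.nodup_iff.2 hln
  have hLX : ∀ v, v ∈ L ↔ v ∈ X := fun v => hperm.mem_iff.trans (hlX v)
  have hLlen : L.length = X.card := hperm.length_eq.trans hlen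
  set n := X.card with hn
  -- positions
  have hget0 : ∀ h : 0 < L.length, L[0] = p := fun _ => rfl
  have hgetn : ∀ h : n - 1 < L.length, L[n - 1] = r := by
    intro h
    have h4 : L = (p :: mid) ++ [r] := by simp [hL]
    have h5 : (p :: mid).length = n - 1 := by
      have := hLlen
      rw [h4, List.length_append, List.length_singleton] at this
      omega
    have h6 : ((p :: mid) ++ [r])[n - 1]'(by rw [← h4]; exact h) = r := by
      rw [List.getElem_append_right (by omega)]
      simp
    simpa [h4] using h6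
  have hmemL : ∀ (i : ℕ) (h : i < L.length), L[i] ∈ X := fun i h => (hLX _).1 (List.getElem_mem h)
  set g : ℕ → V := fun i => L.getD i p with hg
  have hgi : ∀ i (h : i < L.length), g i = L[i] := by
    intro i h
    simp [hg, List.getD_eq_getElem?_getD, List.getElem?_eq_getElem h]
  have hginj : ∀ i < n, ∀ j < n, g i = g j → i = j := by
    intro i hi j hj hij
    rw [hgi i (by omega), hgi j (by omega)] at hij
    exact (hLn.getElem_inj_iff).1 hij
  have hgsurj : ∀ v ∈ X, ∃ i < n, g i = v := by
    intro v hv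
    obtain ⟨i, hi, hi'⟩ := List.getElem_of_mem ((hLX v).2 hv)
    exact ⟨i, by omega, by rw [hgi i hi, hi']⟩
  have hg0 : g 0 = p := by rw [hgi 0 (by omega)]; rfl
  have hgn : g (n - 1) = r := by rw [hgi (n - 1) (by omega)]; exact hgetn _
  -- counting
  set S₁ := (Finset.range (n - 1)).filter (fun i => adj p (g (i + 1))) with hS₁
  set S₂ := (Finset.range (n - 1)).filter (fun i => adj r (g i)) with hS₂
  set S₃ := (Finset.range (n - 1)).filter (fun i => μ (g i) = g (i + 1)) with hS₃
  have hpX : p ∈ X := (hLX p).1 (by simp [hL])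
  have hrX : r ∈ X := (hLX r).1 (by simp [hL])
  have c₁ : (X.filter (fun y => y ≠ p ∧ adj p y)).card ≤ S₁.card := by
    have : X.filter (fun y => y ≠ p ∧ adj p y) ⊆ S₁.image (fun i => g (i + 1)) := by
      intro y hy
      rw [Finset.mem_filter] at hy
      obtain ⟨i, hi, hi'⟩ := hgsurj y hy.1
      have hi0 : i ≠ 0 := by
        rintro rfl
        exact hy.2.1 (by rw [← hi', hg0])
      rw [Finset.mem_image]
      refine ⟨i - 1, Finset.mem_filter.2 ⟨Finset.mem_range.2 (by omega), ?_⟩, ?_⟩
      · rw [Nat.sub_add_cancel (by omega), hi']; exact hy.2.2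
      · rw [Nat.sub_add_cancel (by omega), hi']
    exact (Finset.card_le_card this).trans Finset.card_image_le
  have c₂ : (X.filter (fun y => y ≠ r ∧ adj r y)).card ≤ S₂.card := by
    have : X.filter (fun y => y ≠ r ∧ adj r y) ⊆ S₂.image g := by
      intro y hy
      rw [Finset.mem_filter] at hy
      obtain ⟨i, hi, hi'⟩ := hgsurj y hy.1
      have hi0 : i ≠ n - 1 := by
        rintro rfl
        exact hy.2.1 (by rw [← hi', hgn])
      rw [Finset.mem_image]
      refine ⟨i, Finset.mem_filter.2 ⟨Finset.mem_range.2 (by omega), ?_⟩, hi'⟩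
      rw [hi']; exact hy.2.2
    exact (Finset.card_le_card this).trans Finset.card_image_le
  have c₃ : 2 * S₃.card ≤ (X.filter (fun x => μ x ≠ x)).card := by
    have hne : ∀ i ∈ S₃, g i ≠ g (i + 1) := by
      intro i hi h
      rw [hS₃, Finset.mem_filter, Finset.mem_range] at hi
      have := hginj i (by omega) (i + 1) (by omega) h
      omega
    have h4 : Disjoint (S₃.image g) (S₃.image (fun i => g (i + 1))) := by
      rw [Finset.disjoint_left]
      intro v hv hv'
      rw [Finset.mem_image] at hv hv'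
      obtain ⟨i, hi, rfl⟩ := hv
      obtain ⟨j, hj, hj'⟩ := hv'
      have hi2 := (Finset.mem_filter.1 hi)
      have hj2 := (Finset.mem_filter.1 hj)
      rw [Finset.mem_range] at hi2 hj2
      have h5 := hginj (j + 1) (by omega) i (by omega) hj'
      -- μ (g (j+1)) = g j and = g (j + 2)
      have h6 : μ (g (j + 1)) = g j := by rw [← hj2.2, hμ]
      have h7 : μ (g (j + 1)) = g (j + 1 + 1) := by rw [h5]; exact hi2.2
      have h8 := hginj j (by omega) (j + 1 + 1) (by omega) (h6.symm.trans h7)
      omega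
    have h5 : (S₃.image g ∪ S₃.image (fun i => g (i + 1))) ⊆ X.filter (fun x => μ x ≠ x) := by
      intro v hv
      rw [Finset.mem_union, Finset.mem_image, Finset.mem_image] at hv
      rcases hv with ⟨i, hi, rfl⟩ | ⟨i, hi, rfl⟩
      · have hi2 := (Finset.mem_filter.1 hi)
        rw [Finset.mem_range] at hi2
        refine Finset.mem_filter.2 ⟨?_, ?_⟩
        · rw [hgi i (by omega)]; exact hmemL _ _
        · rw [hi2.2]; exact (hne i hi).symm
      · have hi2 := (Finset.mem_filter.1 hi)
        rw [Finset.mem_range] at hi2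
        refine Finset.mem_filter.2 ⟨?_, ?_⟩
        · rw [hgi (i + 1) (by omega)]; exact hmemL _ _
        · rw [← hi2.2, hμ, hi2.2]; exact hne i hi
    have h6 := Finset.card_le_card h5
    rw [Finset.card_union_of_disjoint h4, Finset.card_image_of_injOn, Finset.card_image_of_injOn] at h6
    · omega
    · intro i hi j hj hij
      have hi2 := (Finset.mem_filter.1 (Finset.mem_coe.1 hi))
      have hj2 := (Finset.mem_filter.1 (Finset.mem_coe.1 hj))
      rw [Finset.mem_range] at hi2 hj2
      have := hginj (i + 1) (by omega) (j + 1) (by omega) hij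
      omega
    · intro i hi j hj hij
      have hi2 := (Finset.mem_filter.1 (Finset.mem_coe.1 hi))
      have hj2 := (Finset.mem_filter.1 (Finset.mem_coe.1 hj))
      rw [Finset.mem_range] at hi2 hj2
      exact hginj i (by omega) j (by omega) hij
  have hd1 := hdeg p hpX
  have hd2 := hdeg r hrX
  have hinter : S₁.card + S₂.card ≤ (S₁ ∩ S₂).card + (n - 1) := by
    have h4 := Finset.card_union_add_card_inter S₁ S₂
    have h5 : (S₁ ∪ S₂).card ≤ n - 1 := by
      have : S₁ ∪ S₂ ⊆ Finset.range (n - 1) :=
        Finset.union_subset (Finset.filter_subset _ _) (Finset.filter_subset _ _)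
      have := Finset.card_le_card this
      rwa [Finset.card_range] at this
    omega
  have hex : ∃ i ∈ S₁ ∩ S₂, i ∉ S₃ := by
    by_contra hcon
    push Not at hcon
    have := Finset.card_le_card (show S₁ ∩ S₂ ⊆ S₃ from hcon)
    omega
  obtain ⟨i, hi, hi3⟩ := hex
  rw [Finset.mem_inter, hS₁, hS₂, Finset.mem_filter, Finset.mem_filter, Finset.mem_range] at hi
  obtain ⟨⟨hin, hi1⟩, -, hi2⟩ := hi
  have hi3' : μ (g i) ≠ g (i + 1) := fun h => hi3 (Finset.mem_filter.2 ⟨Finset.mem_range.2 hin, h⟩)
  -- the splitting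
  set xs := L.take i with hxs
  set ys := L.drop (i + 2) with hys
  have hsplit : L = xs ++ g i :: g (i + 1) :: ys := by
    rw [hxs, hys, hgi i (by omega), hgi (i + 1) (by omega), List.getElem_cons_drop,
      List.getElem_cons_drop, List.take_append_drop]
  have hceL : ce L = pe (xs ++ [g i]) ∪ {s(g i, g (i + 1))} ∪ pe (g (i + 1) :: ys) ∪ {s(r, p)} := by
    have h4 : ce L = pe L ∪ {s(r, p)} := by
      rw [hL, ce_cons]
      have e1 : p :: (mid ++ [r]) ++ [p] = (p :: mid) ++ r :: [p] := by simp
      rw [e1, pe_append]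
      simp
    rw [h4]
    congr 1
    conv_lhs => rw [hsplit]
    rw [pe_append, pe_cons_cons]
    ext e
    simp only [Set.mem_union, Set.mem_insert_iff, Set.mem_singleton_iff]
    exact (or_assoc).symm
  set L' := (xs ++ [g i]) ++ (g (i + 1) :: ys).reverse with hL'
  have hLL' : L'.Perm L := by
    rw [hL']
    conv_rhs => rw [hsplit]
    have e1 : xs ++ g i :: g (i + 1) :: ys = (xs ++ [g i]) ++ (g (i + 1) :: ys) := by simp
    rw [e1]
    exact List.Perm.append_left _ (List.reverse_perm _)
  -- last element of `g (i+1) :: ys` is `r`, first element of `xs ++ [g i]` is `p`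
  have hlast : ∃ zs, g (i + 1) :: ys = zs ++ [r] := by
    have h4 : L.getLast (by simp [hL]) = r := by simp [hL]
    have h5 : g (i + 1) :: ys ≠ [] := by simp
    refine ⟨(g (i + 1) :: ys).dropLast, ?_⟩
    have h6 : (g (i + 1) :: ys).getLast h5 = r := by
      rw [← h4]
      have h7 : ∀ (M : List V) (hM : M ≠ []), M = L → M.getLast hM = L.getLast (by simp [hL]) := by
        intro M hM hML
        subst hML
        rfl
      have h8 := h7 (xs ++ g i :: g (i + 1) :: ys) (by simp) hsplit.symm
      rw [← h8]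
      rw [List.getLast_append_of_ne_nil (by simp) (by simp)]
      rw [List.getLast_cons h5]
    rw [← h6]
    exact (List.dropLast_append_getLast h5).symm
  obtain ⟨zs, hzs⟩ := hlast
  have hfirst : ∃ ws, xs ++ [g i] = p :: ws := by
    cases hx : xs with
    | nil =>
      refine ⟨[], ?_⟩
      have : L = g i :: g (i + 1) :: ys := by
        conv_lhs => rw [hsplit]
        rw [hx]; rfl
      rw [hL] at this
      rw [List.nil_append, ← (List.cons.inj this).1]
    | cons a t =>
      refine ⟨t ++ [g i], ?_⟩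
      have : L = a :: (t ++ g i :: g (i + 1) :: ys) := by
        conv_lhs => rw [hsplit]
        rw [hx]; rfl
      rw [hL] at this
      rw [← (List.cons.inj this).1]; rfl
  obtain ⟨ws, hws⟩ := hfirst
  have hceL' : ce L' = pe (xs ++ [g i]) ∪ {s(g i, r)} ∪ pe (g (i + 1) :: ys) ∪ {s(g (i + 1), p)} := by
    have e0 : L' = p :: (ws ++ (g (i + 1) :: ys).reverse) := by rw [hL', hws]; rfl
    rw [e0, ce_cons]
    have e1 : p :: (ws ++ (g (i + 1) :: ys).reverse) ++ [p] =
        (xs ++ [g i]) ++ ((g (i + 1) :: ys).reverse ++ [p]) := by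
      rw [hws]; simp
    have e2 : (g (i + 1) :: ys).reverse = r :: zs.reverse := by rw [hzs]; simp
    have e3 : (xs ++ [g i]) ++ ((g (i + 1) :: ys).reverse ++ [p]) =
        xs ++ g i :: r :: (zs.reverse ++ [p]) := by rw [e2]; simp
    rw [e1, e3, pe_append, pe_cons_cons]
    have e4 : pe (r :: (zs.reverse ++ [p])) = pe (g (i + 1) :: ys) ∪ {s(g (i + 1), p)} := by
      have e5 : r :: (zs.reverse ++ [p]) = (g (i + 1) :: ys).reverse ++ [p] := by rw [e2]; rfl
      rw [e5, List.reverse_cons]
      have e6 : ys.reverse ++ [g (i + 1)] ++ [p] = ys.reverse ++ g (i + 1) :: [p] := by simp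
      rw [e6, pe_append]
      have e7 : ys.reverse ++ [g (i + 1)] = (g (i + 1) :: ys).reverse := by simp
      rw [e7, pe_reverse]
      simp
    rw [e4]
    ext e
    simp only [Set.mem_union, Set.mem_insert_iff, Set.mem_singleton_iff]
    constructor
    · rintro (h | h | h | h)
      · exact Or.inl (Or.inl (Or.inl h))
      · exact Or.inl (Or.inl (Or.inr h))
      · exact Or.inl (Or.inr h)
      · exact Or.inr h
    · rintro (((h | h) | h) | h)
      · exact Or.inl h
      · exact Or.inr (Or.inl h)
      · exact Or.inr (Or.inr (Or.inl h))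
      · exact Or.inr (Or.inr (Or.inr h))
  have hprL : s(p, r) ∈ Bad := (hbad p r).2 ⟨hpr1, hpr2⟩
  -- the new list is good
  have hgoodL' : Good L' := by
    refine ⟨hLL'.nodup_iff.2 hLn, fun v => hLL'.mem_iff.trans (hLX v), ?_⟩
    intro u hu
    have h4 := hlμ u hu
    rw [← hce, hceL] at h4
    rw [hceL']
    rcases h4 with ((h4 | h4) | h4) | h4
    · exact Or.inl (Or.inl (Or.inl h4))
    · exfalso
      rw [Set.mem_singleton_iff, Sym2.eq_iff] at h4
      rcases h4 with ⟨h5, h6⟩ | ⟨h5, h6⟩
      · exact hi3' (by rw [← h5, h6])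
      · exact hi3' (by rw [← h6, hμ, h5])
    · exact Or.inl (Or.inr h4)
    · exfalso
      rw [Set.mem_singleton_iff, Sym2.eq_iff] at h4
      rcases h4 with ⟨h5, h6⟩ | ⟨h5, h6⟩
      · exact hpr2 (by rw [← h6, hμ, h5])
      · exact hpr2 (by rw [← h5, h6])
  have hlt : (Bad ∩ ce L').ncard < (Bad ∩ ce l).ncard := by
    apply Set.ncard_lt_ncard _ (hfin l)
    rw [Set.ssubset_iff_subset_ne]
    have hsub : Bad ∩ ce L' ⊆ (Bad ∩ ce l) \ {s(p, r)} := by
      rintro e ⟨heB, he⟩
      rw [hceL'] at he
      have hnd : ((xs ++ [g i]) ++ (g (i + 1) :: ys)).Nodup := by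
        have e1 : (xs ++ [g i]) ++ (g (i + 1) :: ys) = L := by
          conv_rhs => rw [hsplit]
          simp
        rw [e1]; exact hLn
      rw [List.nodup_append'] at hnd
      have hp1 : p ∈ xs ++ [g i] := by rw [hws]; simp
      have hr1 : r ∈ g (i + 1) :: ys := by rw [hzs]; simp
      have hp2 : p ∉ g (i + 1) :: ys := fun h => hnd.2.2 hp1 h
      have hr2 : r ∉ xs ++ [g i] := fun h => hnd.2.2 h hr1
      rw [← hce, hceL]
      rcases he with ((he | he) | he) | he
      · refine ⟨⟨heB, Or.inl (Or.inl (Or.inl he))⟩, ?_⟩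
        intro h
        rw [Set.mem_singleton_iff] at h
        subst h
        exact hr2 (mem_of_mem_pe he (Sym2.mem_mk_right p r))
      · exfalso
        rw [Set.mem_singleton_iff] at he
        subst he
        exact ((hbad _ _).1 heB).1 (hsymm _ _ hi2)
      · refine ⟨⟨heB, Or.inl (Or.inr he)⟩, ?_⟩
        intro h
        rw [Set.mem_singleton_iff] at h
        subst h
        exact hp2 (mem_of_mem_pe he (Sym2.mem_mk_left p r))
      · exfalso
        rw [Set.mem_singleton_iff] at he
        subst he
        exact ((hbad _ _).1 heB).1 (hsymm _ _ hi1)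
    refine ⟨hsub.trans Set.sdiff_subset, ?_⟩
    intro heq
    have : s(p, r) ∈ Bad ∩ ce L' := by rw [heq]; exact ⟨hprL, hpr⟩
    exact (hsub this).2 rfl
  exact hlmin L' hgoodL' hlt

end lists

end Pool.Agent.Lib.MP_688fd0_co
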