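import Pool.Agent.Lib.MP_688fd0_co.Assembly

/-!
Merging components of a graph together with a pairing by switching edges.
-/

namespace Pool.Agent.Lib.MP_688fd0_co

set_option linter.unusedSectionVars false

open Classical

section switch

variable {V : Type*} [Fintype V]

/-- The pair `x, y` is the pair `a, b`. -/
def pr (a b x y : V) : Prop := (x = a ∧ y = b) ∨ (x = b ∧ y = a)

theorem pr_symm {a b x y : V} (h : pr a b x y) : pr a b y x := by
  rcases h with ⟨h1, h2⟩ | ⟨h1, h2⟩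
  · exact Or.inr ⟨h2, h1⟩
  · exact Or.inl ⟨h2, h1⟩

/-- Adding an edge. -/
def addE (Γ : SimpleGraph V) (a b : V) : SimpleGraph V where
  Adj := fun x y => Γ.Adj x y ∨ (x ≠ y ∧ pr a b x y)
  symm := ⟨fun x y h => by
    rcases h with h | ⟨h1, h2⟩
    · exact Or.inl h.symm
    · exact Or.inr ⟨h1.symm, pr_symm h2⟩⟩
  loopless := ⟨fun x h => by
    rcases h with h | ⟨h1, -⟩
    · exact Γ.irrefl h
    · exact h1 rfl⟩

/-- Deleting an edge. -/
def delE (Γ : SimpleGraph V) (a b : V) : SimpleGraph V where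
  Adj := fun x y => Γ.Adj x y ∧ ¬ pr a b x y
  symm := ⟨fun x y h => ⟨h.1.symm, fun h' => h.2 (pr_symm h')⟩⟩
  loopless := ⟨fun x h => Γ.irrefl h.1⟩

theorem addE_adj {Γ : SimpleGraph V} {a b : V} (hab : a ≠ b) (x y : V) :
    (addE Γ a b).Adj x y ↔ Γ.Adj x y ∨ pr a b x y := by
  constructor
  · rintro (h | ⟨-, h⟩)
    · exact Or.inl h
    · exact Or.inr h
  · rintro (h | h)
    · exact Or.inl h
    · refine Or.inr ⟨?_, h⟩
      rcases h with ⟨rfl, rfl⟩ | ⟨rfl, rfl⟩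
      · exact hab
      · exact hab.symm

theorem delE_adj {Γ : SimpleGraph V} {a b : V} (x y : V) :
    (delE Γ a b).Adj x y ↔ Γ.Adj x y ∧ ¬ pr a b x y := Iff.rfl

theorem dg_addE {Γ : SimpleGraph V} {a b : V} (hab : a ≠ b) (h : ¬ Γ.Adj a b) (x : V) :
    dg (addE Γ a b) x = dg Γ x + (if x = a then 1 else 0) + (if x = b then 1 else 0) := by
  by_cases hxa : x = a
  · subst hxa
    rw [if_pos rfl, if_neg hab, add_zero]
    unfold dg
    have e : (Finset.univ.filter (fun y => (addE Γ x b).Adj x y)) =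
        insert b (Finset.univ.filter (fun y => Γ.Adj x y)) := by
      ext y
      rw [Finset.mem_insert, Finset.mem_filter, Finset.mem_filter, addE_adj hab]
      simp only [Finset.mem_univ, true_and]
      constructor
      · rintro (h1 | ⟨-, h1⟩ | ⟨h1, h2⟩)
        · exact Or.inr h1
        · exact Or.inl h1
        · exact absurd h1 hab
      · rintro (h1 | h1)
        · exact Or.inr (Or.inl ⟨rfl, h1⟩)
        · exact Or.inl h1
    rw [e, Finset.card_insert_of_notMem]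
    intro h1
    exact h (Finset.mem_filter.1 h1).2
  · by_cases hxb : x = b
    · subst hxb
      rw [if_neg hxa, if_pos rfl, add_zero]
      unfold dg
      have e : (Finset.univ.filter (fun y => (addE Γ a x).Adj x y)) =
          insert a (Finset.univ.filter (fun y => Γ.Adj x y)) := by
        ext y
        rw [Finset.mem_insert, Finset.mem_filter, Finset.mem_filter, addE_adj hab]
        simp only [Finset.mem_univ, true_and]
        constructor
        · rintro (h1 | ⟨h1, h2⟩ | ⟨-, h1⟩)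
          · exact Or.inr h1
          · exact absurd h1 hxa
          · exact Or.inl h1
        · rintro (h1 | h1)
          · exact Or.inr (Or.inr ⟨rfl, h1⟩)
          · exact Or.inl h1
      rw [e, Finset.card_insert_of_notMem]
      intro h1
      exact h (Finset.mem_filter.1 h1).2.symm
    · rw [if_neg hxa, if_neg hxb, add_zero, add_zero]
      apply dg_congr
      intro y
      rw [addE_adj hab]
      constructor
      · rintro (h1 | ⟨h1, -⟩ | ⟨h1, -⟩)
        · exact h1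
        · exact absurd h1 hxa
        · exact absurd h1 hxb
      · exact Or.inl

theorem dg_delE {Γ : SimpleGraph V} {a b : V} (h : Γ.Adj a b) (x : V) :
    dg Γ x = dg (delE Γ a b) x + (if x = a then 1 else 0) + (if x = b then 1 else 0) := by
  have hab : a ≠ b := h.ne
  have h1 : ¬ (delE Γ a b).Adj a b := fun h' => h'.2 (Or.inl ⟨rfl, rfl⟩)
  rw [← dg_addE hab h1 x]
  apply dg_congr
  intro y
  rw [addE_adj hab, delE_adj]
  constructor
  · intro h2
    by_cases h3 : pr a b x y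
    · exact Or.inr h3
    · exact Or.inl ⟨h2, h3⟩
  · rintro (h2 | ⟨rfl, rfl⟩ | ⟨rfl, rfl⟩)
    · exact h2.1
    · exact h
    · exact h.symm

/-- Connectivity in a graph together with a map. -/
def cn (Φ : SimpleGraph V) (μ : V → V) (x y : V) : Prop :=
  Relation.EqvGen (fun a b => Φ.Adj a b ∨ μ a = b) x y

theorem cn_refl (Φ : SimpleGraph V) (μ : V → V) (x : V) : cn Φ μ x x := Relation.EqvGen.refl _

theorem cn.symm {Φ : SimpleGraph V} {μ : V → V} {x y : V} (h : cn Φ μ x y) : cn Φ μ y x :=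
  Relation.EqvGen.symm _ _ h

theorem cn.trans {Φ : SimpleGraph V} {μ : V → V} {x y z : V} (h : cn Φ μ x y)
    (h' : cn Φ μ y z) : cn Φ μ x z := Relation.EqvGen.trans _ _ _ h h'

theorem cn_adj {Φ : SimpleGraph V} {μ : V → V} {x y : V} (h : Φ.Adj x y) : cn Φ μ x y :=
  Relation.EqvGen.rel _ _ (Or.inl h)

theorem cn_map (Φ : SimpleGraph V) (μ : V → V) (x : V) : cn Φ μ x (μ x) :=
  Relation.EqvGen.rel _ _ (Or.inr rfl)

theorem cn.lift {Φ Φ' : SimpleGraph V} {μ : V → V} (h : ∀ x y, Φ.Adj x y → cn Φ' μ x y)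
    {x y : V} (hxy : cn Φ μ x y) : cn Φ' μ x y := by
  induction hxy with
  | rel a b hab =>
    rcases hab with hab | hab
    · exact h a b hab
    · subst hab; exact cn_map _ _ _
  | refl a => exact cn_refl _ _ _
  | symm a b _ ih => exact ih.symm
  | trans a b c _ _ ih1 ih2 => exact ih1.trans ih2

theorem cn.le_equiv {Φ : SimpleGraph V} {μ : V → V} {r : V → V → Prop} (hr : Equivalence r)
    (h : ∀ x y, Φ.Adj x y → r x y) (h' : ∀ x, r x (μ x)) {x y : V} (hxy : cn Φ μ x y) :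
    r x y := by
  induction hxy with
  | rel a b hab =>
    rcases hab with hab | hab
    · exact h a b hab
    · subst hab; exact h' _
  | refl a => exact hr.refl _
  | symm a b _ ih => exact hr.symm ih
  | trans a b c _ _ ih1 ih2 => exact hr.trans ih1 ih2

/-- Graphs with even total degrees have no cut edge. -/
theorem cn_cut {Φ : SimpleGraph V} {μ : V → V} (hμ : ∀ x, μ (μ x) = x) {a b : V}
    (hab : Φ.Adj a b)
    (hev : ∀ x, cn Φ μ a x → Even (dg Φ x + (if μ x = x then 0 else 1))) :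
    cn (delE Φ a b) μ a b := by
  by_contra hcon
  set Φ' := delE Φ a b with hΦ'
  set C : Finset V := Finset.univ.filter (fun x => cn Φ' μ a x) with hC
  have hmem : ∀ x, x ∈ C ↔ cn Φ' μ a x := by
    intro x; rw [hC, Finset.mem_filter]; simp
  have h1 := even_sum_dg Φ' C (by
    intro x hx y hxy
    rw [hmem] at hx ⊢
    exact hx.trans (cn_adj hxy))
  set Γμ : SimpleGraph V :=
    { Adj := fun x y => x ≠ y ∧ μ x = y
      symm := ⟨fun x y h => ⟨h.1.symm, by rw [← h.2, hμ]⟩⟩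
      loopless := ⟨fun x h => h.1 rfl⟩ } with hΓμ
  have h2 := even_sum_dg Γμ C (by
    intro x hx y hxy
    rw [hmem] at hx ⊢
    have h3 : cn Φ' μ x (μ x) := cn_map _ _ _
    rw [hxy.2] at h3
    exact hx.trans h3)
  have h3 : ∀ x, dg Γμ x = if μ x = x then 0 else 1 := by
    intro x
    by_cases hx : μ x = x
    · rw [if_pos hx]
      apply dg_zero
      rintro y ⟨h4, h5⟩
      exact h4 (hx.symm.trans h5)
    · rw [if_neg hx]
      apply dg_one (μ x)
      intro y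
      constructor
      · rintro ⟨-, h5⟩; exact h5.symm
      · rintro rfl; exact ⟨fun h => hx h.symm, rfl⟩
  have haC : a ∈ C := (hmem a).2 (cn_refl _ _ _)
  have hbC : b ∉ C := fun h => hcon ((hmem b).1 h)
  have h4 : ∑ x ∈ C, (dg Φ x + (if μ x = x then 0 else 1)) =
      ∑ x ∈ C, dg Φ' x + ∑ x ∈ C, dg Γμ x + 1 := by
    have h5 : ∀ x ∈ C, dg Φ x + (if μ x = x then 0 else 1) =
        (dg Φ' x + dg Γμ x) + (if x = a then 1 else 0) := by
      intro x hx
      have hxb : x ≠ b := fun h => hbC (h ▸ hx)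
      rw [dg_delE hab x, h3, if_neg hxb]
      ring
    rw [Finset.sum_congr rfl h5, Finset.sum_add_distrib, Finset.sum_add_distrib,
      Finset.sum_ite_eq', if_pos haC]
  have h5 : Even (∑ x ∈ C, (dg Φ x + (if μ x = x then 0 else 1))) := by
    apply Finset.even_sum
    intro x hx
    apply hev
    refine cn.lift ?_ ((hmem x).1 hx)
    intro u v huv
    exact cn_adj huv.1
  rw [h4] at h5
  have h6 := h1.add h2
  rw [Nat.even_add_one] at h5
  exact h5 h6

/-- The switched graph. -/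
def swG (Φ : SimpleGraph V) (a b c d : V) : SimpleGraph V :=
  addE (addE (delE (delE Φ a b) c d) a c) b d

theorem switch {Φ : SimpleGraph V} {μ : V → V} (hμ : ∀ x, μ (μ x) = x)
    (hev : ∀ x, Even (dg Φ x + (if μ x = x then 0 else 1))) {a b c d : V}
    (hab : Φ.Adj a b) (hcd : Φ.Adj c d) (hac : ¬ cn Φ μ a c) :
    (∀ x, dg (swG Φ a b c d) x = dg Φ x) ∧
    (∀ x y, cn Φ μ x y → cn (swG Φ a b c d) μ x y) ∧ cn (swG Φ a b c d) μ a c ∧
    ∀ x y, (swG Φ a b c d).Adj x y ↔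
      (Φ.Adj x y ∧ ¬ pr a b x y ∧ ¬ pr c d x y) ∨ pr a c x y ∨ pr b d x y := by
  have hac' : a ≠ c := fun h => hac (h ▸ cn_refl _ _ _)
  have hbc : ¬ cn Φ μ b c := fun h => hac ((cn_adj hab).trans h)
  have hbd : ¬ cn Φ μ b d := fun h => hbc (h.trans (cn_adj hcd).symm)
  have had : ¬ cn Φ μ a d := fun h => hac (h.trans (cn_adj hcd).symm)
  have hbd' : b ≠ d := fun h => hbd (h ▸ cn_refl _ _ _)
  set Φ1 := delE Φ a b with hΦ1
  set Φ2 := delE Φ1 c d with hΦ2
  have hadj : ∀ x y, (swG Φ a b c d).Adj x y ↔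
      (Φ.Adj x y ∧ ¬ pr a b x y ∧ ¬ pr c d x y) ∨ pr a c x y ∨ pr b d x y := by
    intro x y
    rw [swG, addE_adj hbd', addE_adj hac', delE_adj, delE_adj]
    tauto
  have hle1 : ∀ x y, cn Φ1 μ x y → cn Φ μ x y := fun x y h =>
    cn.lift (Φ := Φ1) (fun u v huv => cn_adj huv.1) h
  have h1 : cn Φ1 μ a b := cn_cut hμ hab (fun x _ => hev x)
  have hcd1 : Φ1.Adj c d := by
    refine ⟨hcd, ?_⟩
    rintro (⟨h, -⟩ | ⟨-, h⟩)
    · exact hac' h.symm
    · exact had (h ▸ cn_refl _ _ _)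
  have h2 : cn Φ2 μ c d := by
    apply cn_cut hμ hcd1
    intro x hx
    have hxa : x ≠ a := fun h => hac (h ▸ (hle1 _ _ hx).symm)
    have hxb : x ≠ b := fun h => hbc (h ▸ (hle1 _ _ hx).symm)
    have h3 := hev x
    rw [dg_delE hab x, if_neg hxa, if_neg hxb] at h3
    exact h3
  have hle2 : ∀ x y, cn Φ1 μ x y → cn Φ2 μ x y := fun x y h => by
    refine cn.lift (fun u v huv => ?_) h
    by_cases h3 : pr c d u v
    · rcases h3 with ⟨rfl, rfl⟩ | ⟨rfl, rfl⟩
      · exact h2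
      · exact h2.symm
    · exact cn_adj ⟨huv, h3⟩
  have hle3 : ∀ x y, cn Φ2 μ x y → cn (swG Φ a b c d) μ x y := fun x y h => by
    exact cn.lift (Φ := Φ2)
      (fun u v huv => cn_adj ((hadj u v).2 (Or.inl ⟨huv.1.1, huv.1.2, huv.2⟩))) h
  have hle : ∀ x y, cn Φ μ x y → cn (swG Φ a b c d) μ x y := fun x y h => by
    refine cn.lift (fun u v huv => ?_) h
    by_cases h3 : pr a b u v
    · rcases h3 with ⟨rfl, rfl⟩ | ⟨rfl, rfl⟩
      · exact hle3 _ _ (hle2 _ _ h1)
      · exact (hle3 _ _ (hle2 _ _ h1)).symm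
    · exact hle3 _ _ (hle2 _ _ (cn_adj ⟨huv, h3⟩))
  have hnac : ¬ Φ2.Adj a c := fun h => hac (cn_adj h.1.1)
  have hnbd : ¬ (addE Φ2 a c).Adj b d := by
    rw [addE_adj hac']
    rintro (h | ⟨h, -⟩ | ⟨h, -⟩)
    · exact hbd (cn_adj h.1.1)
    · exact hab.ne h.symm
    · exact hac (h ▸ cn_adj hab)
  refine ⟨?_, hle, cn_adj ((hadj a c).2 (Or.inr (Or.inl (Or.inl ⟨rfl, rfl⟩)))), hadj⟩
  intro x
  have e1 := dg_delE hab x
  have e2 := dg_delE hcd1 x
  have e3 := dg_addE hac' hnac x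
  have e4 := dg_addE hbd' hnbd x
  rw [swG, e4, e3, e1, e2]
  ring

/-- Minimising the number of components. -/
theorem glue (μ : V → V) (K : SimpleGraph V → Prop) (hK : ∃ Φ, K Φ) (H : Set V)
    (hstep : ∀ Φ, K Φ → (∀ x ∈ H, ∀ y ∈ H, cn Φ μ x y) ∨ ∃ Φ', K Φ' ∧
      (∀ x y, cn Φ μ x y → cn Φ' μ x y) ∧ ∃ x y, cn Φ' μ x y ∧ ¬ cn Φ μ x y) :
    ∃ Φ, K Φ ∧ ∀ x ∈ H, ∀ y ∈ H, cn Φ μ x y := by
  let st : SimpleGraph V → Setoid V := fun Φ =>
    Relation.EqvGen.setoid (fun a b : V => Φ.Adj a b ∨ μ a = b)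
  have hmin : ∃ Φ, K Φ ∧ ∀ Φ', K Φ' →
        Nat.card (Quotient (st Φ)) ≤ Nat.card (Quotient (st Φ')) := by
    obtain ⟨Φ₀, hΦ₀⟩ := hK
    have hne : {Φ | K Φ}.Nonempty := ⟨Φ₀, hΦ₀⟩
    have hwf : WellFounded (fun Φ Φ' : SimpleGraph V =>
        Nat.card (Quotient (st Φ)) < Nat.card (Quotient (st Φ'))) :=
      InvImage.wf (fun Φ => Nat.card (Quotient (st Φ))) wellFounded_lt
    obtain ⟨Φ, hΦ, hΦ'⟩ := hwf.has_min _ hne
    exact ⟨Φ, hΦ, fun Φ' h => not_lt.1 (hΦ' Φ' h)⟩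
  obtain ⟨Φ, hΦ, hΦmin⟩ := hmin
  refine ⟨Φ, hΦ, ?_⟩
  rcases hstep Φ hΦ with h | ⟨Φ', hΦ'1, hΦ'2, x, y, hxy, hxy'⟩
  · exact h
  exfalso
  have h1 := hΦmin Φ' hΦ'1
  have := Quotient.finite (st Φ)
  have := Quotient.finite (st Φ')
  have := Fintype.ofFinite (Quotient (st Φ))
  have := Fintype.ofFinite (Quotient (st Φ'))
  rw [Nat.card_eq_fintype_card, Nat.card_eq_fintype_card] at h1
  let f : Quotient (st Φ) → Quotient (st Φ') :=
    Quotient.map' id (fun a b hab => hΦ'2 a b hab)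
  have hsurj : Function.Surjective f := by
    intro q
    induction q using Quotient.inductionOn with
    | h a => exact ⟨Quotient.mk _ a, rfl⟩
  have hninj : ¬ Function.Injective f := by
    intro hinj
    apply hxy'
    have h2 : f (Quotient.mk (st Φ) x) = f (Quotient.mk (st Φ) y) :=
      Quotient.sound (s := st Φ') hxy
    exact Quotient.exact (hinj h2)
  have h3 := Fintype.card_lt_of_surjective_not_injective f hsurj hninj
  omega

/-- Merging blocks along gadgets. -/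
theorem gadgets {Φ₀ : SimpleGraph V} {μ : V → V} (hμ : ∀ x, μ (μ x) = x)
    (hev : ∀ x, Even (dg Φ₀ x + (if μ x = x then 0 else 1))) {ι : Type*} (a b c d : ι → V)
    (hab : ∀ i, Φ₀.Adj (a i) (b i)) (hcd : ∀ i, Φ₀.Adj (c i) (d i))
    (h1 : ∀ i j, i ≠ j → ¬ pr (a i) (b i) (a j) (b j))
    (h2 : ∀ i j, i ≠ j → ¬ pr (a i) (b i) (c j) (d j))
    (h3 : ∀ i j, i ≠ j → ¬ pr (c i) (d i) (a j) (b j))
    (h4 : ∀ i j, i ≠ j → ¬ pr (c i) (d i) (c j) (d j)) (H : Set V)
    (hconn : ∀ r : V → V → Prop, Equivalence r → (∀ x y, cn Φ₀ μ x y → r x y) →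
      (∀ i, r (a i) (c i)) → ∀ x ∈ H, ∀ y ∈ H, r x y) :
    ∃ Φ : SimpleGraph V, (∀ x y, Φ.Adj x y → Φ₀.Adj x y ∨
      ∃ i, pr (a i) (c i) x y ∨ pr (b i) (d i) x y) ∧
      (∀ x, dg Φ x = dg Φ₀ x) ∧ ∀ x ∈ H, ∀ y ∈ H, cn Φ μ x y := by
  obtain ⟨Φ, hΦ, hΦc⟩ := glue μ (fun Φ => (∀ x y, Φ.Adj x y → Φ₀.Adj x y ∨
      ∃ i, pr (a i) (c i) x y ∨ pr (b i) (d i) x y) ∧ (∀ x, dg Φ x = dg Φ₀ x) ∧
      (∀ x y, cn Φ₀ μ x y → cn Φ μ x y) ∧
      ∀ i, cn Φ μ (a i) (c i) ∨ (Φ.Adj (a i) (b i) ∧ Φ.Adj (c i) (d i)))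
    ⟨Φ₀, fun x y h => Or.inl h, fun x => rfl, fun x y h => h, fun i => Or.inr ⟨hab i, hcd i⟩⟩ H
    (by
      rintro Φ ⟨k1, k2, k3, k4⟩
      by_cases hall : ∀ i, cn Φ μ (a i) (c i)
      · left
        intro x hx y hy
        exact hconn (fun x y => cn Φ μ x y)
          ⟨fun _ => cn_refl _ _ _, fun h => h.symm, fun h h' => h.trans h'⟩ k3 hall x hx y hy
      · right
        push Not at hall
        obtain ⟨i, hi⟩ := hall
        rcases k4 i with h | ⟨h5, h6⟩
        · exact absurd h hi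
        obtain ⟨s1, s2, s3, s4⟩ := switch hμ (fun x => by rw [k2]; exact hev x) h5 h6 hi
        refine ⟨swG Φ (a i) (b i) (c i) (d i), ⟨?_, ?_, ?_, ?_⟩, s2, a i, c i, s3, hi⟩
        · intro x y hxy
          rw [s4] at hxy
          rcases hxy with h | h | h
          · exact k1 x y h.1
          · exact Or.inr ⟨i, Or.inl h⟩
          · exact Or.inr ⟨i, Or.inr h⟩
        · intro x; rw [s1, k2]
        · intro x y hxy; exact s2 _ _ (k3 _ _ hxy)
        · intro j
          by_cases hij : i = j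
          · subst hij; exact Or.inl s3
          rcases k4 j with h | ⟨h7, h8⟩
          · exact Or.inl (s2 _ _ h)
          · right
            rw [s4, s4]
            exact ⟨Or.inl ⟨h7, h1 i j hij, h3 i j hij⟩, Or.inl ⟨h8, h2 i j hij, h4 i j hij⟩⟩)
  exact ⟨Φ, hΦ.1, hΦ.2.1, hΦc⟩

end switch

end Pool.Agent.Lib.MP_688fd0_co
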