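import Pool.Agent.Lib.MP_688fd0_co.FR
import Pool.Agent.Lib.MP_688fd0_co.Cut

/-!
Spanning trees of coset graphs: with load at most one at every port, and with degree at most three.
-/

namespace Pool.Agent.Lib.MP_688fd0_co

set_option linter.unusedSectionVars false
set_option linter.style.haveILetI false

open Classical

namespace PG

variable {B E P : Type*} [Fintype B] [Fintype E] [Fintype P] {D : PG B E P}

/-- Edges touching `X`. -/
noncomputable def tX (D : PG B E P) (T : Finset E) (X : Finset P) : Finset E :=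
  T.filter (fun e => D.Touch X e)

theorem ncomp_av [Nonempty B] {T : Finset E} (hT : IsST D T) (X : Finset P) :
    D.ncomp (D.av T X : Set E) = 1 + (D.tX T X).card := by
  have h1 := hT.forest (Finset.filter_subset (fun e => ¬ D.Touch X e) T)
  have h2 := hT.forest (Finset.Subset.refl T)
  rw [hT.ncomp] at h2
  have h3 : (D.tX T X).card + (D.av T X).card = T.card :=
    Finset.card_filter_add_card_filter_not (s := T) (fun e => D.Touch X e)
  change D.ncomp (D.av T X : Set E) + (D.av T X).card = _ at h1
  omega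

theorem sum_card_filter_eq {α β : Type*} [Fintype β] (T : Finset α) (f : α → β) (X : Finset β) :
    ∑ p ∈ X, (T.filter (fun e => f e = p)).card = (T.filter (fun e => f e ∈ X)).card := by
  rw [← Finset.card_biUnion]
  · congr 1
    ext e
    simp only [Finset.mem_biUnion, Finset.mem_filter]
    constructor
    · rintro ⟨p, hp, he, rfl⟩; exact ⟨he, hp⟩
    · rintro ⟨he, hp⟩; exact ⟨_, hp, he, rfl⟩
  · intro p _ q _ hpq
    change Disjoint _ _
    rw [Finset.disjoint_left]
    intro e he he'
    rw [Finset.mem_filter] at he he'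
    exact hpq (he.2.symm.trans he'.2)

theorem sum_card_filter_le {α β : Type*} [DecidableEq β] (T : Finset α) (f : α → β)
    (X : Finset β) (T' : Finset α) (h : ∀ e ∈ T, f e ∈ X → e ∈ T') :
    ∑ p ∈ X, (T.filter (fun e => f e = p)).card ≤ T'.card := by
  rw [← Finset.card_biUnion]
  · apply Finset.card_le_card
    intro e he
    simp only [Finset.mem_biUnion, Finset.mem_filter] at he
    obtain ⟨p, hp, he, rfl⟩ := he
    exact h e he hp
  · intro p _ q _ hpq
    change Disjoint _ _
    rw [Finset.disjoint_left]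
    intro e he he'
    rw [Finset.mem_filter] at he he'
    exact hpq (he.2.symm.trans he'.2)

theorem sum_load (T : Finset E) (X : Finset P) :
    ∑ p ∈ X, D.load T p = (T.filter (fun e => D.ps e ∈ X)).card + (T.filter (fun e => D.pt e ∈ X)).card := by
  unfold load
  rw [Finset.sum_add_distrib, sum_card_filter_eq, sum_card_filter_eq]

theorem sum_load_le (T : Finset E) (X : Finset P) :
    ∑ p ∈ X, D.load T p ≤ 2 * (D.tX T X).card := by
  rw [sum_load]
  have h1 : (T.filter (fun e => D.ps e ∈ X)).card ≤ (D.tX T X).card := by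
    apply Finset.card_le_card
    intro e he
    rw [Finset.mem_filter] at he
    exact Finset.mem_filter.2 ⟨he.1, Or.inl he.2⟩
  have h2 : (T.filter (fun e => D.pt e ∈ X)).card ≤ (D.tX T X).card := by
    apply Finset.card_le_card
    intro e he
    rw [Finset.mem_filter] at he
    exact Finset.mem_filter.2 ⟨he.1, Or.inr he.2⟩
  omega

/-- Edges of `T` with both ends in `X`. -/
noncomputable def tXX (D : PG B E P) (T : Finset E) (X : Finset P) : Finset E :=
  T.filter (fun e => D.ps e ∈ X ∧ D.pt e ∈ X)

theorem mem_tXX {T : Finset E} {X : Finset P} {e : E} :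
    e ∈ D.tXX T X ↔ e ∈ T ∧ D.ps e ∈ X ∧ D.pt e ∈ X := Finset.mem_filter

theorem sum_load_eq (T : Finset E) (X : Finset P) :
    ∑ p ∈ X, D.load T p = (D.tX T X).card + (D.tXX T X).card := by
  rw [sum_load, ← Finset.card_union_add_card_inter]
  congr 2
  · ext e
    rw [Finset.mem_union, Finset.mem_filter, Finset.mem_filter]
    constructor
    · rintro (⟨h, h'⟩ | ⟨h, h'⟩)
      · exact Finset.mem_filter.2 ⟨h, Or.inl h'⟩
      · exact Finset.mem_filter.2 ⟨h, Or.inr h'⟩
    · intro h
      have h' := Finset.mem_filter.1 h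
      exact h'.2.imp (fun a => ⟨h'.1, a⟩) (fun a => ⟨h'.1, a⟩)
  · ext e
    rw [Finset.mem_inter, Finset.mem_filter, Finset.mem_filter]
    constructor
    · rintro ⟨⟨a, b⟩, ⟨-, c⟩⟩; exact Finset.mem_filter.2 ⟨a, b, c⟩
    · intro h
      obtain ⟨a, b, c⟩ := Finset.mem_filter.1 h
      exact ⟨⟨a, b⟩, ⟨a, c⟩⟩

theorem tX_card_le (T : Finset E) (X : Finset P) :
    (D.tX T X).card ≤ ∑ p ∈ X, D.load T p := by
  rw [sum_load]
  have : D.tX T X ⊆ T.filter (fun e => D.ps e ∈ X) ∪ T.filter (fun e => D.pt e ∈ X) := by
    intro e he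
    have he' := Finset.mem_filter.1 he
    rw [Finset.mem_union, Finset.mem_filter, Finset.mem_filter]
    exact he'.2.imp (fun h => ⟨he'.1, h⟩) (fun h => ⟨he'.1, h⟩)
  exact (Finset.card_le_card this).trans (Finset.card_union_le _ _)

end PG

section coset

variable {G : Type*} [Group G] [Fintype G] (H : Subgroup G) (S : Finset G)

/-- A ported graph on the left cosets of `H`, with an edge from `xH` to `xsH` for all `x`, `s`. -/
structure IsCG {P : Type*} (D : PG (G ⧸ H) (G × {s // s ∈ S}) P) : Prop where
  src_eq : ∀ e, D.src e = (e.1 : G ⧸ H)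
  tgt_eq : ∀ e, D.tgt e = ((e.1 * e.2.1 : G) : G ⧸ H)

variable {H S} {P : Type*} [Fintype P] {D : PG (G ⧸ H) (G × {s // s ∈ S}) P}

theorem IsCG.conn (hD : IsCG H S D) (hgen : Subgroup.closure ((H : Set G) ∪ (S : Set G)) = ⊤) :
    ∀ x y, D.Conn (Set.univ : Set (G × {s // s ∈ S})) x y := by
  have key : ∀ g ∈ Subgroup.closure ((H : Set G) ∪ (S : Set G)), ∀ x : G,
      D.Conn (Set.univ : Set (G × {s // s ∈ S})) ((x : G) : G ⧸ H) ((x * g : G) : G ⧸ H) := by
    intro g hg
    induction hg using Subgroup.closure_induction with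
    | mem s hs =>
      intro x
      rcases hs with hs | hs
      · have : ((x : G) : G ⧸ H) = ((x * s : G) : G ⧸ H) := by
          rw [QuotientGroup.eq]; simpa using hs
        rw [this]; exact PG.Conn.refl _ _
      · have h := PG.Conn.of_mem (D := D) (F := Set.univ) (e := (x, ⟨s, hs⟩)) (Set.mem_univ _)
        rw [hD.src_eq, hD.tgt_eq] at h
        exact h
    | one => intro x; rw [mul_one]; exact PG.Conn.refl _ _
    | mul a b _ _ iha ihb =>
      intro x
      rw [← mul_assoc]
      exact (iha x).trans (ihb (x * a))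
    | inv a _ iha =>
      intro x
      have := iha (x * a⁻¹)
      rw [inv_mul_cancel_right] at this
      exact this.symm
  intro x y
  induction x using QuotientGroup.induction_on with
  | H x =>
    induction y using QuotientGroup.induction_on with
    | H y =>
      have := key (x⁻¹ * y) (by rw [hgen]; exact Subgroup.mem_top _) x
      rwa [mul_inv_cancel_left] at this

/-- Sum of the cuts over a family of classes. -/
theorem IsCG.classes (hD : IsCG H S D) (hS : Irred H S)
    (hgen : Subgroup.closure ((H : Set G) ∪ (S : Set G)) = ⊤) (F : Set (G × {s // s ∈ S}))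
    (Q : Finset (Quotient (D.setoid F))) (h2 : 2 ≤ D.ncomp F) :
    Q.card * (Nat.card H * S.card) ≤
      (Finset.univ.filter (fun e : G × {s // s ∈ S} =>
        (Quotient.mk (D.setoid F) (D.src e)) ∈ Q ∧ ¬ D.Conn F (D.src e) (D.tgt e))).card := by
  have hcut : ∀ q : Quotient (D.setoid F), Nat.card H * S.card ≤
      (Finset.univ.filter (fun e : G × {s // s ∈ S} =>
        (Quotient.mk (D.setoid F) (D.src e)) = q ∧ ¬ D.Conn F (D.src e) (D.tgt e))).card := by
    intro q
    set C : Finset G := Finset.univ.filter (fun x => Quotient.mk (D.setoid F) (x : G ⧸ H) = q) with hC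
    have h1 : C.Nonempty := by
      induction q using Quotient.inductionOn with
      | h b =>
        induction b using QuotientGroup.induction_on with
        | H x => exact ⟨x, Finset.mem_filter.2 ⟨Finset.mem_univ _, rfl⟩⟩
    have h3 : C ≠ Finset.univ := by
      intro hCu
      rw [Finset.eq_univ_iff_forall] at hCu
      have hone : D.ncomp F ≤ 1 := by
        unfold PG.ncomp
        rw [Finite.card_le_one_iff_subsingleton]
        refine ⟨fun a b => ?_⟩
        have key : ∀ a : Quotient (D.setoid F), a = q := by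
          intro a
          induction a using Quotient.inductionOn with
          | h b =>
            induction b using QuotientGroup.induction_on with
            | H x => exact (Finset.mem_filter.1 (hCu x)).2
        rw [key a, key b]
      omega
    have h4 : ∀ x ∈ C, ∀ h ∈ H, x * h ∈ C := by
      intro x hx h hh
      rw [Finset.mem_filter] at hx ⊢
      refine ⟨Finset.mem_univ _, ?_⟩
      have : ((x * h : G) : G ⧸ H) = (x : G ⧸ H) := by
        rw [QuotientGroup.mk_mul_of_mem x hh]
      rw [this]; exact hx.2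
    refine (cut hS hgen C h1 h3 h4).trans ?_
    unfold eout
    have h5 : ∑ s ∈ S, (C.filter (fun x => x * s ∉ C)).card =
        ∑ s : {s // s ∈ S}, (C.filter (fun x => x * s.1 ∉ C)).card := by
      rw [← Finset.sum_coe_sort S (fun s => (C.filter (fun x => x * s ∉ C)).card)]
    rw [h5]
    have h6 : ∑ s : {s // s ∈ S}, (C.filter (fun x => x * s.1 ∉ C)).card =
        ∑ s : {s // s ∈ S}, ((Finset.univ.filter (fun e : G × {s // s ∈ S} =>
          (Quotient.mk (D.setoid F) (D.src e)) = q ∧ ¬ D.Conn F (D.src e) (D.tgt e))).filter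
            (fun e => e.2 = s)).card := by
      apply Finset.sum_congr rfl
      intro s _
      apply Finset.card_bij (fun x _ => (x, s))
      · intro x hx
        rw [Finset.mem_filter] at hx
        rw [Finset.mem_filter, Finset.mem_filter]
        refine ⟨⟨Finset.mem_univ _, ?_, ?_⟩, rfl⟩
        · rw [hD.src_eq]; exact (Finset.mem_filter.1 hx.1).2
        · rw [hD.src_eq, hD.tgt_eq]
          intro hcon
          apply hx.2
          rw [Finset.mem_filter]
          refine ⟨Finset.mem_univ _, ?_⟩
          rw [← (Finset.mem_filter.1 hx.1).2]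
          exact Quotient.sound hcon.symm
      · intro a _ b _ hab; exact congrArg Prod.fst hab
      · rintro ⟨x, s'⟩ he
        rw [Finset.mem_filter, Finset.mem_filter] at he
        obtain ⟨⟨-, h7, h8⟩, h9⟩ := he
        simp only at h9
        subst h9
        rw [hD.src_eq] at h7 h8
        rw [hD.tgt_eq] at h8
        have hx : x ∈ C := Finset.mem_filter.2 ⟨Finset.mem_univ _, h7⟩
        refine ⟨x, Finset.mem_filter.2 ⟨hx, ?_⟩, rfl⟩
        intro hcon
        apply h8
        have := (Finset.mem_filter.1 hcon).2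
        exact Quotient.exact (h7.trans this.symm)
    rw [h6]
    exact PG.sum_card_filter_le _ _ _ _ (fun e he _ => he)
  calc Q.card * (Nat.card H * S.card) = ∑ _q ∈ Q, (Nat.card H * S.card) := by
        rw [Finset.sum_const, smul_eq_mul]
    _ ≤ ∑ q ∈ Q, ((Finset.univ.filter (fun e : G × {s // s ∈ S} =>
        ¬ D.Conn F (D.src e) (D.tgt e))).filter (fun e =>
        (Quotient.mk (D.setoid F) (D.src e)) = q)).card := by
        apply Finset.sum_le_sum
        intro q _
        refine (hcut q).trans (Finset.card_le_card ?_)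
        intro e he
        rw [Finset.mem_filter] at he
        rw [Finset.mem_filter, Finset.mem_filter]
        exact ⟨⟨he.1, he.2.2⟩, he.2.1⟩
    _ ≤ _ := by
        apply PG.sum_card_filter_le
        intro e he hq
        rw [Finset.mem_filter] at he ⊢
        exact ⟨he.1, hq, he.2⟩

/-- Spanning trees with load at most one at every port. -/
theorem IsCG.port_tree (hD : IsCG H S D) (hS : Irred H S)
    (hgen : Subgroup.closure ((H : Set G) ∪ (S : Set G)) = ⊤)
    (hdeg : ∀ p, 2 * D.load Finset.univ p ≤ Nat.card H * S.card + 1) :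
    ∃ T : Finset (G × {s // s ∈ S}), PG.IsST D T ∧ ∀ p, D.load T p ≤ 1 := by
  rcases PG.fr D (fun _ => 1) (hD.conn hgen) with h | ⟨T, X, hT, hX1, ⟨p₀, hp₀X, hp₀⟩, hcl⟩
  · exact h
  exfalso
  have h1 : X.card + 1 ≤ ∑ p ∈ X, D.load T p := by
    have h : ∑ _p ∈ X, 1 < ∑ p ∈ X, D.load T p :=
      Finset.sum_lt_sum hX1 ⟨p₀, hp₀X, hp₀⟩
    rw [Finset.sum_const, smul_eq_mul, mul_one] at h
    exact h
  have h2 : ∑ p ∈ X, D.load T p = (D.tX T X).card + (D.tXX T X).card := PG.sum_load_eq T X
  have h2' : (D.tXX T X).card ≤ (D.tX T X).card := by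
    apply Finset.card_le_card
    intro e he
    have he' := PG.mem_tXX.1 he
    exact Finset.mem_filter.2 ⟨he'.1, Or.inl he'.2.1⟩
  have h3 := PG.ncomp_av hT X
  have hXpos : 0 < X.card := Finset.card_pos.2 ⟨p₀, hp₀X⟩
  haveI : Fintype (Quotient (D.setoid (D.av T X : Set (G × {s // s ∈ S})))) := Fintype.ofFinite _
  have h4 := hD.classes hS hgen (D.av T X : Set (G × {s // s ∈ S})) Finset.univ (by omega)
  have h5 : (Finset.univ.filter (fun e : G × {s // s ∈ S} =>
        (Quotient.mk (D.setoid (D.av T X : Set (G × {s // s ∈ S}))) (D.src e)) ∈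
        (Finset.univ : Finset (Quotient (D.setoid (D.av T X : Set (G × {s // s ∈ S}))))) ∧
        ¬ D.Conn (D.av T X : Set (G × {s // s ∈ S})) (D.src e) (D.tgt e))).card ≤
      (D.tX Finset.univ X).card := by
    apply Finset.card_le_card
    intro e he
    rw [Finset.mem_filter] at he
    refine Finset.mem_filter.2 ⟨Finset.mem_univ _, ?_⟩
    by_contra hcon
    exact he.2.2 (hcl e hcon)
  have h6 : ∑ p ∈ X, D.load Finset.univ p =
      (D.tX Finset.univ X).card + (D.tXX Finset.univ X).card := PG.sum_load_eq Finset.univ X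
  have h6' : (D.tXX T X).card ≤ (D.tXX Finset.univ X).card := by
    apply Finset.card_le_card
    intro e he
    have he' := PG.mem_tXX.1 he
    exact PG.mem_tXX.2 ⟨Finset.mem_univ _, he'.2⟩
  have h7 : 2 * ∑ p ∈ X, D.load Finset.univ p ≤ X.card * (Nat.card H * S.card + 1) := by
    rw [Finset.mul_sum, ← smul_eq_mul, ← Finset.sum_const]
    exact Finset.sum_le_sum (fun p _ => hdeg p)
  have h8 : (Finset.univ : Finset (Quotient (D.setoid (D.av T X : Set (G × {s // s ∈ S}))))).card =
      D.ncomp (D.av T X : Set (G × {s // s ∈ S})) := by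
    rw [PG.ncomp, Nat.card_eq_fintype_card]; rfl
  rw [h8] at h4
  have h9 : 0 < Nat.card H * S.card := by
    have a1 := hdeg p₀
    have a2 : D.load T p₀ ≤ D.load Finset.univ p₀ := PG.load_mono (Finset.subset_univ _) _
    omega
  rw [h3] at h4
  set K := Nat.card H * S.card with hK
  set t := (D.tX T X).card with ht
  set τ := (D.tXX T X).card with hτ
  set τ' := (D.tXX Finset.univ X).card with hτ'
  set σ := (D.tX Finset.univ X).card with hσ
  obtain ⟨d, hd⟩ := Nat.exists_eq_add_of_le h2'
  have h10 : (1 + t) * K + τ ≤ σ + τ' := by omega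
  have h11 : 2 * ((1 + t) * K + τ) ≤ X.card * (K + 1) := by omega
  have h12 : (X.card + 1) * (K + 1) ≤ (t + τ) * (K + 1) := Nat.mul_le_mul_right _ (by omega)
  have h13 : d ≤ d * K := Nat.le_mul_of_pos_right d h9
  rw [hd] at h11 h12
  have e1 : (X.card + 1) * (K + 1) = X.card * (K + 1) + K + 1 := by ring
  have e2 : (τ + d + τ) * (K + 1) = 2 * (τ * K) + d * K + 2 * τ + d := by ring
  have e3 : 2 * ((1 + (τ + d)) * K + τ) = 2 * K + 2 * (τ * K) + 2 * (d * K) + 2 * τ := by ring
  omega

/-- The coset graph with the blocks themselves as ports. -/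
def cosetPG (H : Subgroup G) (S : Finset G) : PG (G ⧸ H) (G × {s // s ∈ S}) (G ⧸ H) where
  blk := id
  ps := fun e => (e.1 : G ⧸ H)
  pt := fun e => ((e.1 * e.2.1 : G) : G ⧸ H)

theorem cosetPG_isCG (H : Subgroup G) (S : Finset G) : IsCG H S (cosetPG H S) :=
  ⟨fun _ => rfl, fun _ => rfl⟩

theorem eq_of_conn_isolated {B E P : Type*} {D : PG B E P} {F : Set E} {x y : B}
    (hx : ∀ e ∈ F, D.src e ≠ x ∧ D.tgt e ≠ x) (h : D.Conn F x y) : x = y := by
  have key : ∀ a b, D.Conn F a b → (a = x ↔ b = x) := by
    intro a b hab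
    induction hab with
    | rel a b hab =>
      obtain ⟨e, he, rfl, rfl⟩ := hab
      exact ⟨fun h => absurd h (hx e he).1, fun h => absurd h (hx e he).2⟩
    | refl a => exact Iff.rfl
    | symm a b _ ih => exact ih.symm
    | trans a b c _ _ ih1 ih2 => exact ih1.trans ih2
  exact ((key x y h).1 rfl).symm

theorem card_preimage_blocks (X : Finset (G ⧸ H)) :
    (Finset.univ.filter (fun y : G => (y : G ⧸ H) ∈ X)).card = X.card * Nat.card H := by
  have h := QuotientGroup.card_preimage_mk H (X : Set (G ⧸ H))
  have h1 : Nat.card ((QuotientGroup.mk : G → G ⧸ H) ⁻¹' (X : Set (G ⧸ H))) =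
      (Finset.univ.filter (fun y : G => (y : G ⧸ H) ∈ X)).card := by
    rw [Nat.card_eq_fintype_card, Fintype.card_subtype]
    congr 1
    ext x
    simp
  rw [← h1, h, mul_comm]
  congr 1
  simp

/-- Spanning trees of coset graphs with maximum degree at most three. -/
theorem deg_tree (hS : Irred H S) (hgen : Subgroup.closure ((H : Set G) ∪ (S : Set G)) = ⊤) :
    ∃ T : Finset (G × {s // s ∈ S}), PG.IsST (cosetPG H S) T ∧
      ∀ p, (cosetPG H S).load T p ≤ 3 := by
  have hD := cosetPG_isCG H S
  rcases PG.fr (cosetPG H S) (fun _ => 3) (hD.conn hgen) with h | ⟨T, X, hT, hX1, ⟨p₀, hp₀X, hp₀⟩, hcl⟩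
  · exact h
  exfalso
  set D := cosetPG H S with hDdef
  have hps : ∀ e, D.ps e = D.src e := fun _ => rfl
  have hpt : ∀ e, D.pt e = D.tgt e := fun _ => rfl
  have h1 : 3 * X.card + 1 ≤ ∑ p ∈ X, D.load T p := by
    have h : ∑ _p ∈ X, 3 < ∑ p ∈ X, D.load T p :=
      Finset.sum_lt_sum hX1 ⟨p₀, hp₀X, hp₀⟩
    rw [Finset.sum_const, smul_eq_mul] at h
    omega
  set TXX := D.tXX T X with hTXX
  have h2 : ∑ p ∈ X, D.load T p = (D.tX T X).card + TXX.card := PG.sum_load_eq T X
  have h3 : TXX.card + 1 ≤ X.card := by
    have hf' : D.ncomp (TXX : Set (G × {s // s ∈ S})) + TXX.card = Nat.card (G ⧸ H) :=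
      hT.forest (fun e he => (PG.mem_tXX.1 he).1)
    have hinj : (insert p₀ Xᶜ : Finset (G ⧸ H)).card ≤ D.ncomp (TXX : Set (G × {s // s ∈ S})) := by
      haveI : Fintype (Quotient (D.setoid (TXX : Set (G × {s // s ∈ S})))) := Fintype.ofFinite _
      unfold PG.ncomp
      rw [Nat.card_eq_fintype_card, ← Finset.card_univ]
      apply Finset.card_le_card_of_injOn (fun b => Quotient.mk (D.setoid (TXX : Set (G × {s // s ∈ S}))) b)
      · intro b _; exact Finset.mem_coe.2 (Finset.mem_univ _)
      · intro a ha b hb hab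
        have hc : D.Conn (TXX : Set (G × {s // s ∈ S})) a b := Quotient.exact hab
        have hiso : ∀ c, c ∉ X → ∀ e ∈ (TXX : Set (G × {s // s ∈ S})), D.src e ≠ c ∧ D.tgt e ≠ c := by
          intro c hc e he
          have he' := (PG.mem_tXX.1 (Finset.mem_coe.1 he)).2
          refine ⟨?_, ?_⟩
          · rintro rfl; exact hc he'.1
          · rintro rfl; exact hc he'.2
        rw [Finset.mem_coe, Finset.mem_insert, Finset.mem_compl] at ha hb
        by_cases haX : a ∈ X
        · by_cases hbX : b ∈ X
          · rcases ha with rfl | ha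
            · rcases hb with rfl | hb
              · rfl
              · exact absurd hbX hb
            · exact absurd haX ha
          · exact (eq_of_conn_isolated (hiso b hbX) hc.symm).symm
        · exact eq_of_conn_isolated (hiso a haX) hc
    rw [Finset.card_insert_of_notMem (by rw [Finset.mem_compl, not_not]; exact hp₀X),
      Finset.card_compl, ← Nat.card_eq_fintype_card] at hinj
    have hXle : X.card ≤ Nat.card (G ⧸ H) := by
      rw [Nat.card_eq_fintype_card]; exact Finset.card_le_univ _
    omega
  have h4 := PG.ncomp_av hT X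
  haveI : Fintype (Quotient (D.setoid (D.av T X : Set (G × {s // s ∈ S})))) := Fintype.ofFinite _
  set Q : Finset (Quotient (D.setoid (D.av T X : Set (G × {s // s ∈ S})))) :=
    (X.image (fun b => Quotient.mk (D.setoid (D.av T X : Set (G × {s // s ∈ S}))) b))ᶜ with hQ
  have hQcard : D.ncomp (D.av T X : Set (G × {s // s ∈ S})) ≤ Q.card + X.card := by
    rw [hQ, Finset.card_compl, PG.ncomp, Nat.card_eq_fintype_card]
    have := Finset.card_image_le (s := X)
      (f := fun b => Quotient.mk (D.setoid (D.av T X : Set (G × {s // s ∈ S}))) b)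
    omega
  have h5 := hD.classes hS hgen (D.av T X : Set (G × {s // s ∈ S})) Q (by omega)
  have h6 : (Finset.univ.filter (fun e : G × {s // s ∈ S} =>
        (Quotient.mk (D.setoid (D.av T X : Set (G × {s // s ∈ S}))) (D.src e)) ∈ Q ∧
        ¬ D.Conn (D.av T X : Set (G × {s // s ∈ S})) (D.src e) (D.tgt e))).card ≤
      ((Finset.univ.filter (fun y : G => (y : G ⧸ H) ∈ X)) ×ˢ (Finset.univ : Finset {s // s ∈ S})).card := by
    apply Finset.card_le_card_of_injOn (fun e => (e.1 * e.2.1, e.2))
    · intro e he
      rw [Finset.mem_coe, Finset.mem_filter] at he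
      rw [Finset.mem_coe, Finset.mem_product]
      refine ⟨Finset.mem_filter.2 ⟨Finset.mem_univ _, ?_⟩, Finset.mem_univ _⟩
      have ht : D.Touch X e := by
        by_contra hcon
        exact he.2.2 (hcl e hcon)
      rcases ht with ht | ht
      · exfalso
        have := he.2.1
        rw [hQ, Finset.mem_compl] at this
        exact this (Finset.mem_image_of_mem _ ht)
      · exact ht
    · rintro ⟨a, s⟩ _ ⟨b, t⟩ _ hab
      simp only [Prod.mk.injEq] at hab
      obtain ⟨h1, h2⟩ := hab
      subst h2
      rw [mul_right_cancel h1]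
  rw [Finset.card_product, card_preimage_blocks, Finset.card_univ, Fintype.card_coe] at h6
  have h9 : 0 < Nat.card H * S.card := by
    have a1 : 0 < Nat.card H := Nat.card_pos
    have a2 : 0 < D.load T p₀ := by omega
    have a3 : 0 < S.card := by
      by_contra hcon
      have hS0 : S = ∅ := by rw [← Finset.card_eq_zero]; omega
      have : T = ∅ := by
        rw [Finset.eq_empty_iff_forall_notMem]
        rintro ⟨x, s⟩ _
        exact absurd s.2 (by simp [hS0])
      rw [this] at a2
      simp [PG.load] at a2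
    positivity
  have h10 : Q.card * (Nat.card H * S.card) ≤ X.card * (Nat.card H * S.card) := by
    calc Q.card * (Nat.card H * S.card) ≤ X.card * Nat.card H * S.card := h5.trans h6
      _ = _ := by ring
  have h11 := Nat.le_of_mul_le_mul_right h10 h9
  omega

end coset

end Pool.Agent.Lib.MP_688fd0_co
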