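import Pool.Agent.Lib.MP_688fd0_co.Haxell
import Pool.Agent.Lib.MP_688fd0_co.Tree

/-!
Two spanning trees of a coset graph whose ends occupy pairwise different cells, and the even
connected structures obtained from them.
-/

namespace Pool.Agent.Lib.MP_688fd0_co

set_option linter.unusedSectionVars false

open Classical

namespace PG

variable {B E P : Type*} (D : PG B E P)

/-- Two disjoint copies of a ported graph. -/
def dbl : PG (B × Bool) (E × Bool) (P × Bool) where
  blk := fun p => (D.blk p.1, p.2)
  ps := fun e => (D.ps e.1, e.2)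
  pt := fun e => (D.pt e.1, e.2)

variable {D}

/-- One layer of an edge set of the doubled graph. -/
noncomputable def slice [Fintype E] (F : Finset (E × Bool)) (b : Bool) : Finset E :=
  Finset.univ.filter (fun e => (e, b) ∈ F)

variable [Fintype E]

theorem mem_slice {F : Finset (E × Bool)} {b : Bool} {e : E} : e ∈ slice F b ↔ (e, b) ∈ F := by
  simp [slice]

theorem dbl_conn {F : Finset (E × Bool)} {x y : B × Bool} (h : D.dbl.Conn (F : Set (E × Bool)) x y) :
    x.2 = y.2 ∧ D.Conn (slice F x.2 : Set E) x.1 y.1 := by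
  induction h with
  | rel a b hab =>
    obtain ⟨e, he, rfl, rfl⟩ := hab
    refine ⟨rfl, ?_⟩
    exact Conn.of_mem (D := D) (Finset.mem_coe.2 (mem_slice.2 he))
  | refl a => exact ⟨rfl, Conn.refl _ _⟩
  | symm a b _ ih =>
    obtain ⟨h1, h2⟩ := ih
    refine ⟨h1.symm, ?_⟩
    rw [← h1]
    exact h2.symm
  | trans a b c _ _ ih1 ih2 =>
    obtain ⟨h1, h2⟩ := ih1
    obtain ⟨h3, h4⟩ := ih2
    refine ⟨h1.trans h3, h2.trans ?_⟩
    rw [h1]; exact h4

theorem conn_dbl {F : Finset (E × Bool)} {b : Bool} {x y : B}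
    (h : D.Conn (slice F b : Set E) x y) : D.dbl.Conn (F : Set (E × Bool)) (x, b) (y, b) := by
  induction h with
  | rel a c hab =>
    obtain ⟨e, he, rfl, rfl⟩ := hab
    exact Conn.of_mem (D := D.dbl) (e := (e, b)) (Finset.mem_coe.2 (mem_slice.1 (Finset.mem_coe.1 he)))
  | refl a => exact Conn.refl _ _
  | symm a c _ ih => exact ih.symm
  | trans a c d _ _ ih1 ih2 => exact ih1.trans ih2

theorem conn_dbl' {F : Set (E × Bool)} {F₀ : Set E} {b : Bool} (h : ∀ e ∈ F₀, (e, b) ∈ F) {x y : B}
    (hc : D.Conn F₀ x y) : D.dbl.Conn F (x, b) (y, b) := by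
  induction hc with
  | rel a c hab =>
    obtain ⟨e, he, rfl, rfl⟩ := hab
    exact Conn.of_mem (D := D.dbl) (e := (e, b)) (h e he)
  | refl a => exact Conn.refl _ _
  | symm a c _ ih => exact ih.symm
  | trans a c d _ _ ih1 ih2 => exact ih1.trans ih2

theorem card_slice (F : Finset (E × Bool)) :
    F.card = (slice F false).card + (slice F true).card := by
  have h1 := Finset.card_filter_add_card_filter_not (s := F) (fun e => e.2 = false)
  rw [← h1]
  congr 1
  · symm
    apply Finset.card_bij (fun e _ => (e, false))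
    · intro e he; exact Finset.mem_filter.2 ⟨mem_slice.1 he, rfl⟩
    · intro a _ b _ hab; exact congrArg Prod.fst hab
    · rintro ⟨e, b⟩ he
      obtain ⟨h2, h3⟩ := Finset.mem_filter.1 he
      simp only at h3
      subst h3
      exact ⟨e, mem_slice.2 h2, rfl⟩
  · symm
    apply Finset.card_bij (fun e _ => (e, true))
    · intro e he; exact Finset.mem_filter.2 ⟨mem_slice.1 he, by simp⟩
    · intro a _ b _ hab; exact congrArg Prod.fst hab
    · rintro ⟨e, b⟩ he
      obtain ⟨h2, h3⟩ := Finset.mem_filter.1 he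
      have h4 : b = true := by simpa using h3
      subst h4
      exact ⟨e, mem_slice.2 h2, rfl⟩

theorem Forest.slice {F : Finset (E × Bool)} (h : D.dbl.Forest F) (b : Bool) :
    D.Forest (PG.slice F b) := by
  intro e he hc
  apply h (e, b) (mem_slice.1 he)
  refine conn_dbl' ?_ hc
  intro f hf
  rw [Finset.mem_coe, Finset.mem_erase, mem_slice] at hf
  letI : DecidableEq (E × Bool) := fun a b => propDecidable (a = b)
  rw [Finset.mem_coe, Finset.mem_erase]
  refine ⟨?_, hf.2⟩
  intro h'
  exact hf.1 (congrArg Prod.fst h')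

variable [Finite B]

theorem ncomp_le_of_conn {F F' : Set E} (h : ∀ x y, D.Conn F' x y → D.Conn F x y) :
    D.ncomp F ≤ D.ncomp F' := by
  unfold ncomp
  let f : Quotient (D.setoid F') → Quotient (D.setoid F) :=
    Quotient.map' id (fun a b hab => h a b hab)
  apply Nat.card_le_card_of_surjective f
  intro q
  induction q using Quotient.inductionOn with
  | h a => exact ⟨Quotient.mk _ a, rfl⟩

theorem two_le_ncomp {F : Set E} {x y : B} (h : ¬ D.Conn F x y) : 2 ≤ D.ncomp F := by
  by_contra hcon
  have h1 : D.ncomp F ≤ 1 := by omega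
  unfold ncomp at h1
  rw [Finite.card_le_one_iff_subsingleton] at h1
  apply h
  have := h1.elim (Quotient.mk (D.setoid F) x) (Quotient.mk (D.setoid F) y)
  exact Quotient.exact this

end PG

section coset

variable {G : Type*} [Group G] [Fintype G] (H : Subgroup G) (S : Finset G)

/-- The coset graph whose ports are the group elements. -/
def pG : PG (G ⧸ H) (G × {s // s ∈ S}) G where
  blk := fun x => (x : G ⧸ H)
  ps := fun e => e.1
  pt := fun e => e.1 * e.2.1

theorem pG_isCG : IsCG H S (pG H S) := ⟨fun _ => rfl, fun _ => rfl⟩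

/-- Two edges are in conflict when some of their ends are close. -/
def conf (N : G → G → Prop) (e f : (G × {s // s ∈ S}) × Bool) : Prop :=
  ∃ x y, (x = e.1.1 ∨ x = e.1.1 * e.1.2.1) ∧ (y = f.1.1 ∨ y = f.1.1 * f.1.2.1) ∧ N x y

/-- The elements close to the ends of an edge. -/
noncomputable def posG (N : G → G → Prop) (e : (G × {s // s ∈ S}) × Bool) : Finset G :=
  Finset.univ.filter (fun z => N e.1.1 z ∨ N (e.1.1 * e.1.2.1) z)

variable {H S}

theorem two_trees (N : G → G → Prop) (hrefl : ∀ x, N x x) (hsymm : ∀ x y, N x y → N y x)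
    (ν ν' : ℕ) (hν : ∀ x, (Finset.univ.filter (fun z => N x z)).card ≤ ν)
    (hν' : ∀ x y, N x y → (Finset.univ.filter (fun z => N x z ∧ ¬ N y z)).card ≤ ν')
    (hH : 4 * (3 * ν + ν') ≤ Nat.card H)
    (hS : Irred H S) (hgen : Subgroup.closure ((H : Set G) ∪ (S : Set G)) = ⊤) :
    ∃ M : Finset ((G × {s // s ∈ S}) × Bool), PG.CF (conf S N) M ∧
      ∀ b, ∀ x y, (pG H S).Conn (PG.slice M b : Set (G × {s // s ∈ S})) x y := by
  have hD := pG_isCG H S
  have hconn := hD.conn hgen
  rcases PG.haxell (pG H S).dbl (conf S N)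
      (by intro e; exact ⟨e.1.1, e.1.1, Or.inl rfl, Or.inl rfl, hrefl _⟩)
      (by rintro e f ⟨x, y, hx, hy, hxy⟩; exact ⟨y, x, hy, hx, hsymm _ _ hxy⟩)
      (posG S N) (t₁ := 2 * ν) (t₂ := ν + ν')
      (by
        intro e
        have h1 : posG S N e ⊆ Finset.univ.filter (fun z => N e.1.1 z) ∪
            Finset.univ.filter (fun z => N (e.1.1 * e.1.2.1) z) := by
          intro z hz
          rw [Finset.mem_union, Finset.mem_filter, Finset.mem_filter]
          rcases (Finset.mem_filter.1 hz).2 with h | h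
          · exact Or.inl ⟨Finset.mem_univ _, h⟩
          · exact Or.inr ⟨Finset.mem_univ _, h⟩
        have h2 := (Finset.card_le_card h1).trans (Finset.card_union_le _ _)
        have h3 := hν e.1.1
        have h4 := hν (e.1.1 * e.1.2.1)
        omega)
      (by
        rintro e f ⟨x, y, hx, hy, hxy⟩
        obtain ⟨x', hx'⟩ : ∃ x', ∀ z, (N f.1.1 z ∨ N (f.1.1 * f.1.2.1) z) → N x z ∨ N x' z := by
          rcases hx with rfl | rfl
          · exact ⟨f.1.1 * f.1.2.1, fun z hz => hz⟩
          · exact ⟨f.1.1, fun z hz => hz.symm⟩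
        have h1 : posG S N f \ posG S N e ⊆ Finset.univ.filter (fun z => N x' z) ∪
            Finset.univ.filter (fun z => N x z ∧ ¬ N y z) := by
          intro z hz
          rw [Finset.mem_sdiff, posG, posG, Finset.mem_filter, Finset.mem_filter] at hz
          rw [Finset.mem_union, Finset.mem_filter, Finset.mem_filter]
          have h2 : ¬ N y z := by
            intro h
            apply hz.2
            refine ⟨Finset.mem_univ _, ?_⟩
            rcases hy with rfl | rfl
            · exact Or.inl h
            · exact Or.inr h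
          rcases hx' z hz.1.2 with h | h
          · exact Or.inr ⟨Finset.mem_univ _, h, h2⟩
          · exact Or.inl ⟨Finset.mem_univ _, h⟩
        have h2 := (Finset.card_le_card h1).trans (Finset.card_union_le _ _)
        have h3 := hν x'
        have h4 := hν' x y hxy
        omega) with ⟨M, hM1, hM2, hM3⟩ | ⟨M, U, hM1, hM2, hM3, hU, hcl⟩
  · refine ⟨M, hM2, fun b x y => ?_⟩
    refine PG.Conn.lift ?_ (hconn x y)
    intro e _
    exact (PG.dbl_conn (hM3 (e, b))).2
  exfalso
  set D := pG H S with hDdef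
  set F := PG.avo (conf S N) M U with hF
  have hFM : F ⊆ M := Finset.filter_subset _ _
  have hFforest : D.dbl.Forest F := hM1.subset hFM
  have hMs := fun b => (hM1.slice b).card
  have hFs := fun b => (hFforest.slice b).card
  have hcardM := PG.card_slice M
  have hcardF := PG.card_slice F
  have hMF : M.card = F.card + (PG.tou (conf S N) M U).card := by
    have := Finset.card_filter_add_card_filter_not (s := M) (fun f => ¬ PG.Tch (conf S N) U f)
    simp only [not_not] at this
    exact this.symm
  -- single copy: edges in conflict with `U`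
  set tW : (G × {s // s ∈ S}) → Prop := fun e => PG.Tch (conf S N) U (e, false) with htW
  have htch : ∀ e b, PG.Tch (conf S N) U (e, b) ↔ tW e := fun e b => Iff.rfl
  have hclb : ∀ b e, ¬ tW e → D.Conn (PG.slice F b : Set (G × {s // s ∈ S})) (D.src e) (D.tgt e) := by
    intro b e he
    exact (PG.dbl_conn (hcl (e, b) (fun h => he ((htch e b).1 h)))).2
  have hcomp : ∀ b b' x y, D.Conn (PG.slice F b : Set (G × {s // s ∈ S})) x y →
      D.Conn (PG.slice F b' : Set (G × {s // s ∈ S})) x y := by
    intro b b' x y h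
    refine PG.Conn.lift ?_ h
    intro e he
    apply hclb b' e
    intro ht
    have h1 := PG.mem_slice.1 (Finset.mem_coe.1 he)
    exact (PG.mem_avo.1 h1).2 ((htch e b).2 ht)
  have hceq : D.ncomp (PG.slice F true : Set (G × {s // s ∈ S})) =
      D.ncomp (PG.slice F false : Set (G × {s // s ∈ S})) :=
    le_antisymm (PG.ncomp_le_of_conn (hcomp false true)) (PG.ncomp_le_of_conn (hcomp true false))
  obtain ⟨⟨e₁, b₁⟩, he₁⟩ := hM3
  have h2 : 2 ≤ D.ncomp (PG.slice M b₁ : Set (G × {s // s ∈ S})) := by
    apply PG.two_le_ncomp (x := D.src e₁) (y := D.tgt e₁)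
    intro h
    exact he₁ (PG.conn_dbl h)
  have h3 : 1 ≤ D.ncomp (PG.slice M (!b₁) : Set (G × {s // s ∈ S})) := PG.ncomp_pos _
  have h4 : 3 ≤ D.ncomp (PG.slice M false : Set (G × {s // s ∈ S})) +
      D.ncomp (PG.slice M true : Set (G × {s // s ∈ S})) := by
    cases b₁
    · simp only [Bool.not_false] at h3; omega
    · simp only [Bool.not_true] at h3; omega
  set c := D.ncomp (PG.slice F false : Set (G × {s // s ∈ S})) with hc
  have h5 : (PG.tou (conf S N) M U).card + 3 ≤ 2 * c := by
    have a1 := hMs false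
    have a2 := hMs true
    have a3 := hFs false
    have a4 := hFs true
    rw [hceq] at a4
    omega
  have hc2 : 2 ≤ c := by omega
  have h6 := hD.classes hS hgen (PG.slice F false : Set (G × {s // s ∈ S})) Finset.univ hc2
  have h7' : ∀ (inst : Fintype (Quotient (D.setoid (PG.slice F false : Set (G × {s // s ∈ S}))))),
      (@Finset.univ _ inst).card = c := by
    intro inst
    rw [hc, PG.ncomp, Nat.card_eq_fintype_card]
    rfl
  rw [h7'] at h6
  set X := U.biUnion (posG S N) with hX
  have htX : ∀ e, tW e → e.1 ∈ X ∨ e.1 * e.2.1 ∈ X := by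
    rintro e ⟨g, hg, x, y, hx, hy, hxy⟩
    have h8 : x ∈ X := by
      rw [hX, Finset.mem_biUnion]
      refine ⟨g, hg, ?_⟩
      rw [posG, Finset.mem_filter]
      refine ⟨Finset.mem_univ _, ?_⟩
      rcases hy with rfl | rfl
      · exact Or.inl (hsymm _ _ hxy)
      · exact Or.inr (hsymm _ _ hxy)
    rcases hx with rfl | rfl
    · exact Or.inl h8
    · exact Or.inr h8
  have h8 : (Finset.univ.filter (fun e : G × {s // s ∈ S} => tW e)).card ≤
      X.card * (2 * S.card) := by
    have h9 : (Finset.univ.filter (fun e : G × {s // s ∈ S} => tW e)) ⊆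
        (X ×ˢ (Finset.univ : Finset {s // s ∈ S})) ∪
          Finset.univ.filter (fun e : G × {s // s ∈ S} => e.1 * e.2.1 ∈ X) := by
      intro e he
      rcases htX e (Finset.mem_filter.1 he).2 with h | h
      · refine Finset.mem_union_left _ ?_
        rw [Finset.mem_product]
        exact ⟨h, Finset.mem_univ _⟩
      · refine Finset.mem_union_right _ ?_
        exact Finset.mem_filter.2 ⟨Finset.mem_univ _, h⟩
    have a1 : (Finset.univ.filter (fun e : G × {s // s ∈ S} => e.1 * e.2.1 ∈ X)).card ≤
        (X ×ˢ (Finset.univ : Finset {s // s ∈ S})).card := by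
      apply Finset.card_le_card_of_injOn (fun e => (e.1 * e.2.1, e.2))
      · intro e he
        rw [Finset.mem_coe, Finset.mem_filter] at he
        rw [Finset.mem_coe, Finset.mem_product]
        exact ⟨he.2, Finset.mem_univ _⟩
      · rintro ⟨a, s⟩ _ ⟨b, t⟩ _ hab
        simp only [Prod.mk.injEq] at hab
        obtain ⟨h1, h2⟩ := hab
        subst h2
        rw [mul_right_cancel h1]
    have a2 := (Finset.card_le_card h9).trans (Finset.card_union_le _ _)
    rw [Finset.card_product, Finset.card_univ, Fintype.card_coe] at a1 a2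
    calc _ ≤ X.card * S.card + X.card * S.card := by omega
      _ = _ := by ring
  have h10 : c * (Nat.card H * S.card) ≤ X.card * (2 * S.card) := by
    refine (h6.trans (Finset.card_le_card ?_)).trans h8
    intro e he
    rw [Finset.mem_filter] at he
    refine Finset.mem_filter.2 ⟨Finset.mem_univ _, ?_⟩
    by_contra hcon
    exact he.2.2 (hclb false e hcon)
  have hν1 : 1 ≤ ν := by
    refine le_trans ?_ (hν 1)
    exact Finset.card_pos.2 ⟨1, Finset.mem_filter.2 ⟨Finset.mem_univ _, hrefl 1⟩⟩
  have hS1 : 1 ≤ S.card := Finset.card_pos.2 ⟨e₁.2.1, e₁.2.2⟩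
  set β := 3 * ν + ν' with hβ
  have hU' : X.card ≤ β * (PG.tou (conf S N) M U).card := by
    refine hU.trans (le_of_eq ?_)
    rw [hβ]; ring
  have h11 : c * (4 * β * S.card) ≤ c * (Nat.card H * S.card) :=
    Nat.mul_le_mul_left _ (Nat.mul_le_mul_right _ hH)
  obtain ⟨d, hd⟩ := Nat.exists_eq_add_of_le (show 3 ≤ 2 * c by omega)
  have h12 : X.card * (2 * S.card) ≤ (β * d) * (2 * S.card) := by
    apply Nat.mul_le_mul_right
    refine hU'.trans (Nat.mul_le_mul_left _ ?_)
    omega
  have h13 : 1 ≤ β * S.card := Nat.mul_pos (by omega) hS1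
  have e1 : c * (4 * β * S.card) = (2 * c) * (2 * (β * S.card)) := by ring
  have e2 : (β * d) * (2 * S.card) = d * (2 * (β * S.card)) := by ring
  rw [e1, hd] at h11
  rw [e2] at h12
  have e3 : (3 + d) * (2 * (β * S.card)) = 6 * (β * S.card) + d * (2 * (β * S.card)) := by ring
  omega

end coset

end Pool.Agent.Lib.MP_688fd0_co
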